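import Pool.Agent.Q51.EB.Stm

/-! # Project EB, job VC -/

set_option autoImplicit false

namespace Pool.Agent.Q51.EB

open Polynomial NumberField IsDedekindDomain Finset Pool.Agent.Q51.EL

lemma mk_unit {F : Type} [Field F] {p c : F[X]} (h : IsCoprime p c) : IsUnit (AdjoinRoot.mk p c) := by
  obtain ⟨u, v, huv⟩ := h
  have h1 := congrArg (AdjoinRoot.mk p) huv
  rw [map_add, map_mul, map_mul, AdjoinRoot.mk_self, mul_zero, zero_add, map_one] at h1
  exact IsUnit.of_mul_eq_one _ (by rw [mul_comm]; exact h1)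

lemma norm_ne {F : Type} [Field F] {p c : F[X]} (h : IsCoprime p c) :
    Algebra.norm F (AdjoinRoot.mk p c) ≠ 0 := ((mk_unit h).map (Algebra.norm F)).ne_zero

theorem vc (hbc : S_BC) : S_VC := by
  classical
  intro f hf D F _ _ a c α hval hc hα
  obtain ⟨x, w, y, hxw, hy, hcop, hdvd, hsq⟩ := hval
  obtain ⟨hnorm, -, -, hsep, -⟩ := hbc f hf F α
  set p := up f F with hp
  set q : F[X] := C x - C w * X with hq
  constructor
  · obtain ⟨p2, hp2⟩ : EuclideanDomain.gcd p q ∣ p := EuclideanDomain.gcd_dvd_left _ _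
    set g1 := EuclideanDomain.gcd p q with hg1
    have hcop12 : IsCoprime g1 p2 := by
      apply Polynomial.Separable.isCoprime
      rw [← hp2]; exact hsep
    have hcopq : IsCoprime p2 q := by
      rw [← EuclideanDomain.gcd_isUnit_iff]
      have h1 : EuclideanDomain.gcd p2 q ∣ g1 := by
        apply EuclideanDomain.dvd_gcd
        · rw [hp2]; exact Dvd.dvd.mul_left (EuclideanDomain.gcd_dvd_left _ _) _
        · exact EuclideanDomain.gcd_dvd_right _ _
      exact hcop12.isUnit_of_dvd' h1 (EuclideanDomain.gcd_dvd_left _ _)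
    have hp2p : p2 ∣ p := ⟨g1, by rw [mul_comm]; exact hp2⟩
    have h1 : p2 ∣ a - q := hcopq.dvd_of_dvd_mul_left (hp2p.trans hdvd)
    have h2 : p2 ∣ a - α.map (Rat.castHom F) * c ^ 2 := hp2p.trans hα
    obtain ⟨u, v, huv⟩ := hcop12
    refine ⟨x, w, c * u * g1, hxw, ?_⟩
    change p ∣ q - α.map (Rat.castHom F) * (c * u * g1) ^ 2
    rw [hp2]
    apply IsCoprime.mul_dvd ⟨u, v, huv⟩
    · apply dvd_sub (EuclideanDomain.gcd_dvd_right _ _)
      exact ⟨α.map (Rat.castHom F) * (c * u) ^ 2 * g1, by ring⟩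
    · obtain ⟨r, hr⟩ := h1
      obtain ⟨s, hs⟩ := h2
      refine ⟨s - r + α.map (Rat.castHom F) * c ^ 2 * v * (1 + u * g1), ?_⟩
      linear_combination hs - hr - α.map (Rat.castHom F) * c ^ 2 * (1 + u * g1) * huv
  · obtain ⟨s, hs⟩ := hsq
    have hN : Algebra.norm F (AdjoinRoot.mk p a) =
        ((Algebra.norm ℚ (AdjoinRoot.mk (up f ℚ) α) : ℚ) : F) *
          Algebra.norm F (AdjoinRoot.mk p c) ^ 2 := by
      have h1 : AdjoinRoot.mk p a = AdjoinRoot.mk p (α.map (Rat.castHom F) * c ^ 2) := by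
        rw [AdjoinRoot.mk_eq_mk]; exact hα
      rw [h1, map_mul, map_mul, map_pow, map_pow, hnorm]
    have hc0 := norm_ne hc
    refine ⟨s / Algebra.norm F (AdjoinRoot.mk p c), ?_⟩
    rw [hN] at hs
    field_simp
    linear_combination hs

end Pool.Agent.Q51.EB
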