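import Pool.Agent.Q51.EB.Bas
import Pool.Agent.Q51.EB.VC
import Pool.Agent.Q239.EL.NV

/-! # Project EB, job CT -/

set_option autoImplicit false

namespace Pool.Agent.Q51.EB

open Polynomial NumberField IsDedekindDomain Finset Pool.Agent.Q51.EL Pool.Agent.Q239.EL
open Pool.Agent.W313.BMX (Splits)

lemma hs_sq {F : Type} [Field F] (a b : F) (hb : IsSquare b) : hs a b = 1 := by
  unfold hs
  rw [if_pos]
  obtain ⟨r, hr⟩ := hb
  by_cases h0 : r = 0
  · refine ⟨0, 1, 0, ?_, ?_⟩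
    · simp
    · rw [hr, h0]; simp
  · refine ⟨0, 1, r, ?_, ?_⟩
    · simp
    · rw [hr]; ring

section

variable {L : Type} [Field L] [NumberField L]

lemma par_mul {v : HeightOneSpectrum (𝓞 L)} {x y : L} {e e' : ℤ} (h : Par v x e)
    (h' : Par v y e') : Par v (x * y) (e + e') := by
  obtain ⟨k, hk⟩ := h
  obtain ⟨k', hk'⟩ := h'
  refine ⟨k + k', ?_⟩
  rw [map_mul, hk, hk', ← WithZero.exp_add]
  congr 1
  ring

lemma par_cong {v : HeightOneSpectrum (𝓞 L)} {x : L} {e e' : ℤ} (h : Par v x e)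
    (he : Even (e - e')) : Par v x e' := by
  obtain ⟨k, hk⟩ := h
  obtain ⟨m, hm⟩ := he
  refine ⟨k + m, ?_⟩
  rw [hk]
  congr 1
  linarith

lemma par_excl {v : HeightOneSpectrum (𝓞 L)} {x : L} (h : Par v x 0) (h' : Par v x 1) : False := by
  obtain ⟨k, hk⟩ := h
  obtain ⟨k', hk'⟩ := h'
  rw [hk, WithZero.exp_inj] at hk'
  omega

lemma par_total (v : HeightOneSpectrum (𝓞 L)) {x : L} (hx : x ≠ 0) : Par v x 0 ∨ Par v x 1 := by
  have h1 : v.valuation L x ≠ 0 := (Valuation.ne_zero_iff _).mpr hx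
  obtain ⟨m, hm⟩ : ∃ m : ℤ, v.valuation L x = WithZero.exp m :=
    ⟨WithZero.log (v.valuation L x), (WithZero.exp_log h1).symm⟩
  rcases Int.even_or_odd' m with ⟨k, hk | hk⟩
  · left; exact ⟨k, by rw [hm, hk]; congr 1; ring⟩
  · right; exact ⟨k, by rw [hm, hk]; congr 1; ring⟩

lemma absN_pow {l : ℕ} [hl : Fact l.Prime] {v : HeightOneSpectrum (𝓞 L)} (hv : Abv v l) :
    Ideal.absNorm v.asIdeal = l ^ ph l v.asIdeal := by
  obtain ⟨p, f, hp, hpv, hf, hpf⟩ := below v
  have h1 : p = l := prime_unique hp hl.out hpv hv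
  subst h1
  unfold ph
  rw [hpf, padicValNat.prime_pow]

end

/-- gram matrices of congruent elements (over the completion) -/
lemma hw_congr (hhwp : S_HWP) (hgram : S_GRAM) {F : Type} [Field F] [Infinite F] (hF : Hil F)
    {p : F[X]} (hs : p.Separable) (hn : 1 ≤ p.natDegree) {u u' c : F[X]} (hu : IsCoprime p u)
    (hc : IsCoprime p c) (h : p ∣ u * c ^ 2 - u') : hw (gram p u') = hw (gram p u) := by
  obtain ⟨g1, g2, g3, g4, g5, g6, g7⟩ := hgram F p hs hn
  rw [← g6 _ _ h]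
  obtain ⟨Q, hQ, hQ'⟩ := g4 u c
  rw [hQ']
  have hdet : (gram p u).det ≠ 0 := by
    rw [g3]; exact mul_ne_zero ((g7 u).mp hu) g2
  exact (hhwp F hF _ _ (g1 u) hdet).2.2.1 Q (by rw [hQ]; exact (g7 c).mp hc)

lemma cop_map {f : ℤ[X]} {F : Type} [Field F] [CharZero F] {ε : ℚ[X]}
    (h : IsCoprime (up f ℚ) ε) : IsCoprime (up f F) (ε.map (Rat.castHom F)) := by
  have h1 := h.map (Polynomial.mapRingHom (Rat.castHom F))
  have h2 : (Polynomial.mapRingHom (Rat.castHom F)) (up f ℚ) = up f F := by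
    simp only [coe_mapRingHom, up, Polynomial.map_map]
    congr 1
    exact RingHom.ext_int _ _
  rw [h2] at h1
  exact h1

lemma dvd_map {f : ℤ[X]} {F : Type} [Field F] [CharZero F] {d : ℚ[X]}
    (h : up f ℚ ∣ d) : up f F ∣ d.map (Rat.castHom F) := by
  have h1 := Polynomial.map_dvd (Rat.castHom F) h
  have h2 : (up f ℚ).map (Rat.castHom F) = up f F := by
    simp only [up, Polynomial.map_map]
    congr 1
    exact RingHom.ext_int _ _
  rw [h2] at h1
  exact h1

/-- the relative tame formula for general `η` -/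
lemma step2 (hhwp : S_HWP) (hgram : S_GRAM) (hbc : S_BC) (hbil : S_BIL) (hnrm : S_NRM)
    {f : ℤ[X]} {L : Type} [Field L] [NumberField L] {θ : L} (hset : Setup f L θ)
    (hn : 1 ≤ f.natDegree) (l : ℕ) [hl : Fact l.Prime]
    (htr : ∀ (b g : ℚ[X]) (m : ℕ)
      (T : Finset (HeightOneSpectrum (𝓞 L))), (∀ v ∈ T, Abv v l) →
      (∀ v : HeightOneSpectrum (𝓞 L), Abv v l →
        (v ∈ T → v.valuation L (aeval θ b) = WithZero.exp (-1 : ℤ)) ∧
        (v ∉ T → v.valuation L (aeval θ b) = 1) ∧ v.valuation L (aeval θ g) = 1) →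
      ∏ v ∈ T, Ideal.absNorm v.asIdeal = l ^ m →
      hw (gram (up f ℚ_[l]) ((b * g).map (Rat.castHom ℚ_[l]))) *
        hw (gram (up f ℚ_[l]) (b.map (Rat.castHom ℚ_[l]))) =
      (hs (((Algebra.norm ℚ (aeval θ g) : ℚ) : ℚ_[l])) (l : ℚ_[l])) ^ m *
        ∏ v ∈ T, sg v (aeval θ g))
    (η γ : ℚ[X]) (hη : aeval θ η ≠ 0)
    (hγ : ∀ v : HeightOneSpectrum (𝓞 L), Abv v l → v.valuation L (aeval θ γ) = 1)
    (hγ0 : aeval θ γ ≠ 0)
    (T : Finset (HeightOneSpectrum (𝓞 L))) (hT : ∀ v ∈ T, Abv v l)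
    (hT' : ∀ v : HeightOneSpectrum (𝓞 L), Abv v l → (v ∈ T → Par v (aeval θ η) 1) ∧
      (v ∉ T → Par v (aeval θ η) 0)) (m : ℕ) (hm : ∏ v ∈ T, Ideal.absNorm v.asIdeal = l ^ m) :
    hw (gram (up f ℚ_[l]) ((η * γ).map (Rat.castHom ℚ_[l]))) *
      hw (gram (up f ℚ_[l]) (η.map (Rat.castHom ℚ_[l]))) =
    (hs (((Algebra.norm ℚ (aeval θ γ) : ℚ) : ℚ_[l])) (l : ℚ_[l])) ^ m *
      ∏ v ∈ T, sg v (aeval θ γ) := by
  classical
  obtain ⟨κ, α, hκ, hα, hαv⟩ := hnrm L l hl.out (aeval θ η) hη (fun v => if v ∈ T then 1 else 0) (by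
    intro v hv
    by_cases h : v ∈ T
    · simpa [h] using (hT' v hv).1 h
    · simpa [h] using (hT' v hv).2 h)
  obtain ⟨k, hk⟩ := surj_up hset κ
  obtain ⟨b, hb⟩ := surj_up hset (α : L)
  have hb2 : aeval θ b = aeval θ η * aeval θ k ^ 2 := by rw [hb, hα, hk]
  have hk0 : aeval θ k ≠ 0 := by rw [hk]; exact hκ
  obtain ⟨-, -, -, hsep, hdeg⟩ := hbc f hset.irr ℚ_[l] η
  have e1 : hw (gram (up f ℚ_[l]) (b.map (Rat.castHom ℚ_[l]))) =
      hw (gram (up f ℚ_[l]) (η.map (Rat.castHom ℚ_[l]))) := by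
    apply hw_congr hhwp hgram (hbil.2 l) hsep (by rw [hdeg]; exact hn)
      (cop_map ((zero_up hset η).mpr hη)) (cop_map ((zero_up hset k).mpr hk0))
    have h1 : up f ℚ ∣ η * k ^ 2 - b := by
      rw [dvd_up hset, map_sub, map_mul, map_pow, hb2, sub_self]
    simpa using dvd_map (F := ℚ_[l]) h1
  have e2 : hw (gram (up f ℚ_[l]) ((b * γ).map (Rat.castHom ℚ_[l]))) =
      hw (gram (up f ℚ_[l]) ((η * γ).map (Rat.castHom ℚ_[l]))) := by
    apply hw_congr hhwp hgram (hbil.2 l) hsep (by rw [hdeg]; exact hn) (c := k.map (Rat.castHom ℚ_[l]))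
      (cop_map ((zero_up hset (η * γ)).mpr (by rw [map_mul]; exact mul_ne_zero hη hγ0)))
      (cop_map ((zero_up hset k).mpr hk0))
    have h1 : up f ℚ ∣ (η * γ) * k ^ 2 - b * γ := by
      rw [dvd_up hset, map_sub, map_mul, map_mul, map_mul, map_pow, hb2]; ring
    simpa using dvd_map (F := ℚ_[l]) h1
  rw [← e1, ← e2]
  apply htr b γ m T hT _ hm
  intro v hv
  rw [hb]
  refine ⟨fun h => ?_, fun h => ?_, hγ v hv⟩
  · rw [hαv v hv, if_pos h]; norm_num
  · rw [hαv v hv, if_neg h]; simp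

theorem ct (htr : S_TR) (hnrm : S_NRM) (hhwp : S_HWP) (hgram : S_GRAM)
    (hbc : S_BC) (hbil : S_BIL) : S_CT := by
  classical
  intro f L _ _ θ hset
  obtain ⟨B, hB, htr⟩ := htr f L θ hset
  have hn : 1 ≤ f.natDegree := by
    have h1 := hset.deg
    have h2 : 0 < Module.finrank ℚ L := Module.finrank_pos
    omega
  refine ⟨B, hB, ?_⟩
  intro l hl hlB β γ ε T hβ hε hT hv
  have hε0 : aeval θ ε ≠ 0 := (zero_up hset ε).mp hε.1
  -- the primes above `l`
  set A : Finset (HeightOneSpectrum (𝓞 L)) := (ab_finite (L := L) hl.out.ne_zero).toFinset with hA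
  have hAm : ∀ v, v ∈ A ↔ Abv v l := fun v => by rw [hA, Set.Finite.mem_toFinset]; rfl
  by_cases hγ0 : aeval θ γ = 0
  · -- there is a prime above `l`
    exfalso
    have hne : ∃ v : HeightOneSpectrum (𝓞 L), Abv v l := by
      have h1 : Ideal.span {(l : 𝓞 L)} ≠ ⊤ := by
        intro h
        rw [Ideal.span_singleton_eq_top] at h
        have h2 : IsUnit (Algebra.norm ℤ (l : 𝓞 L)) := h.map _
        have h3 : (l : 𝓞 L) = algebraMap ℤ (𝓞 L) (l : ℤ) := by simp
        rw [h3, Algebra.norm_algebraMap] at h2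
        have h4 : Module.finrank ℤ (𝓞 L) ≠ 0 := by
          rw [RingOfIntegers.rank]; exact Module.finrank_pos.ne'
        have h5 := (isUnit_pow_iff h4).mp h2
        rw [Int.isUnit_iff_natAbs_eq] at h5
        have := hl.out.one_lt
        simp at h5
        omega
      obtain ⟨M, hM, hle⟩ := Ideal.exists_le_maximal _ h1
      have hl0 : (l : 𝓞 L) ≠ 0 := by exact_mod_cast hl.out.ne_zero
      have hmem : (l : 𝓞 L) ∈ M := hle (Ideal.mem_span_singleton_self _)
      refine ⟨⟨M, hM.isPrime, ?_⟩, hmem⟩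
      rintro rfl
      exact hl0 (by simpa using hmem)
    obtain ⟨v, hvl⟩ := hne
    have := (hv v hvl).1
    rw [hγ0, map_zero] at this
    exact zero_ne_one this
  set T1 := A.filter (fun v => Par v (aeval θ β) 1) with hT1
  set T2 := A.filter (fun v => Par v (aeval θ (β * ε)) 1) with hT2
  have hβε : aeval θ (β * ε) ≠ 0 := by rw [map_mul]; exact mul_ne_zero hβ hε0
  have hprod : ∀ S : Finset (HeightOneSpectrum (𝓞 L)), (∀ v ∈ S, Abv v l) →
      ∏ v ∈ S, Ideal.absNorm v.asIdeal = l ^ ∑ v ∈ S, ph l v.asIdeal := by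
    intro S hS
    rw [← Finset.prod_pow_eq_pow_sum]
    exact Finset.prod_congr rfl (fun v hv => absN_pow (hS v hv))
  have hT1A : ∀ v ∈ T1, Abv v l := fun v hv => (hAm v).mp (mem_filter.mp hv).1
  have hT2A : ∀ v ∈ T2, Abv v l := fun v hv => (hAm v).mp (mem_filter.mp hv).1
  have s1 := step2 hhwp hgram hbc hbil hnrm hset hn l (htr l hlB) β γ hβ (fun v h => (hv v h).1) hγ0
    T1 hT1A (by
      intro v hvl
      constructor
      · intro h; exact (mem_filter.mp h).2
      · intro h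
        rcases par_total v hβ with h1 | h1
        · exact h1
        · exact absurd (mem_filter.mpr ⟨(hAm v).mpr hvl, h1⟩) h) _ (hprod T1 hT1A)
  have s2 := step2 hhwp hgram hbc hbil hnrm hset hn l (htr l hlB) (β * ε) γ hβε
    (fun v h => (hv v h).1) hγ0 T2 hT2A (by
      intro v hvl
      constructor
      · intro h; exact (mem_filter.mp h).2
      · intro h
        rcases par_total v hβε with h1 | h1
        · exact h1
        · exact absurd (mem_filter.mpr ⟨(hAm v).mpr hvl, h1⟩) h) _ (hprod T2 hT2A)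
  -- the relation between the three sets
  have hrel : ∀ v ∈ A, (v ∈ T ↔ ¬ (Par v (aeval θ β) 1 ↔ Par v (aeval θ (β * ε)) 1)) := by
    intro v hvA
    have hvl := (hAm v).mp hvA
    obtain ⟨-, h1, h2⟩ := hv v hvl
    rw [map_mul]
    by_cases hvT : v ∈ T
    · simp only [hvT, true_iff]
      intro h
      rcases par_total v hβ with h3 | h3
      · exact par_excl h3 (h.mpr (by simpa using par_mul h3 (h1 hvT)))
      · exact par_excl (par_cong (par_mul h3 (h1 hvT)) (by norm_num)) (h.mp h3)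
    · simp only [hvT, false_iff, not_not]
      rcases par_total v hβ with h3 | h3
      · constructor
        · intro h4; exact absurd h4 (fun h4 => par_excl h3 h4)
        · intro h4; exact (par_excl (by simpa using par_mul h3 (h2 hvT)) h4).elim
      · constructor
        · intro _; simpa using par_mul h3 (h2 hvT)
        · intro _; exact h3
  have hTA : T = A.filter (fun v => v ∈ T) := by
    ext v
    simp only [mem_filter]
    exact ⟨fun h => ⟨(hAm v).mpr (hT v h), h⟩, fun h => h.2⟩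
  -- evenness
  have hevT : Even (∑ v ∈ T, ph l v.asIdeal) := by
    obtain ⟨κ, α, hκ, hα, hαv⟩ := hnrm L l hl.out (aeval θ ε) hε0 (fun v => if v ∈ T then 1 else 0) (by
      intro v hvl
      obtain ⟨-, h1, h2⟩ := hv v hvl
      by_cases h : v ∈ T
      · simpa [h] using h1 h
      · simpa [h] using h2 h)
    have hα0 : α ≠ 0 := by
      rintro rfl
      have h1 : aeval θ ε * κ ^ 2 ≠ 0 := mul_ne_zero hε0 (pow_ne_zero _ hκ)
      rw [← hα] at h1
      exact h1 (by simp)
    have hNsq : IsSquare (Algebra.norm ℤ α) := by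
      rw [← Rat.isSquare_intCast_iff, Algebra.coe_norm_int]
      have h1 : Algebra.norm ℚ (α : L) = Algebra.norm ℚ (aeval θ ε) * Algebra.norm ℚ κ ^ 2 := by
        rw [hα, map_mul, map_pow]
      rw [h1]
      obtain ⟨r, hr⟩ := hε.2
      refine ⟨r * Algebra.norm ℚ κ, ?_⟩
      rw [norm_up hset, hr]; ring
    have hform := ph_formula (l := l) (Ideal.span {α}) (span_ne hα0)
    have hsum : ∑ v ∈ (ab_finite (L := L) hl.out.ne_zero).toFinset,
        mu v (Ideal.span {α}) * ph l v.asIdeal = ∑ v ∈ T, ph l v.asIdeal := by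
      rw [hTA, Finset.sum_filter]
      apply Finset.sum_congr rfl
      intro v hvA
      have h1 := hαv v ((hAm v).mp hvA)
      rw [val_int v hα0, WithZero.exp_inj] at h1
      by_cases h : v ∈ T
      · rw [if_pos h] at h1
        rw [if_pos h]
        have : mu v (Ideal.span {α}) = 1 := by push_cast at h1; omega
        rw [this, one_mul]
      · rw [if_neg h] at h1
        rw [if_neg h]
        have : mu v (Ideal.span {α}) = 0 := by push_cast at h1; omega
        rw [this, zero_mul]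
    rw [← hsum, ← hform]
    unfold ph
    rw [Ideal.absNorm_span_singleton]
    obtain ⟨r, hr⟩ := hNsq
    have hr0 : r.natAbs ≠ 0 := by
      intro h
      rw [Int.natAbs_eq_zero] at h
      rw [h, mul_zero, Algebra.norm_eq_zero_iff] at hr
      exact hα0 hr
    rw [hr, Int.natAbs_mul, padicValNat.mul hr0 hr0]
    exact ⟨_, rfl⟩
  have hev12 : Even (∑ v ∈ T1, ph l v.asIdeal + ∑ v ∈ T2, ph l v.asIdeal) := by
    have h1 : (∑ v ∈ T1, ph l v.asIdeal + ∑ v ∈ T2, ph l v.asIdeal) =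
        ∑ v ∈ T, ph l v.asIdeal + 2 * ∑ v ∈ A.filter (fun v => Par v (aeval θ β) 1 ∧
          Par v (aeval θ (β * ε)) 1), ph l v.asIdeal := by
      rw [hTA, hT1, hT2, Finset.sum_filter, Finset.sum_filter, Finset.sum_filter, Finset.sum_filter,
        Finset.mul_sum, ← Finset.sum_add_distrib, ← Finset.sum_add_distrib]
      apply Finset.sum_congr rfl
      intro v hvA
      have hr := hrel v hvA
      by_cases h1 : Par v (aeval θ β) 1 <;> by_cases h2 : Par v (aeval θ (β * ε)) 1 <;>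
        simp only [h1, h2, iff_true, iff_false, not_true_eq_false, not_false_eq_true, true_iff, iff_self] at hr <;>
        simp only [h1, h2, hr, if_true, if_false, and_true, and_false, and_self, mul_zero,
          zero_add, add_zero, two_mul]
    rw [h1]
    exact hevT.add (even_two_mul _)
  -- the products
  have hsg : (∏ v ∈ T1, sg v (aeval θ γ)) * (∏ v ∈ T2, sg v (aeval θ γ)) =
      ∏ v ∈ T, sg v (aeval θ γ) := by
    rw [hTA, hT1, hT2, Finset.prod_filter, Finset.prod_filter, Finset.prod_filter,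
      ← Finset.prod_mul_distrib]
    apply Finset.prod_congr rfl
    intro v hvA
    have hr := hrel v hvA
    by_cases h1 : Par v (aeval θ β) 1 <;> by_cases h2 : Par v (aeval θ (β * ε)) 1 <;>
      simp only [h1, h2, iff_true, iff_false, not_true_eq_false, not_false_eq_true, true_iff, iff_self] at hr <;>
      simp only [h1, h2, hr, if_true, if_false, mul_one, one_mul, Int.units_mul_self]
  have hsqF : IsSquare (Algebra.norm ℚ_[l] (AdjoinRoot.mk (up f ℚ_[l]) (ε.map (Rat.castHom ℚ_[l])))) := by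
    rw [(hbc f hset.irr ℚ_[l] ε).1]
    obtain ⟨r, hr⟩ := hε.2
    exact ⟨(r : ℚ_[l]), by rw [hr]; push_cast; ring⟩
  unfold cor
  rw [hs_sq _ _ hsqF, hs_sq _ _ hsqF]
  have e3 : (β * γ).map (Rat.castHom ℚ_[l]) * ε.map (Rat.castHom ℚ_[l]) =
      ((β * ε) * γ).map (Rat.castHom ℚ_[l]) := by
    rw [← Polynomial.map_mul]; congr 1; ring
  have e4 : β.map (Rat.castHom ℚ_[l]) * ε.map (Rat.castHom ℚ_[l]) =
      (β * ε).map (Rat.castHom ℚ_[l]) := by
    rw [← Polynomial.map_mul]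
  rw [e3, e4]
  set a1 := hw (gram (up f ℚ_[l]) (((β * ε) * γ).map (Rat.castHom ℚ_[l])))
  set a2 := hw (gram (up f ℚ_[l]) ((β * ε).map (Rat.castHom ℚ_[l])))
  set a3 := hw (gram (up f ℚ_[l]) ((β * γ).map (Rat.castHom ℚ_[l])))
  set a4 := hw (gram (up f ℚ_[l]) (β.map (Rat.castHom ℚ_[l])))
  set a5 := hw (gram (up f ℚ_[l]) (ε.map (Rat.castHom ℚ_[l])))
  set a6 := hw (gram (up f ℚ_[l]) 1)
  have e5 : a1 * a3 * a5 * a6 * 1 * (a2 * a4 * a5 * a6 * 1) =
      (a3 * a4) * (a1 * a2) * (a5 * a5) * (a6 * a6) := by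
    simp only [mul_one]
    ac_rfl
  rw [e5, Int.units_mul_self, Int.units_mul_self, mul_one, mul_one, s1, s2]
  have e6 : ∀ (h x y : ℤˣ) (i j : ℕ), h ^ i * x * (h ^ j * y) = h ^ (i + j) * (x * y) := by
    intro h x y i j
    rw [pow_add]; ac_rfl
  rw [e6, hsg]
  have e7 : ∀ h : ℤˣ, h ^ (∑ v ∈ T1, ph l v.asIdeal + ∑ v ∈ T2, ph l v.asIdeal) = 1 := by
    intro h
    rcases Int.units_eq_one_or h with h | h
    · rw [h, one_pow]
    · rw [h]; exact hev12.neg_one_pow
  rw [e7, one_mul]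

end Pool.Agent.Q51.EB
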