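import Pool.Agent.Q51.EB.Stm

/-! # Project EB: the field `L` and the algebra `ℚ[X]/(f)` -/

set_option autoImplicit false

namespace Pool.Agent.Q51.EB

open Polynomial NumberField IsDedekindDomain Finset Pool.Agent.Q51.EL

section

variable {L : Type} [Field L] [NumberField L]

lemma aeval_up {f : ℤ[X]} {θ : L} (h : Setup f L θ) : aeval θ (up f ℚ) = 0 := by
  have h1 := h.root
  rw [aeval_def, eval₂_map]
  rw [aeval_def] at h1
  rw [← h1]
  congr 1
  exact RingHom.ext_int _ _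

/-- the isomorphism of `ℚ[X]/(f)` and `L` -/
noncomputable def phi {f : ℤ[X]} {θ : L} (h : Setup f L θ) : AdjoinRoot (up f ℚ) →ₐ[ℚ] L :=
  AdjoinRoot.liftAlgHom (up f ℚ) (Algebra.ofId ℚ L) θ (by
    have h1 := aeval_up h
    rw [aeval_def] at h1
    have h2 : eval₂ ((Algebra.ofId ℚ L : ℚ →ₐ[ℚ] L) : ℚ →+* L) θ (up f ℚ) = 0 := h1
    exact h2)

lemma phi_mk {f : ℤ[X]} {θ : L} (h : Setup f L θ) (d : ℚ[X]) :
    phi h (AdjoinRoot.mk (up f ℚ) d) = aeval θ d := by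
  unfold phi
  erw [AdjoinRoot.liftAlgHom_mk]

lemma phi_bij {f : ℤ[X]} {θ : L} (h : Setup f L θ) : Function.Bijective (phi h) := by
  have : Fact (Irreducible (up f ℚ)) := ⟨h.irr⟩
  have hinj : Function.Injective (phi h) := (phi h).toRingHom.injective
  have hfd : FiniteDimensional ℚ (AdjoinRoot (up f ℚ)) :=
    PowerBasis.finite (AdjoinRoot.powerBasis h.irr.ne_zero)
  have hnd : (up f ℚ).natDegree = f.natDegree :=
    natDegree_map_eq_of_injective (Int.castRingHom ℚ).injective_int f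
  have hrank : Module.finrank ℚ (AdjoinRoot (up f ℚ)) = Module.finrank ℚ L := by
    rw [(AdjoinRoot.powerBasis h.irr.ne_zero).finrank, AdjoinRoot.powerBasis_dim, hnd, h.deg]
  exact ⟨hinj, (LinearMap.injective_iff_surjective_of_finrank_eq_finrank
    (f := (phi h).toLinearMap) hrank).mp hinj⟩

lemma norm_up {f : ℤ[X]} {θ : L} (h : Setup f L θ) (d : ℚ[X]) :
    Algebra.norm ℚ (aeval θ d) = Algebra.norm ℚ (AdjoinRoot.mk (up f ℚ) d) := by
  have h1 := Algebra.norm_eq_of_algEquiv (AlgEquiv.ofBijective (phi h) (phi_bij h))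
    (AdjoinRoot.mk (up f ℚ) d)
  rw [← h1]
  exact congrArg _ (phi_mk h d).symm

lemma surj_up {f : ℤ[X]} {θ : L} (h : Setup f L θ) (x : L) : ∃ d : ℚ[X], aeval θ d = x := by
  obtain ⟨z, hz⟩ := (phi_bij h).2 x
  obtain ⟨d, rfl⟩ := AdjoinRoot.mk_surjective z
  exact ⟨d, by rw [← hz, phi_mk]⟩

lemma dvd_up {f : ℤ[X]} {θ : L} (h : Setup f L θ) (d : ℚ[X]) : up f ℚ ∣ d ↔ aeval θ d = 0 := by
  rw [← AdjoinRoot.mk_eq_zero, ← phi_mk h]
  exact (map_eq_zero_iff (phi h) (phi_bij h).1).symm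

lemma zero_up {f : ℤ[X]} {θ : L} (h : Setup f L θ) (d : ℚ[X]) :
    IsCoprime (up f ℚ) d ↔ aeval θ d ≠ 0 := by
  rw [Ne, ← dvd_up h]
  exact h.irr.coprime_iff_not_dvd

end

end Pool.Agent.Q51.EB
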