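import Pool.Agent.Q51.EB.Stm

/-! # Project EB, job CHR -/

set_option autoImplicit false

namespace Pool.Agent.Q51.EB

open Polynomial NumberField IsDedekindDomain Finset Pool.Agent.Q51.EL

section

variable {L : Type} [Field L] [NumberField L]

noncomputable instance kfield (v : HeightOneSpectrum (𝓞 L)) : Field (𝓞 L ⧸ v.asIdeal) :=
  Ideal.Quotient.field _

lemma kfin (v : HeightOneSpectrum (𝓞 L)) : Finite (𝓞 L ⧸ v.asIdeal) :=
  Ideal.finiteQuotientOfFreeOfNeBot _ v.ne_bot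

lemma sg_iff (v : HeightOneSpectrum (𝓞 L)) (γ : 𝓞 L) :
    sg v (γ : L) = 1 ↔ IsSquare (Ideal.Quotient.mk v.asIdeal γ) := by
  have h0 : (∃ g : 𝓞 L, v.valuation L ((γ : L) - (g : L) ^ 2) < 1) ↔
      IsSquare (Ideal.Quotient.mk v.asIdeal γ) := by
    constructor
    · rintro ⟨g, hg⟩
      have h1 : ((γ : L) - (g : L) ^ 2) = ((γ - g ^ 2 : 𝓞 L) : L) := by push_cast; rfl
      rw [h1, v.valuation_lt_one_iff_mem, ← Ideal.Quotient.eq_zero_iff_mem, map_sub, map_pow,
        sub_eq_zero] at hg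
      exact ⟨Ideal.Quotient.mk _ g, by rw [hg, sq]⟩
    · rintro ⟨r, hr⟩
      obtain ⟨g, rfl⟩ := Ideal.Quotient.mk_surjective r
      refine ⟨g, ?_⟩
      have h1 : ((γ : L) - (g : L) ^ 2) = ((γ - g ^ 2 : 𝓞 L) : L) := by push_cast; rfl
      rw [h1, v.valuation_lt_one_iff_mem, ← Ideal.Quotient.eq_zero_iff_mem, map_sub, map_pow,
        sub_eq_zero, hr, sq]
  rw [← h0]
  unfold sg
  split_ifs with h
  · simp [h]
  · simp only [h, iff_false]
    decide

lemma sg_neg {v : HeightOneSpectrum (𝓞 L)} {x : L} (h : sg v x ≠ 1) : sg v x = -1 := by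
  unfold sg at h ⊢
  split_ifs with h1
  · rw [if_pos h1] at h; exact absurd rfl h
  · rfl

/-- the residue field above the odd prime `l` -/
lemma kdata (v : HeightOneSpectrum (𝓞 L)) (l : ℕ) (hl : l.Prime) (hl2 : l ≠ 2) (hv : Abv v l) :
    ringChar (𝓞 L ⧸ v.asIdeal) ≠ 2 ∧ ∃ n : ℕ, Ideal.absNorm v.asIdeal = l ^ n ∧
      Nat.card (𝓞 L ⧸ v.asIdeal) = l ^ n ∧ Nat.card (𝓞 L ⧸ v.asIdeal) / 2 =
        (l / 2) * ∑ i ∈ range n, l ^ i ∧ ((l : ℕ) : 𝓞 L ⧸ v.asIdeal) = 0 := by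
  have : Finite (𝓞 L ⧸ v.asIdeal) := kfin v
  have : Fintype (𝓞 L ⧸ v.asIdeal) := Fintype.ofFinite _
  have hl0 : ((l : ℕ) : 𝓞 L ⧸ v.asIdeal) = 0 := by
    have h1 : Ideal.Quotient.mk v.asIdeal (l : 𝓞 L) = 0 := Ideal.Quotient.eq_zero_iff_mem.mpr hv
    rwa [map_natCast] at h1
  have hodd : l % 2 = 1 := by
    rcases hl.eq_two_or_odd with h | h
    · exact absurd h hl2
    · exact h
  have h2 : (2 : 𝓞 L ⧸ v.asIdeal) ≠ 0 := by
    intro h
    have h3 : ((l : ℕ) : 𝓞 L ⧸ v.asIdeal) = 1 := by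
      conv_lhs => rw [← Nat.div_add_mod l 2, hodd]
      push_cast
      rw [h]; ring
    rw [hl0] at h3
    exact zero_ne_one h3
  obtain ⟨p, hp⟩ := CharP.exists (𝓞 L ⧸ v.asIdeal)
  obtain ⟨n, hpp, hn⟩ := FiniteField.card (𝓞 L ⧸ v.asIdeal) p
  have hpl : p = l := (Nat.prime_dvd_prime_iff_eq hpp hl).mp
    ((CharP.cast_eq_zero_iff (𝓞 L ⧸ v.asIdeal) p l).mp hl0)
  subst hpl
  refine ⟨?_, (n : ℕ), ?_, ?_, ?_, hl0⟩
  · intro h
    apply h2
    have := ringChar.spec (𝓞 L ⧸ v.asIdeal) 2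
    exact_mod_cast this.mpr (by rw [h])
  · rw [Ideal.absNorm_apply, Submodule.cardQuot_apply, Nat.card_eq_fintype_card, hn]
  · rw [Nat.card_eq_fintype_card, hn]
  · rw [Nat.card_eq_fintype_card, hn]
    have h3 := Nat.geomSum_eq (m := p) hl.two_le (n : ℕ)
    have h4 : (p - 1) * ∑ i ∈ range (n : ℕ), p ^ i = p ^ (n : ℕ) - 1 := by
      rw [h3]
      exact Nat.mul_div_cancel' (by simpa using Nat.sub_dvd_pow_sub_pow p 1 n)
    have h5 : p - 1 = 2 * (p / 2) := by omega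
    have h6 : 1 ≤ p ^ (n : ℕ) := Nat.one_le_pow _ _ hl.pos
    rw [h5, mul_assoc] at h4
    omega

lemma sum_parity (l n : ℕ) (hl : l % 2 = 1) : (∑ i ∈ range n, l ^ i) % 2 = n % 2 := by
  induction n with
  | zero => simp
  | succ n ih =>
    rw [Finset.sum_range_succ, Nat.add_mod, ih, Nat.pow_mod, hl]
    simp

lemma isSquare_pow_iff {l n : ℕ} (hl : l.Prime) : IsSquare (l ^ n) ↔ Even n := by
  constructor
  · rintro ⟨r, hr⟩
    have hr0 : r ≠ 0 := by
      rintro rfl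
      simp at hr
      exact hl.ne_zero hr.1
    have h1 := congrArg (fun x => x.factorization l) hr
    simp only [Nat.factorization_pow, Nat.factorization_mul hr0 hr0] at h1
    simp only [Finsupp.smul_apply, Finsupp.add_apply, hl.factorization_self, smul_eq_mul,
      mul_one] at h1
    exact ⟨_, h1⟩
  · rintro ⟨k, rfl⟩
    exact ⟨l ^ k, by rw [pow_add]⟩

/-- rational integers modulo `v` -/
lemma int_sq (v : HeightOneSpectrum (𝓞 L)) (l : ℕ) (hl : l.Prime) (hl2 : l ≠ 2) (hv : Abv v l)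
    (c : ℤ) (hc : ¬ (l : ℤ) ∣ c) :
    (IsSquare (Ideal.absNorm v.asIdeal) → IsSquare ((c : ℤ) : 𝓞 L ⧸ v.asIdeal)) ∧
    (¬ IsSquare (Ideal.absNorm v.asIdeal) → ¬ IsSquare (c : ZMod l) →
      ((c : ℤ) : 𝓞 L ⧸ v.asIdeal) ^ (Nat.card (𝓞 L ⧸ v.asIdeal) / 2) = -1) ∧
    ((c : ℤ) : 𝓞 L ⧸ v.asIdeal) ≠ 0 := by
  have : Finite (𝓞 L ⧸ v.asIdeal) := kfin v
  have : Fintype (𝓞 L ⧸ v.asIdeal) := Fintype.ofFinite _
  have : Fact l.Prime := ⟨hl⟩
  obtain ⟨hch, n, hn, hcard, hhalf, hl0⟩ := kdata v l hl hl2 hv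
  have hodd : l % 2 = 1 := by
    rcases hl.eq_two_or_odd with h | h
    · exact absurd h hl2
    · exact h
  have hcz : ((c : ℤ) : ZMod l) ≠ 0 := by
    intro h
    exact hc ((ZMod.intCast_zmod_eq_zero_iff_dvd c l).mp h)
  have hck : ((c : ℤ) : 𝓞 L ⧸ v.asIdeal) ≠ 0 := by
    intro h
    have hg : Int.gcd (l : ℤ) c = 1 := by
      have h3 := (Nat.Prime.coprime_iff_not_dvd hl).mpr (fun h => hc (Int.natCast_dvd.mpr h))
      simpa [Int.gcd] using h3
    obtain ⟨a, b, hab⟩ := Int.isCoprime_iff_gcd_eq_one.mpr hg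
    have h1 : ((a * (l : ℤ) + b * c : ℤ) : 𝓞 L ⧸ v.asIdeal) = 1 := by rw [hab]; simp
    push_cast at h1
    rw [h, hl0] at h1
    simp at h1
  have hpow : ∀ e : ℤ, (c : ZMod l) ^ (l / 2) = (e : ZMod l) →
      ((c : ℤ) : 𝓞 L ⧸ v.asIdeal) ^ (l / 2) = ((e : ℤ) : 𝓞 L ⧸ v.asIdeal) := by
    intro e he
    have h1 : ((c ^ (l / 2) - e : ℤ) : ZMod l) = 0 := by
      push_cast; rw [he, sub_self]
    obtain ⟨k, hk⟩ := (ZMod.intCast_zmod_eq_zero_iff_dvd _ l).mp h1
    have h2 : ((c ^ (l / 2) - e : ℤ) : 𝓞 L ⧸ v.asIdeal) = 0 := by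
      rw [hk]; push_cast; rw [hl0, zero_mul]
    push_cast at h2
    exact sub_eq_zero.mp h2
  have hpar := sum_parity l n hodd
  refine ⟨?_, ?_, hck⟩
  · intro hsq
    rw [hn, isSquare_pow_iff hl] at hsq
    rw [FiniteField.isSquare_iff hch hck, ← Nat.card_eq_fintype_card, hhalf, pow_mul]
    have he : Even (∑ i ∈ range n, l ^ i) := by
      rw [Nat.even_iff, hpar]; exact Nat.even_iff.mp hsq
    rcases ZMod.pow_div_two_eq_neg_one_or_one l hcz with h | h
    · rw [hpow 1 (by simpa using h)]; simp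
    · rw [hpow (-1) (by simpa using h)]
      push_cast
      exact he.neg_one_pow
  · intro hsq hns
    rw [hn, isSquare_pow_iff hl] at hsq
    rw [hhalf, pow_mul]
    have ho : Odd (∑ i ∈ range n, l ^ i) := by
      rw [Nat.odd_iff, hpar]
      exact Nat.odd_iff.mp (Nat.not_even_iff_odd.mp hsq)
    rcases ZMod.pow_div_two_eq_neg_one_or_one l hcz with h | h
    · exact absurd ((ZMod.euler_criterion l hcz).mpr h) hns
    · rw [hpow (-1) (by simpa using h)]
      push_cast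
      exact ho.neg_one_pow

end

theorem chr_ : S_CHR := by
  classical
  intro L _ _ l hl hl2 v0 γ hγ hT
  have : Fact l.Prime := ⟨hl⟩
  -- from squares in the residue field to the conclusion
  have hfin : ∀ (v : HeightOneSpectrum (𝓞 L)) (c : ℤ),
      IsSquare ((c : 𝓞 L ⧸ v.asIdeal) * Ideal.Quotient.mk v.asIdeal γ) →
      ∃ g : 𝓞 L, (c : 𝓞 L) * γ - g ^ 2 ∈ v.asIdeal := by
    rintro v c ⟨r, hr⟩
    obtain ⟨g, rfl⟩ := Ideal.Quotient.mk_surjective r
    refine ⟨g, ?_⟩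
    rw [← Ideal.Quotient.eq_zero_iff_mem, map_sub, map_mul, map_intCast, map_pow, hr, sq, sub_self]
  have hev : ∀ v : HeightOneSpectrum (𝓞 L), Abv v l → v ≠ v0 →
      IsSquare (Ideal.absNorm v.asIdeal) → IsSquare (Ideal.Quotient.mk v.asIdeal γ) := by
    intro v hv hne hsq
    rw [← sg_iff]
    have := hT {v} (by simpa using hv) (by simpa using hne.symm) (by simpa using hsq)
    simpa using this
  by_cases hall : ∀ w : HeightOneSpectrum (𝓞 L), Abv w l → w ≠ v0 →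
      ¬ IsSquare (Ideal.absNorm w.asIdeal) → sg w (γ : L) = 1
  · refine ⟨1, ?_, fun v hv hne => hfin v 1 ?_⟩
    · intro h
      have := Int.le_of_dvd one_pos h
      have := hl.two_le
      omega
    · rw [Int.cast_one, one_mul]
      by_cases hsq : IsSquare (Ideal.absNorm v.asIdeal)
      · exact hev v hv hne hsq
      · rw [← sg_iff]; exact hall v hv hne hsq
  · push Not at hall
    obtain ⟨w, hw, hwne, hwsq, hwγ⟩ := hall
    have hwneg := sg_neg hwγ
    obtain ⟨a, ha⟩ := FiniteField.exists_nonsquare (F := ZMod l) (by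
      rw [ZMod.ringChar_zmod_n]; exact hl2)
    obtain ⟨c, rfl⟩ := ZMod.intCast_surjective a
    have hc : ¬ (l : ℤ) ∣ c := by
      intro h
      apply ha
      rw [(ZMod.intCast_zmod_eq_zero_iff_dvd c l).mpr h]
      exact ⟨0, by simp⟩
    refine ⟨c, hc, fun v hv hne => hfin v c ?_⟩
    obtain ⟨i1, i2, i3⟩ := int_sq v l hl hl2 hv c hc
    have : Finite (𝓞 L ⧸ v.asIdeal) := kfin v
    have : Fintype (𝓞 L ⧸ v.asIdeal) := Fintype.ofFinite _
    by_cases hsq : IsSquare (Ideal.absNorm v.asIdeal)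
    · exact (i1 hsq).mul (hev v hv hne hsq)
    · have hγ0 : Ideal.Quotient.mk v.asIdeal γ ≠ 0 := by
        rw [Ne, Ideal.Quotient.eq_zero_iff_mem]; exact hγ v hv hne
      obtain ⟨hch, n, hn, -⟩ := kdata v l hl hl2 hv
      obtain ⟨-, m, hm, -⟩ := kdata w l hl hl2 hw
      have hvneg : sg v (γ : L) = -1 := by
        by_cases hvw : v = w
        · rw [hvw]; exact hwneg
        · have h1 := hT {v, w} (by
            intro u hu
            rcases Finset.mem_insert.mp hu with h | h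
            · rw [h]; exact hv
            · rw [Finset.mem_singleton.mp h]; exact hw) (by
            simp only [Finset.mem_insert, Finset.mem_singleton, not_or]
            exact ⟨hne.symm, hwne.symm⟩) (by
            rw [Finset.prod_pair hvw, hn, hm, ← pow_add, isSquare_pow_iff hl]
            rw [hn, isSquare_pow_iff hl, Nat.not_even_iff_odd] at hsq
            rw [hm, isSquare_pow_iff hl, Nat.not_even_iff_odd] at hwsq
            exact hsq.add_odd hwsq)
          rw [Finset.prod_pair hvw, hwneg] at h1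
          have h2 : sg v (γ : L) = sg v (γ : L) * -1 * -1 := by simp
          rw [h2, h1]; simp
      have hns : ¬ IsSquare (Ideal.Quotient.mk v.asIdeal γ) := by
        rw [← sg_iff, hvneg]; decide
      rw [FiniteField.isSquare_iff hch (mul_ne_zero i3 hγ0), ← Nat.card_eq_fintype_card, mul_pow,
        i2 hsq ha]
      rcases FiniteField.pow_dichotomy hch hγ0 with h | h
      · exact absurd ((FiniteField.isSquare_iff hch hγ0).mpr h) hns
      · rw [Nat.card_eq_fintype_card, h]; ring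

end Pool.Agent.Q51.EB
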