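import Pool.Agent.Q51.EB.Bas
import Pool.Agent.Q239.EL.CL

/-! # Project EB, job EPS -/

set_option autoImplicit false

namespace Pool.Agent.Q51.EB

open Polynomial NumberField IsDedekindDomain Finset Pool.Agent.Q51.EL Pool.Agent.Q239.EL

section

variable {L : Type} [Field L] [NumberField L]

/-- every set of primes has a generator up to one of finitely many ideals -/
lemma gens : ∃ (B : ℕ) (c : ClassGroup (𝓞 L) → Ideal (𝓞 L)), B ≠ 0 ∧
    ∀ T : Finset (HeightOneSpectrum (𝓞 L)), ∃ (g : ClassGroup (𝓞 L)) (α : 𝓞 L), α ≠ 0 ∧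
      Ideal.span {α} = c g * ∏ v ∈ T, v.asIdeal ∧ Ideal.absNorm (c g) ≠ 0 ∧
      ∀ v : HeightOneSpectrum (𝓞 L), (B : 𝓞 L) ∉ v.asIdeal →
        (v ∈ T → v.valuation L (α : L) = WithZero.exp (-1 : ℤ)) ∧
        (v ∉ T → v.valuation L (α : L) = 1) := by
  classical
  have hsur : ∀ g : ClassGroup (𝓞 L), ∃ I : nonZeroDivisors (Ideal (𝓞 L)), ClassGroup.mk0 I = g :=
    ClassGroup.mk0_surjective
  choose c hc using hsur
  have hc0 : ∀ g, (c g : Ideal (𝓞 L)) ≠ 0 := fun g => nonZeroDivisors.ne_zero (c g).2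
  have hcn : ∀ g, Ideal.absNorm (c g : Ideal (𝓞 L)) ≠ 0 := fun g => by
    rw [Ne, Ideal.absNorm_eq_zero_iff]
    exact hc0 g
  set B : ℕ := ∏ g : ClassGroup (𝓞 L), Ideal.absNorm (c g : Ideal (𝓞 L)) with hB
  have hB0 : B ≠ 0 := Finset.prod_ne_zero_iff.mpr fun g _ => hcn g
  have hcv : ∀ v : HeightOneSpectrum (𝓞 L), (B : 𝓞 L) ∉ v.asIdeal → ∀ g, mu v (c g) = 0 := by
    intro v hv g
    apply mu_eq_zero
    intro hd
    apply hv
    have h1 : (c g : Ideal (𝓞 L)) ≤ v.asIdeal := Ideal.dvd_iff_le.mp hd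
    have h2 := h1 (Ideal.absNorm_mem (c g : Ideal (𝓞 L)))
    obtain ⟨m, hm⟩ : Ideal.absNorm (c g : Ideal (𝓞 L)) ∣ B :=
      Finset.dvd_prod_of_mem _ (Finset.mem_univ g)
    rw [hm, Nat.cast_mul]
    exact Ideal.mul_mem_right _ _ h2
  refine ⟨B, fun g => c g, hB0, fun T => ?_⟩
  set J : Ideal (𝓞 L) := ∏ v ∈ T, v.asIdeal with hJ
  have hJ0 : J ≠ 0 := Finset.prod_ne_zero_iff.mpr fun w _ => w.ne_bot
  set g := ClassGroup.mk0 (⟨J, mem_nonZeroDivisors_of_ne_zero hJ0⟩ :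
    nonZeroDivisors (Ideal (𝓞 L))) with hg
  have hone : ClassGroup.mk0 (c g⁻¹ * ⟨J, mem_nonZeroDivisors_of_ne_zero hJ0⟩) = 1 := by
    rw [map_mul, hc, ← hg, inv_mul_cancel]
  rw [ClassGroup.mk0_eq_one_iff] at hone
  obtain ⟨α0, hα0'⟩ := (Submodule.isPrincipal_iff _).1 hone
  have hα0 : (c g⁻¹ : Ideal (𝓞 L)) * J = Ideal.span {α0} := hα0'
  have hne : (c g⁻¹ : Ideal (𝓞 L)) * J ≠ 0 := mul_ne_zero (hc0 _) hJ0
  have hα0n : α0 ≠ 0 := by
    rintro rfl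
    rw [hα0, Ideal.zero_eq_bot, Ne, Ideal.span_singleton_eq_bot] at hne
    exact hne rfl
  refine ⟨g⁻¹, α0, hα0n, hα0.symm, hcn _, ?_⟩
  intro v hv
  have hm : mu v (Ideal.span {α0}) = if v ∈ T then 1 else 0 := by
    rw [← hα0, mu_mul v (hc0 _) hJ0, hcv v hv, hJ, mu_prod, zero_add]
  rw [val_int v hα0n, hm]
  constructor
  · intro hvS
    rw [if_pos hvS]
    norm_num
  · intro hvS
    rw [if_neg hvS]
    simp

end

theorem eps : S_EPS := by
  classical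
  intro f L _ _ θ hset
  obtain ⟨B0, c, hB0, hgen⟩ := gens (L := L)
  choose g α hα0 hαs hcn hαv using hgen
  -- the datum of a set
  let dat : Finset (HeightOneSpectrum (𝓞 L)) → ClassGroup (𝓞 L) × Bool :=
    fun T => (g T, decide (0 < Algebra.norm ℤ (α T)))
  have hsqN : ∀ T T' : Finset (HeightOneSpectrum (𝓞 L)), dat T = dat T' →
      IsSquare (∏ v ∈ T, Ideal.absNorm v.asIdeal) → IsSquare (∏ v ∈ T', Ideal.absNorm v.asIdeal) →
      IsSquare (Algebra.norm ℤ (α T) * Algebra.norm ℤ (α T')) := by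
    intro T T' h h1 h2
    have hg : g T = g T' := congrArg Prod.fst h
    have hs : decide (0 < Algebra.norm ℤ (α T)) = decide (0 < Algebra.norm ℤ (α T')) :=
      congrArg Prod.snd h
    have hs' : (0 < Algebra.norm ℤ (α T) ↔ 0 < Algebra.norm ℤ (α T')) := by simpa using hs
    have hn : ∀ T, (Algebra.norm ℤ (α T)).natAbs =
        Ideal.absNorm (c (g T)) * ∏ v ∈ T, Ideal.absNorm v.asIdeal := by
      intro T
      rw [← Ideal.absNorm_span_singleton, hαs, map_mul, map_prod]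
    have hne : ∀ T, Algebra.norm ℤ (α T) ≠ 0 := fun T => by
      rw [Algebra.norm_ne_zero_iff]; exact hα0 T
    have hpos : 0 < Algebra.norm ℤ (α T) * Algebra.norm ℤ (α T') := by
      rcases lt_trichotomy (Algebra.norm ℤ (α T)) 0 with h | h | h
      · apply mul_pos_of_neg_of_neg h
        rcases lt_trichotomy (Algebra.norm ℤ (α T')) 0 with h' | h' | h'
        · exact h'
        · exact absurd h' (hne T')
        · exact absurd (hs'.mpr h') (not_lt.mpr h.le)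
      · exact absurd h (hne T)
      · exact mul_pos h (hs'.mp h)
    have h3 : Algebra.norm ℤ (α T) * Algebra.norm ℤ (α T') =
        (((Algebra.norm ℤ (α T)).natAbs * (Algebra.norm ℤ (α T')).natAbs : ℕ) : ℤ) := by
      rw [← Int.natAbs_mul, Int.natCast_natAbs, abs_of_pos hpos]
    rw [h3, hn T, hn T', hg]
    obtain ⟨r, hr⟩ := h1
    obtain ⟨s, hs⟩ := h2
    refine ⟨((Ideal.absNorm (c (g T')) * r * s : ℕ) : ℤ), ?_⟩
    rw [hr, hs]
    push_cast
    ring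
  -- admissible pairs
  let Adm : ℕ → Finset (HeightOneSpectrum (𝓞 L)) → Prop := fun q T => q.Prime ∧
    (∀ v ∈ T, Abv v q) ∧ IsSquare (∏ v ∈ T, Ideal.absNorm v.asIdeal)
  have hch : ∀ δ : ClassGroup (𝓞 L) × Bool, ∃ (q : ℕ) (T : Finset (HeightOneSpectrum (𝓞 L))),
      q ≠ 0 ∧ ((∃ q' T', Adm q' T' ∧ dat T' = δ) → Adm q T ∧ dat T = δ) := by
    intro δ
    by_cases h : ∃ q' T', Adm q' T' ∧ dat T' = δ
    · obtain ⟨q, T, h1, h2⟩ := h
      exact ⟨q, T, h1.1.ne_zero, fun _ => ⟨h1, h2⟩⟩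
    · exact ⟨1, ∅, one_ne_zero, fun h' => absurd h' h⟩
  choose Q TT hQ0 hQT using hch
  refine ⟨B0 * ∏ δ, Q δ, mul_ne_zero hB0 (Finset.prod_ne_zero_iff.mpr fun δ _ => hQ0 δ), ?_⟩
  intro q hq hqB T hT hsq
  obtain ⟨hadm, hdat⟩ := hQT (dat T) ⟨q, T, ⟨hq, hT, hsq⟩, rfl⟩
  set T1 := TT (dat T) with hT1
  obtain ⟨ε, hε⟩ := surj_up hset ((α T * α T1 : 𝓞 L) : L)
  have hsqn := hsqN T T1 hdat.symm hsq hadm.2.2
  have hne : ((α T * α T1 : 𝓞 L) : L) ≠ 0 := coe_ne (mul_ne_zero (hα0 T) (hα0 T1))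
  refine ⟨ε, ⟨(zero_up hset ε).mpr (by rw [hε]; exact hne), ?_⟩, ?_⟩
  · rw [← norm_up hset, hε]
    have h1 : Algebra.norm ℚ ((α T * α T1 : 𝓞 L) : L) =
        ((Algebra.norm ℤ (α T) * Algebra.norm ℤ (α T1) : ℤ) : ℚ) := by
      rw [← map_mul, ← Algebra.coe_norm_int]
    rw [h1]
    obtain ⟨r, hr⟩ := hsqn
    exact ⟨(r : ℚ), by rw [hr]; push_cast; ring⟩
  · intro v hv
    have hv0 : (B0 : 𝓞 L) ∉ v.asIdeal := by
      intro h
      apply hv
      push_cast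
      exact Ideal.mul_mem_right _ _ h
    have hvT1 : v ∉ T1 := by
      intro h
      apply hv
      have h1 : ((Q (dat T) : ℕ) : 𝓞 L) ∈ v.asIdeal := hadm.2.1 v h
      obtain ⟨k, hk⟩ : Q (dat T) ∣ ∏ δ, Q δ := Finset.dvd_prod_of_mem _ (Finset.mem_univ _)
      rw [hk]
      push_cast
      exact Ideal.mul_mem_left _ _ (Ideal.mul_mem_right _ _ h1)
    rw [hε]
    have h2 : v.valuation L ((α T * α T1 : 𝓞 L) : L) = v.valuation L (α T : L) := by
      have h3 : ((α T * α T1 : 𝓞 L) : L) = (α T : L) * (α T1 : L) := map_mul (algebraMap (𝓞 L) L) _ _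
      rw [h3, map_mul, (hαv T1 v hv0).2 hvT1, mul_one]
    unfold Par
    rw [h2]
    constructor
    · intro hvT
      exact ⟨-1, by rw [(hαv T v hv0).1 hvT]; norm_num⟩
    · intro hvT
      exact ⟨0, by rw [(hαv T v hv0).2 hvT]; simp⟩

end Pool.Agent.Q51.EB
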