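import Pool.Agent.Q51.EB.Stm
import Pool.Agent.Q38.SX.CLU
import Pool.Agent.Q239.EL.UN

/-! # Project EB, job IDL (from project SX, job CLU by helper38) -/

set_option autoImplicit false

namespace Pool.Agent.Q51.EB

open NumberField IsDedekindDomain

theorem idl : S_IDL := by
  intro L _ _
  obtain ⟨B, C, hB, hC, h⟩ := Pool.Agent.Q38.SX.clu Pool.Agent.Q239.EL.un L
  refine ⟨B, C, hB, hC, fun S hS => ?_⟩
  obtain ⟨α, h1, h2, h3⟩ := h S hS
  exact ⟨α, h1, h2, fun σ => by push_cast; exact h3 σ⟩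

end Pool.Agent.Q51.EB
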