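import Pool.Agent.Q51.EB.CT
import Pool.Agent.Q51.EB.CHR
import Pool.Agent.Q51.EL.All

/-! # Project EB, job QD -/

set_option autoImplicit false

namespace Pool.Agent.Q51.EB

open Polynomial NumberField IsDedekindDomain Finset Pool.Agent.Q51.EL Pool.Agent.Q239.EL
open Pool.Agent.W313.BMX (Splits)

lemma unit1 : ∀ x y : ℤˣ, x * y = 1 → y = x := by decide

lemma unit2 : ∀ x y z w : ℤˣ, x * y = z * w → x * z = 1 → y * w = 1 := by decide

lemma unit_k {k : Type} [Field k] (h2 : (1 : k) ≠ -1) (x y z : ℤˣ)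
    (e : ((x : ℤ) : k) * ((y : ℤ) : k) = ((z : ℤ) : k)) : z = x * y := by
  have h3 : (-1 : k) ≠ 1 := fun h => h2 h.symm
  rcases Int.units_eq_one_or x with rfl | rfl <;> rcases Int.units_eq_one_or y with rfl | rfl <;>
  rcases Int.units_eq_one_or z with rfl | rfl <;> simp at e ⊢
  · exact h2 e
  · exact h3 e
  · exact h3 e
  · exact h2 e

section

variable {L : Type} [Field L] [NumberField L]

/-- multiplicativity of `sg` -/
lemma sg_mul (v : HeightOneSpectrum (𝓞 L)) (l : ℕ) (hl : l.Prime) (hl2 : l ≠ 2) (hv : Abv v l)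
    (a b : 𝓞 L) (ha : a ∉ v.asIdeal) (hb : b ∉ v.asIdeal) :
    sg v ((a * b : 𝓞 L) : L) = sg v (a : L) * sg v (b : L) := by
  have : Finite (𝓞 L ⧸ v.asIdeal) := kfin v
  have : Fintype (𝓞 L ⧸ v.asIdeal) := Fintype.ofFinite _
  obtain ⟨hch, -⟩ := kdata v l hl hl2 hv
  have hk : ∀ x : 𝓞 L, x ∉ v.asIdeal → Ideal.Quotient.mk v.asIdeal x ≠ 0 := by
    intro x hx; rw [Ne, Ideal.Quotient.eq_zero_iff_mem]; exact hx
  have key : ∀ x : 𝓞 L, x ∉ v.asIdeal →
      (Ideal.Quotient.mk v.asIdeal x) ^ (Fintype.card (𝓞 L ⧸ v.asIdeal) / 2) =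
        (((sg v (x : L) : ℤˣ) : ℤ) : 𝓞 L ⧸ v.asIdeal) := by
    intro x hx
    by_cases h : sg v (x : L) = 1
    · rw [h]
      rw [sg_iff, FiniteField.isSquare_iff hch (hk x hx)] at h
      rw [h]; simp
    · have h1 := sg_neg h
      rw [h1]
      rcases FiniteField.pow_dichotomy hch (hk x hx) with h2 | h2
      · rw [sg_iff, FiniteField.isSquare_iff hch (hk x hx)] at h
        exact absurd h2 h
      · rw [h2]; simp
  have h2 : (1 : 𝓞 L ⧸ v.asIdeal) ≠ -1 := by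
    intro h
    exact (Ring.neg_one_ne_one_of_char_ne_two hch) h.symm
  have hab : a * b ∉ v.asIdeal := fun h => (v.isPrime.mem_or_mem h).elim ha hb
  have e := key (a * b) hab
  rw [map_mul, mul_pow, key a ha, key b hb] at e
  exact unit_k h2 _ _ _ e

lemma sg_div (v : HeightOneSpectrum (𝓞 L)) (a b : 𝓞 L) (hb : b ∉ v.asIdeal) :
    sg v ((a : L) / (b : L)) = sg v ((a * b : 𝓞 L) : L) := by
  have hb0 : (b : L) ≠ 0 := by
    intro h
    have h1 : b = 0 := RingOfIntegers.coe_eq_zero_iff.mp h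
    rw [h1] at hb
    exact hb (Ideal.zero_mem _)
  have hvb : v.valuation L (b : L) = 1 := by
    have h1 : v.valuation L (b : L) ≤ 1 := v.valuation_le_one b
    exact le_antisymm h1 (not_lt.mp (fun h => hb ((v.valuation_lt_one_iff_mem b).mp h)))
  have key : (∃ g : 𝓞 L, v.valuation L ((a : L) / (b : L) - (g : L) ^ 2) < 1) ↔
      ∃ g : 𝓞 L, v.valuation L (((a * b : 𝓞 L) : L) - (g : L) ^ 2) < 1 := by
    constructor
    · rintro ⟨g, hg⟩
      refine ⟨g * b, ?_⟩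
      have e : ((a * b : 𝓞 L) : L) - ((g * b : 𝓞 L) : L) ^ 2 =
          (b : L) ^ 2 * ((a : L) / (b : L) - (g : L) ^ 2) := by
        have h1 : ((a * b : 𝓞 L) : L) = (a : L) * b := map_mul (algebraMap (𝓞 L) L) _ _
        have h2 : ((g * b : 𝓞 L) : L) = (g : L) * b := map_mul (algebraMap (𝓞 L) L) _ _
        rw [h1, h2]; field_simp
      rw [e, map_mul, map_pow, hvb, one_pow, one_mul]
      exact hg
    · rintro ⟨g, hg⟩
      obtain ⟨b', hb'⟩ : ∃ b' : 𝓞 L, b * b' - 1 ∈ v.asIdeal := by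
        have hk : Ideal.Quotient.mk v.asIdeal b ≠ 0 := by
          rw [Ne, Ideal.Quotient.eq_zero_iff_mem]; exact hb
        obtain ⟨b', h⟩ := Ideal.Quotient.mk_surjective ((Ideal.Quotient.mk v.asIdeal b)⁻¹)
        refine ⟨b', ?_⟩
        rw [← Ideal.Quotient.eq_zero_iff_mem, map_sub, map_mul, h, map_one, mul_inv_cancel₀ hk,
          sub_self]
      refine ⟨g * b', ?_⟩
      have h3 : a * b - (g * (b * b')) ^ 2 ∈ v.asIdeal := by
        have h4 : a * b - g ^ 2 ∈ v.asIdeal := by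
          apply (v.valuation_lt_one_iff_mem (K := L) _).mp
          change v.valuation L ((a * b - g ^ 2 : 𝓞 L) : L) < 1
          have e : ((a * b - g ^ 2 : 𝓞 L) : L) = ((a * b : 𝓞 L) : L) - (g : L) ^ 2 := by
            push_cast; rfl
          rw [e]; exact hg
        have e : a * b - (g * (b * b')) ^ 2 = (a * b - g ^ 2) +
            (b * b' - 1) * (-(g ^ 2 * (b * b' + 1))) := by ring
        rw [e]
        exact Ideal.add_mem _ h4 (Ideal.mul_mem_right _ _ hb')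
      replace h3 : v.valuation L ((a * b - (g * (b * b')) ^ 2 : 𝓞 L) : L) < 1 :=
        (v.valuation_lt_one_iff_mem (K := L) _).mpr h3
      have e : ((a * b - (g * (b * b')) ^ 2 : 𝓞 L) : L) =
          (b : L) ^ 2 * ((a : L) / (b : L) - ((g * b' : 𝓞 L) : L) ^ 2) := by
        simp only [map_sub, map_mul, map_pow]
        field_simp
      rw [e, map_mul, map_pow, hvb, one_pow, one_mul] at h3
      exact h3
  unfold sg
  by_cases h : ∃ g : 𝓞 L, v.valuation L ((a : L) / (b : L) - (g : L) ^ 2) < 1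
  · rw [if_pos h, if_pos (key.mp h)]
  · rw [if_neg h, if_neg (fun h' => h (key.mpr h'))]

/-- integers have trivial product over a set of even degree -/
lemma prod_int (l : ℕ) [hl : Fact l.Prime] (hl2 : l ≠ 2) (T : Finset (HeightOneSpectrum (𝓞 L)))
    (hT : ∀ v ∈ T, Abv v l) (hsq : IsSquare (∏ v ∈ T, Ideal.absNorm v.asIdeal)) (c : ℤ)
    (hc : ¬ (l : ℤ) ∣ c) : ∏ v ∈ T, sg v (((c : 𝓞 L)) : L) = 1 := by
  have hmk : ∀ v : HeightOneSpectrum (𝓞 L), Ideal.Quotient.mk v.asIdeal (c : 𝓞 L) =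
      ((c : ℤ) : 𝓞 L ⧸ v.asIdeal) := fun v => map_intCast _ c
  by_cases h : IsSquare (c : ZMod l)
  · apply Finset.prod_eq_one
    intro v hv
    rw [sg_iff, hmk]
    obtain ⟨r, hr⟩ := h
    obtain ⟨z, rfl⟩ := ZMod.intCast_surjective r
    have h1 : ((c - z * z : ℤ) : ZMod l) = 0 := by push_cast; rw [hr, sub_self]
    obtain ⟨k, hk⟩ := (ZMod.intCast_zmod_eq_zero_iff_dvd _ l).mp h1
    obtain ⟨-, n, -, -, -, hl0⟩ := kdata v l hl.out hl2 (hT v hv)
    refine ⟨(z : 𝓞 L ⧸ v.asIdeal), ?_⟩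
    have h2 : ((c - z * z : ℤ) : 𝓞 L ⧸ v.asIdeal) = 0 := by
      rw [hk]; push_cast; rw [hl0, zero_mul]
    push_cast at h2
    exact sub_eq_zero.mp h2
  · have h1 : ∀ v ∈ T, sg v (((c : 𝓞 L)) : L) = (-1) ^ ph l v.asIdeal := by
      intro v hv
      obtain ⟨i1, i2, i3⟩ := int_sq v l hl.out hl2 (hT v hv) c hc
      obtain ⟨hch, -⟩ := kdata v l hl.out hl2 (hT v hv)
      have : Finite (𝓞 L ⧸ v.asIdeal) := kfin v
      have : Fintype (𝓞 L ⧸ v.asIdeal) := Fintype.ofFinite _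
      by_cases h2 : IsSquare (Ideal.absNorm v.asIdeal)
      · have h3 := i1 h2
        rw [absN_pow (hT v hv), isSquare_pow_iff hl.out] at h2
        rw [h2.neg_one_pow, sg_iff, hmk]
        exact h3
      · have h3 := i2 h2 h
        rw [absN_pow (hT v hv), isSquare_pow_iff hl.out, Nat.not_even_iff_odd] at h2
        rw [h2.neg_one_pow]
        apply sg_neg
        rw [Ne, sg_iff, hmk, FiniteField.isSquare_iff hch i3, ← Nat.card_eq_fintype_card, h3]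
        exact Ring.neg_one_ne_one_of_char_ne_two hch
    rw [Finset.prod_congr rfl h1, Finset.prod_pow_eq_pow_sum]
    have h2 : ∏ v ∈ T, Ideal.absNorm v.asIdeal = l ^ ∑ v ∈ T, ph l v.asIdeal := by
      rw [← Finset.prod_pow_eq_pow_sum]
      exact Finset.prod_congr rfl (fun v hv => absN_pow (hT v hv))
    rw [h2, isSquare_pow_iff hl.out] at hsq
    exact hsq.neg_one_pow

end

/-- a normalised integral representative of a value at a prime dividing `D` -/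
lemma norm1 (hnrm : S_NRM) (hcorp : S_CORP) (hbil : S_BIL) (hbc : S_BC) (hvc : S_VC)
    {f : ℤ[X]} {L : Type} [Field L] [NumberField L] {θ : L} (hset : Setup f L θ)
    (hn : 1 ≤ f.natDegree) (l : ℕ) [hl : Fact l.Prime]
    (hvl : ∀ v : HeightOneSpectrum (𝓞 L), Abv v l → v.valuation L (l : L) = WithZero.exp (-1 : ℤ))
    (D : ℤ) (a : ℚ_[l][X]) (ha : Val f D ℚ_[l] a) (v0 : HeightOneSpectrum (𝓞 L))
    (s : HeightOneSpectrum (𝓞 L) → ℤ) (hs0 : s v0 = 1) (hs : ∀ v, v ≠ v0 → s v = 0)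
    (hpat : Pat f θ l a s) : ∃ (d : ℚ[X]) (α1 : 𝓞 L), aeval θ d = (α1 : L) ∧
      (∀ v : HeightOneSpectrum (𝓞 L), Abv v l →
        (v = v0 → v.valuation L (α1 : L) = WithZero.exp (-1 : ℤ)) ∧
        (v ≠ v0 → v.valuation L (α1 : L) = 1)) ∧ aeval θ d ≠ 0 ∧
      CovPt f d ℚ_[l] ∧ ∀ ε : ℚ[X], SqN f ε →
        cor (up f ℚ_[l]) a (ε.map (Rat.castHom ℚ_[l])) =
        cor (up f ℚ_[l]) (d.map (Rat.castHom ℚ_[l])) (ε.map (Rat.castHom ℚ_[l])) := by
  classical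
  obtain ⟨α, c, e, hα, hc, hdvd, hpar⟩ := hpat
  have hα0 : aeval θ α ≠ 0 := (zero_up hset α).mp hα
  have hl0 : (l : L) ≠ 0 := by exact_mod_cast hl.out.ne_zero
  have hle0 : (l : L) ^ e ≠ 0 := zpow_ne_zero _ hl0
  obtain ⟨η, α1, hη, hα1, hα1v⟩ := hnrm L l hl.out ((l : L) ^ e * aeval θ α)
    (mul_ne_zero hle0 hα0) (fun v => if v = v0 then 1 else 0) (by
    intro v hv
    have h1 : Par v ((l : L) ^ e) e := by
      refine ⟨-e, ?_⟩
      rw [map_zpow₀, hvl v hv, ← WithZero.exp_zsmul]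
      congr 1
      simp; ring
    have h2 := par_mul h1 (hpar v hv)
    by_cases h : v = v0
    · rw [if_pos h]
      rw [h, hs0] at h2
      rw [h]
      exact par_cong h2 ⟨e, by push_cast; ring⟩
    · rw [if_neg h]
      rw [hs v h] at h2
      exact par_cong h2 ⟨e, by push_cast; ring⟩)
  obtain ⟨d, hd⟩ := surj_up hset (α1 : L)
  obtain ⟨k, hk⟩ := surj_up hset η
  have hk0 : aeval θ k ≠ 0 := by rw [hk]; exact hη
  have hd2 : aeval θ d = (((l : ℚ) ^ e : ℚ) : L) * aeval θ α * aeval θ k ^ 2 := by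
    rw [hd, hα1, hk]; push_cast; ring
  have hcst : ((l : ℚ) ^ e : ℚ) ≠ 0 := zpow_ne_zero _ (by exact_mod_cast hl.out.ne_zero)
  have hd0 : aeval θ d ≠ 0 := by
    rw [hd, hα1]
    exact mul_ne_zero (mul_ne_zero hle0 hα0) (pow_ne_zero _ hη)
  refine ⟨d, α1, hd, ?_, hd0, ?_, ?_⟩
  · intro v hv
    have h1 := hα1v v hv
    refine ⟨fun h => ?_, fun h => ?_⟩
    · rw [h1, if_pos h]; norm_num
    · rw [h1, if_neg h]; simp
  · exact Pool.Agent.Q91.EL.ch f L θ hset α d k _ hcst hk0 hd2 ℚ_[l]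
      (hvc f hset.irr D ℚ_[l] a c α ha hc hdvd).1
  · intro ε hε
    obtain ⟨-, -, -, hsep, hdeg⟩ := hbc f hset.irr ℚ_[l] ε
    obtain ⟨c1, c2, c3, -⟩ := hcorp ℚ_[l] (hbil.2 l) (up f ℚ_[l]) hsep (by rw [hdeg]; exact hn)
    have hεc := cop_map (F := ℚ_[l]) hε.1
    have hαc := cop_map (F := ℚ_[l]) hα
    have hkc := cop_map (F := ℚ_[l]) ((zero_up hset k).mpr hk0)
    have hsqF : IsSquare (Algebra.norm ℚ_[l] (AdjoinRoot.mk (up f ℚ_[l])
        (ε.map (Rat.castHom ℚ_[l])))) := by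
      rw [(hbc f hset.irr ℚ_[l] ε).1]
      obtain ⟨r, hr⟩ := hε.2
      exact ⟨(r : ℚ_[l]), by rw [hr]; push_cast; ring⟩
    have hcF : (((l : ℚ) ^ e : ℚ) : ℚ_[l]) ≠ 0 := by exact_mod_cast hcst
    set E := ε.map (Rat.castHom ℚ_[l]) with hE
    set A := α.map (Rat.castHom ℚ_[l]) with hA
    set K := k.map (Rat.castHom ℚ_[l]) with hK
    have e1 : cor (up f ℚ_[l]) a E = cor (up f ℚ_[l]) A E := by
      rw [c1 a (A * c ^ 2) E (E * 1 ^ 2) hdvd (by simp), c2 A E c 1 hαc hεc hc isCoprime_one_right]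
    have e2 : cor (up f ℚ_[l]) (d.map (Rat.castHom ℚ_[l])) E = cor (up f ℚ_[l]) A E := by
      have h1 : up f ℚ ∣ d - C ((l : ℚ) ^ e) * α * k ^ 2 := by
        rw [dvd_up hset, map_sub, map_mul, map_mul, map_pow, hd2, aeval_C]
        simp
      have h2 := dvd_map (F := ℚ_[l]) h1
      have h3 : (d - C ((l : ℚ) ^ e) * α * k ^ 2).map (Rat.castHom ℚ_[l]) =
          d.map (Rat.castHom ℚ_[l]) - (C (((l : ℚ) ^ e : ℚ) : ℚ_[l]) * A) * K ^ 2 := by
        simp only [Polynomial.map_sub, Polynomial.map_mul, Polynomial.map_pow, Polynomial.map_C,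
          hA, hK]
        congr 3
      rw [h3] at h2
      have hCA : IsCoprime (up f ℚ_[l]) (C (((l : ℚ) ^ e : ℚ) : ℚ_[l]) * A) := by
        apply IsCoprime.mul_right _ hαc
        exact ⟨0, C (((l : ℚ) ^ e : ℚ) : ℚ_[l])⁻¹, by
          rw [zero_mul, zero_add, ← C_mul, inv_mul_cancel₀ hcF, C_1]⟩
      rw [c1 _ ((C (((l : ℚ) ^ e : ℚ) : ℚ_[l]) * A) * K ^ 2) E (E * 1 ^ 2) h2 (by simp),
        c2 _ E K 1 hCA hεc hkc isCoprime_one_right, c3 A E _ hcF hαc hεc hsqF]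
    rw [e1, e2]

theorem qd (hct : S_CT) (hnrm : S_NRM) (hcorp : S_CORP) (hbil : S_BIL) (hbc : S_BC)
    (hvc : S_VC) : S_QD := by
  classical
  intro f L _ _ θ hset hev hn3
  obtain ⟨B1, hB1, hct⟩ := hct f L θ hset
  obtain ⟨B2, hB2, hsd⟩ := t_sd f L θ hset hn3
  obtain ⟨B3, hB3, -, hroot⟩ := t_root f L θ hset
  have hint : IsIntegral ℤ ((f.leadingCoeff : L) * θ) := by
    have h1 : IsIntegral ℤ (f.leadingCoeff • θ) := isIntegral_leadingCoeff_smul f θ hset.root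
    rwa [zsmul_eq_mul] at h1
  set t : 𝓞 L := ⟨(f.leadingCoeff : L) * θ, hint⟩ with ht
  have hsd := hsd t rfl
  refine ⟨2 * B1 * B2 * B3, by positivity, ?_⟩
  intro l hl hlB D D' a a' b b' ε β β' v0 T ha ha' hb hb' hv0 hN0 hv0T hT hsq hε hs hv hcor
  have hl2 : l ≠ 2 := by rintro rfl; exact hlB ⟨B1 * B2 * B3, by ring⟩
  have hl1 : ¬ l ∣ B1 := fun h => hlB (h.trans ⟨2 * B2 * B3, by ring⟩)
  have hl22 : ¬ l ∣ B2 := fun h => hlB (h.trans ⟨2 * B1 * B3, by ring⟩)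
  have hl3 : ¬ l ∣ B3 := fun h => hlB (h.trans ⟨2 * B1 * B2, by ring⟩)
  obtain ⟨s, hs0, hs1, hpat, hpat'⟩ := hs
  have hvl := fun v hv => ((hroot l hl.out hl3).1 v hv).2
  obtain ⟨d, α1, hd, hα1v, hd0, hcov, hcorε⟩ := norm1 hnrm hcorp hbil hbc hvc hset (by omega) l hvl D a
    ha v0 s hs0 hs1 hpat
  obtain ⟨d', α1', hd', hα1v', hd0', hcov', hcorε'⟩ := norm1 hnrm hcorp hbil hbc hvc hset (by omega) l
    hvl D' a' ha' v0 s hs0 hs1 hpat'
  have mem_lt : ∀ (v : HeightOneSpectrum (𝓞 L)) (x : 𝓞 L), v.valuation L (x : L) = 1 →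
      x ∉ v.asIdeal := by
    intro v x h h'
    have := (v.valuation_lt_one_iff_mem (K := L) x).mpr h'
    rw [h] at this
    exact lt_irrefl _ this
  -- the elements are units at the places of `T`
  have hTne : ∀ v ∈ T, v ≠ v0 := fun v hvT h => hv0T (h ▸ hvT)
  have u1 : ∀ v ∈ T, α1 ∉ v.asIdeal := fun v hvT => mem_lt v _ ((hα1v v (hT v hvT)).2 (hTne v hvT))
  have u2 : ∀ v ∈ T, α1' ∉ v.asIdeal :=
    fun v hvT => mem_lt v _ ((hα1v' v (hT v hvT)).2 (hTne v hvT))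
  have u3 : ∀ v ∈ T, β ∉ v.asIdeal :=
    fun v hvT => mem_lt v _ ((hv v (hT v hvT)).2.1 (hTne v hvT)).1
  have u4 : ∀ v ∈ T, β' ∉ v.asIdeal :=
    fun v hvT => mem_lt v _ ((hv v (hT v hvT)).2.1 (hTne v hvT)).2
  -- the tame formula
  have hgen : ∀ (d b : ℚ[X]) (α1 β : 𝓞 L), aeval θ d = (α1 : L) → aeval θ b = (β : L) →
      aeval θ d ≠ 0 →
      (∀ v : HeightOneSpectrum (𝓞 L), Abv v l →
        (v = v0 → v.valuation L (α1 : L) = WithZero.exp (-1 : ℤ)) ∧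
        (v ≠ v0 → v.valuation L (α1 : L) = 1)) →
      (∀ v : HeightOneSpectrum (𝓞 L), Abv v l →
        (v = v0 → v.valuation L (β : L) = WithZero.exp (-1 : ℤ)) ∧
        (v ≠ v0 → v.valuation L (β : L) = 1)) →
      (∀ v ∈ T, α1 ∉ v.asIdeal) → (∀ v ∈ T, β ∉ v.asIdeal) →
      cor (up f ℚ_[l]) (d.map (Rat.castHom ℚ_[l])) (ε.map (Rat.castHom ℚ_[l])) *
        cor (up f ℚ_[l]) (b.map (Rat.castHom ℚ_[l])) (ε.map (Rat.castHom ℚ_[l])) =
      (∏ v ∈ T, sg v (α1 : L)) * ∏ v ∈ T, sg v (β : L) := by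
    intro d b α1 β hd hb hd0 h1 h2 h3 h4
    have hb0 : aeval θ b ≠ 0 := by
      intro h
      have := (h2 v0 hv0).1 rfl
      rw [← hb, h, map_zero] at this
      exact WithZero.exp_ne_zero this.symm
    obtain ⟨g, hg⟩ := surj_up hset ((α1 : L) / (β : L))
    have hbL : (β : L) ≠ 0 := by rw [← hb]; exact hb0
    have h5 := hct l hl1 b g ε T hb0 hε hT (by
      intro v hvl'
      obtain ⟨-, -, h6, h7⟩ := hv v hvl'
      refine ⟨?_, h6, h7⟩
      rw [hg, map_div₀]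
      by_cases hvv : v = v0
      · rw [(h1 v hvl').1 hvv, (h2 v hvl').1 hvv]
        exact div_self WithZero.exp_ne_zero
      · rw [(h1 v hvl').2 hvv, (h2 v hvl').2 hvv, div_one])
    have h6 : cor (up f ℚ_[l]) ((b * g).map (Rat.castHom ℚ_[l])) (ε.map (Rat.castHom ℚ_[l])) =
        cor (up f ℚ_[l]) (d.map (Rat.castHom ℚ_[l])) (ε.map (Rat.castHom ℚ_[l])) := by
      obtain ⟨-, -, -, hsep, hdeg⟩ := hbc f hset.irr ℚ_[l] ε
      obtain ⟨c1, -⟩ := hcorp ℚ_[l] (hbil.2 l) (up f ℚ_[l]) hsep (by rw [hdeg]; omega)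
      apply c1 _ _ _ _ _ (by simp)
      have h7 : up f ℚ ∣ b * g - d := by
        rw [dvd_up hset, map_sub, map_mul, hb, hg, hd, mul_div_cancel₀ _ hbL, sub_self]
      simpa using dvd_map (F := ℚ_[l]) h7
    rw [h6, hg] at h5
    rw [h5, ← Finset.prod_mul_distrib]
    apply Finset.prod_congr rfl
    intro v hvT
    rw [sg_div v α1 β (h4 v hvT), sg_mul v l hl.out hl2 (hT v hvT) α1 β (h3 v hvT) (h4 v hvT)]
  have g1 := hgen d b α1 β hd hb hd0 hα1v (fun v hvl' => ⟨fun h => ((hv v hvl').1 h).1,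
    fun h => ((hv v hvl').2.1 h).1⟩) u1 u3
  have g2 := hgen d' b' α1' β' hd' hb' hd0' hα1v' (fun v hvl' => ⟨fun h => ((hv v hvl').1 h).2,
    fun h => ((hv v hvl').2.1 h).2⟩) u2 u4
  rw [hcorε ε hε, hcorε' ε hε, g1, g2] at hcor
  -- the classes of `α1 α1'`
  obtain ⟨c, r, hc, hr, hcr⟩ := hsd l hl22 d α1 hd hcov v0 hv0 hN0 ((hα1v v0 hv0).1 rfl)
    (fun v h1 h2 => (hα1v v h1).2 h2)
  obtain ⟨c', r', hc', hr', hcr'⟩ := hsd l hl22 d' α1' hd' hcov' v0 hv0 hN0 ((hα1v' v0 hv0).1 rfl)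
    (fun v h1 h2 => (hα1v' v h1).2 h2)
  have hrr : (l : ℤ) ∣ r - r' := by
    rw [← int_mem_iff hl.out hv0]
    have e : ((r - r' : ℤ) : 𝓞 L) = (t - (r' : 𝓞 L)) - (t - (r : 𝓞 L)) := by push_cast; ring
    rw [e]
    exact Ideal.sub_mem _ hr' hr
  have hcc : ¬ (l : ℤ) ∣ c * c' := by
    intro h
    rcases (Nat.prime_iff_prime_int.mp hl.out).dvd_or_dvd h with h | h
    · exact hc h
    · exact hc' h
  have hcls : ∀ v ∈ T, sg v (α1 : L) * sg v (α1' : L) = sg v (((c * c' : ℤ) : 𝓞 L) : L) := by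
    intro v hvT
    have hvl' := hT v hvT
    have hne := hTne v hvT
    obtain ⟨g, hg⟩ := hcr v hvl' hne
    obtain ⟨g', hg'⟩ := hcr' v hvl' hne
    have hccv : ((c * c' : ℤ) : 𝓞 L) ∉ v.asIdeal := by
      rw [int_mem_iff hl.out hvl']; exact hcc
    have haa : α1 * α1' ∉ v.asIdeal :=
      fun h => (v.isPrime.mem_or_mem h).elim (u1 v hvT) (u2 v hvT)
    have h1 : sg v ((((c * c' : ℤ) : 𝓞 L) * (α1 * α1') : 𝓞 L) : L) = 1 := by
      rw [sg_iff]
      refine ⟨Ideal.Quotient.mk v.asIdeal (((r : 𝓞 L) - t) * g * g'), ?_⟩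
      rw [← map_mul, ← sub_eq_zero, ← map_sub, Ideal.Quotient.eq_zero_iff_mem]
      have hrv : ((r - r' : ℤ) : 𝓞 L) ∈ v.asIdeal := by
        rw [int_mem_iff hl.out hvl']; exact hrr
      have e : ((c * c' : ℤ) : 𝓞 L) * (α1 * α1') -
          ((r : 𝓞 L) - t) * g * g' * (((r : 𝓞 L) - t) * g * g') =
          ((c : 𝓞 L) * α1 - ((r : 𝓞 L) - t) * g ^ 2) * ((c' : 𝓞 L) * α1') +
          ((c' : 𝓞 L) * α1' - ((r' : 𝓞 L) - t) * g' ^ 2) * (((r : 𝓞 L) - t) * g ^ 2) -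
          ((r - r' : ℤ) : 𝓞 L) * (((r : 𝓞 L) - t) * g ^ 2 * g' ^ 2) := by
        push_cast; ring
      rw [e]
      exact Ideal.sub_mem _ (Ideal.add_mem _ (Ideal.mul_mem_right _ _ hg)
        (Ideal.mul_mem_right _ _ hg')) (Ideal.mul_mem_right _ _ hrv)
    rw [sg_mul v l hl.out hl2 hvl' _ _ hccv haa,
      sg_mul v l hl.out hl2 hvl' _ _ (u1 v hvT) (u2 v hvT)] at h1
    exact unit1 _ _ h1
  have hprod : (∏ v ∈ T, sg v (α1 : L)) * ∏ v ∈ T, sg v (α1' : L) = 1 := by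
    rw [← Finset.prod_mul_distrib, Finset.prod_congr rfl hcls]
    exact prod_int l hl2 T hT hsq (c * c') hcc
  have hfin : ∏ v ∈ T, sg v ((β * β' : 𝓞 L) : L) =
      (∏ v ∈ T, sg v (β : L)) * ∏ v ∈ T, sg v (β' : L) := by
    rw [← Finset.prod_mul_distrib]
    exact Finset.prod_congr rfl (fun v hvT =>
      sg_mul v l hl.out hl2 (hT v hvT) β β' (u3 v hvT) (u4 v hvT))
  rw [hfin]
  exact unit2 _ _ _ _ hcor hprod

end Pool.Agent.Q51.EB
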