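import Pool.Agent.Q51.EB.Stm
import Pool.Agent.Q51.EL.All

/-! # Project EB, job SCL: local version of `Pool.Agent.Q239.EL.sc` (by helper239) -/

set_option autoImplicit false
set_option linter.unusedSectionVars false

open Polynomial NumberField IsDedekindDomain Pool.Agent.Q51.EL Pool.Agent.Q51.EB Pool.Agent.Q239.EL

noncomputable section

namespace Pool.Agent.Q51.EB

theorem scl_of (hap : S_AP) (hroot : S_ROOT) (hnv : S_NV) (hram : S_RAM) : S_SCL := by
  intro f L _ _ θ hs heven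
  obtain ⟨B0, hB0, hB0a, hB0'⟩ := hroot f L θ hs
  obtain ⟨⟨B1, hB1, hB1'⟩, -⟩ := hram L
  refine ⟨B0 * B1, mul_ne_zero hB0 hB1, ?_⟩
  intro l hl hlB d D hd hD hsq hcov
  have hl0 : ¬ l ∣ B0 := fun h => hlB (Dvd.dvd.mul_right h _)
  have hl1 : ¬ l ∣ B1 := fun h => hlB (Dvd.dvd.mul_left h _)
  obtain ⟨hθ, hxw⟩ := hB0' l hl.out hl0
  have hsqf := hB1' l hl.out hl1
  have ha : ¬ (l : ℤ) ∣ f.leadingCoeff := fun h => hl0 (by exact_mod_cast h.trans hB0a)
  obtain ⟨x, w, e, g, he, hxw1, hval⟩ := hap f L θ hs l ha d hcov 2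
  set δ := aeval θ d with hδ
  have hn : Even (Module.finrank ℚ L) := by rw [hs.deg]; exact heven
  have hnv' := hnv L hn l hl.out hsqf δ hd
  -- the valuation of `D`
  have hD0 : D ≠ 0 := hD.ne_zero
  have haQ : (f.leadingCoeff : ℚ) ≠ 0 := by exact_mod_cast lead_ne hs
  have hDQ : (D : ℚ) ≠ 0 := by exact_mod_cast hD0
  have hNδ : Algebra.norm ℚ δ ≠ 0 := Algebra.norm_ne_zero_iff.mpr hd
  have hva : padicValRat l (f.leadingCoeff : ℚ) = 0 := by
    rw [padicValRat.of_int]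
    exact_mod_cast padicValInt.eq_zero_of_not_dvd ha
  have hpar : Even (padicValRat l (D : ℚ) + padicValRat l (Algebra.norm ℚ δ)) := by
    obtain ⟨s, hs'⟩ := hsq
    have hcast : (((D * f.leadingCoeff : ℤ) : ℚ_[l]) * ((Algebra.norm ℚ δ : ℚ) : ℚ_[l])) =
        (((D : ℚ) * (f.leadingCoeff : ℚ) * Algebra.norm ℚ δ : ℚ) : ℚ_[l]) := by
      push_cast; ring
    rw [hcast] at hs'
    have hne : ((D : ℚ) * (f.leadingCoeff : ℚ) * Algebra.norm ℚ δ : ℚ) ≠ 0 :=
      mul_ne_zero (mul_ne_zero hDQ haQ) hNδ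
    have hs0 : s ≠ 0 := by
      rintro rfl
      rw [mul_zero] at hs'
      exact hne (by exact_mod_cast hs')
    have h1 := congrArg Padic.valuation hs'
    rw [Padic.valuation_ratCast, Padic.valuation_mul hs0 hs0,
      padicValRat.mul (mul_ne_zero hDQ haQ) hNδ, padicValRat.mul hDQ haQ, hva, add_zero] at h1
    exact ⟨_, h1⟩
  have hvD0 : ¬ (l : ℤ) ∣ D → padicValRat l (D : ℚ) = 0 := by
    intro h
    rw [padicValRat.of_int]
    exact_mod_cast padicValInt.eq_zero_of_not_dvd h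
  have hvD1 : (l : ℤ) ∣ D → padicValRat l (D : ℚ) = 1 := by
    rintro ⟨z, rfl⟩
    have hz0 : z ≠ 0 := right_ne_zero_of_mul hD0
    have hzl : ¬ (l : ℤ) ∣ z := by
      intro h
      have h1 := hD l (mul_dvd_mul_left _ h)
      exact (Nat.prime_iff_prime_int.mp hl.out).not_isUnit h1
    push_cast
    rw [padicValRat.mul (by exact_mod_cast hl.out.ne_zero) (by exact_mod_cast hz0)]
    have h1 : padicValRat l (l : ℚ) = 1 := padicValRat.self hl.out.one_lt
    have h2 : padicValRat l (z : ℚ) = 0 := by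
      rw [padicValRat.of_int]
      exact_mod_cast padicValInt.eq_zero_of_not_dvd hzl
    rw [h1, h2, add_zero]
  have hun : ∀ v : HeightOneSpectrum (𝓞 L), Abv v l → v.valuation L ((x : L) - w * θ) = 1 →
      Par v δ e := by
    intro v hv h1
    exact par_of_val hd (at_unit he (hθ v hv).2 h1 (hval v hv))
  rcases hxw x w hxw1 with h1 | ⟨v0, hv0, hN0, hw, hlt, hoth⟩
  · refine ⟨e, Or.inl ⟨?_, fun v hv => hun v hv (h1 v hv)⟩⟩
    intro hlD
    have h2 := hnv'.1 e (fun v hv => hun v hv (h1 v hv))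
    rw [hvD1 hlD] at hpar
    obtain ⟨a, ha'⟩ := hpar
    obtain ⟨b, hb'⟩ := h2
    omega
  · obtain ⟨e0, he0⟩ := val_exp (v := v0) hd
    have hp0 : Par v0 δ e0 := ⟨0, by rw [he0]; congr 1; ring⟩
    have h2 := hnv'.2 e0 e v0 hv0 hN0 hp0 (fun v hv hne => hun v hv (hoth v hv hne))
    by_cases hlD : (l : ℤ) ∣ D
    · refine ⟨e, Or.inr ⟨hlD, v0, hv0, hN0, ?_, fun v hv hne => hun v hv (hoth v hv hne)⟩⟩
      rw [hvD1 hlD] at hpar
      apply par_congr hp0
      obtain ⟨a, ha'⟩ := hpar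
      obtain ⟨b, hb'⟩ := h2
      exact ⟨b - a - e, by linarith⟩
    · refine ⟨e, Or.inl ⟨hlD, fun v hv => ?_⟩⟩
      by_cases hne : v = v0
      · subst hne
        rw [hvD0 hlD] at hpar
        apply par_congr hp0
        obtain ⟨a, ha'⟩ := hpar
        obtain ⟨b, hb'⟩ := h2
        exact ⟨b - a - e, by linarith⟩
      · exact hun v hv (hoth v hv hne)



theorem scl : S_SCL := scl_of Q239.EL.ap t_root Q239.EL.nv Q91.EL.ram

end Pool.Agent.Q51.EB
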