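import Pool.Agent.Q51.EB.Main
import Pool.Agent.Q51.EB.SCL
import Pool.Agent.Q51.EB.CHR
import Pool.Agent.Q51.EB.IDL
import Pool.Agent.Q51.EB.VC
import Pool.Agent.Q51.EB.EPS
import Pool.Agent.Q51.EB.CT
import Pool.Agent.Q51.EB.QD
import Pool.Agent.Q247.EB.BIL
import Pool.Agent.Q247.EB.BC
import Pool.Agent.Q247.EB.PFC
import Pool.Agent.Q247.EB.NRM
import Pool.Agent.Q187.EB.Wd2
import Pool.Agent.Q187.EB.Hwp
import Pool.Agent.Q187.EB.Gram
import Pool.Agent.Q187.EB.Corp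
import Pool.Agent.Q187.EB.Jc3
import Pool.Agent.Q187.EB.Tr2
import Pool.Agent.Q58.EB.Apx
import Pool.Agent.Q58.EB.Apxr
import Pool.Agent.Q58.EB.Gd
import Pool.Agent.Q58.EB.Ev

/-!
# Project EB: the Brauer-Manin sets of 100% of the everywhere locally soluble twists are empty
-/

set_option autoImplicit false

namespace Pool.Agent.Q51.EB

open Pool.Agent

theorem t_hwp : S_HWP := Q187.EB.hwp Q187.EB.wd Q187.EB.diag
theorem t_corp : S_CORP := Q187.EB.corp t_hwp Q187.EB.gram_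
theorem t_pfc : S_PFC := Q247.EB.pfc Q247.EB.bil t_hwp Q187.EB.diag Q187.EB.gram_ Q247.EB.bc
theorem t_jc : S_JC := Q187.EB.jc t_hwp Q247.EB.bil
theorem t_tr : S_TR := Q187.EB.tr t_jc Q187.EB.gram_ Q247.EB.bc
theorem t_ct : S_CT := ct t_tr Q247.EB.nrm t_hwp Q187.EB.gram_ Q247.EB.bc Q247.EB.bil
theorem t_apx : S_APX := Q58.EB.apx Q247.EB.nrm
theorem t_vc : S_VC := vc Q247.EB.bc
theorem t_gd : S_GD := Q58.EB.gd t_ct Q247.EB.nrm t_corp Q247.EB.bil Q247.EB.bc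
theorem t_qd : S_QD := qd t_ct Q247.EB.nrm t_corp Q247.EB.bil Q247.EB.bc t_vc
theorem t_ev : S_EV := Q58.EB.ev Q247.EB.bc
theorem t_rp : S_RP := Q58.EB.rp t_pfc Q247.EB.bc

theorem main : S_EBMAIN :=
  ebmain_of Q247.EB.bil t_corp Q247.EB.bc t_pfc eps idl chr_ t_apx Q58.EB.apxr t_vc scl t_gd t_qd
    t_ev Pool.Agent.Q51.EL.t_core Q91.EL.gg Pool.Agent.Q51.EL.t_low

end Pool.Agent.Q51.EB
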