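import Pool.Agent.Q51.EB.Fin

/-! # Project EB: values of `x - θ w` at points are well defined up to squares -/

set_option autoImplicit false

namespace Pool.Agent.Q51.EB

open Polynomial NumberField IsDedekindDomain Finset Pool.Agent.Q51.EL Pool.Agent
open Pool.Agent.Q58.EB

/-- `a(θ)` is a value of `x - θ w` -/
def IsVal (f : ℤ[X]) (D : ℤ) {F : Type} [Field F] (x w : F) (a : F[X]) : Prop :=
  IsCoprime (up f F) a ∧ up f F ∣ (C x - C w * X) * (a - (C x - C w * X)) ∧
    IsSquare (((D * f.leadingCoeff : ℤ) : F) * Algebra.norm F (AdjoinRoot.mk (up f F) a))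

section

variable {F : Type} [Field F] [CharZero F]

/-- values exist (this is `Pool.Agent.Q58.EB.val_of_pt` of helper58 with a given point) -/
theorem isVal_exists {f : ℤ[X]} (hf : f ≠ 0) (hsep : (up f F).Separable) {D : ℤ} (hD : D ≠ 0)
    (x w y : F) (hxw : x ≠ 0 ∨ w ≠ 0) (hy : (D : F) * y ^ 2 = hom f x w) :
    ∃ a, IsVal f D x w a := by
  have hlc : (f.leadingCoeff : F) ≠ 0 := by
    exact_mod_cast leadingCoeff_ne_zero.2 hf
  have hD' : (D : F) ≠ 0 := by exact_mod_cast hD
  by_cases hc : IsCoprime (up f F) (C x - C w * X)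
  · refine ⟨C x - C w * X, hc, by rw [sub_self, mul_zero]; exact dvd_zero _, ?_⟩
    refine ⟨D * y, ?_⟩
    push_cast
    rw [mul_assoc, norm_lin hf, ← hy]
    ring
  · have hw : w ≠ 0 := by
      rintro rfl
      apply hc
      have hx : x ≠ 0 := by simpa using hxw
      rw [C_0, zero_mul, sub_zero]
      exact ⟨0, C x⁻¹, by rw [zero_mul, zero_add, ← C_mul, inv_mul_cancel₀ hx, C_1]⟩
    set r : F := x / w with hr
    have hlin : (C x - C w * X : F[X]) = -(C w) * (X - C r) := by
      have : (C x : F[X]) = C w * C r := by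
        rw [← C_mul, hr, mul_div_cancel₀ _ hw]
      rw [this]
      ring
    have hdvd : X - C r ∣ up f F := by
      by_contra hnd
      apply hc
      have h1 : IsCoprime (X - C r) (up f F) :=
        (irreducible_X_sub_C r).coprime_iff_not_dvd.2 hnd
      rw [hlin]
      refine IsCoprime.mul_right ?_ h1.symm
      exact ⟨0, -C w⁻¹, by
        rw [zero_mul, zero_add, neg_mul_neg, ← C_mul, inv_mul_cancel₀ hw, C_1]⟩
    obtain ⟨g, hg⟩ := hdvd
    have hcop : IsCoprime (X - C r) g := by
      rw [hg] at hsep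
      exact hsep.isCoprime
    have hgr : g.eval r ≠ 0 := by
      intro h0
      have h1 : X - C r ∣ g := dvd_iff_isRoot.2 h0
      exact ((irreducible_X_sub_C r).coprime_iff_not_dvd.1 hcop) h1
    set e : F[X] := C (g.eval r)⁻¹ * g with he
    have hgC : IsCoprime g (-(C w : F[X])) := ⟨0, -C w⁻¹, by
        rw [zero_mul, zero_add, neg_mul_neg, ← C_mul, inv_mul_cancel₀ hw, C_1]⟩
    set a₁ : F[X] := (C x - C w * X) + e with ha₁
    have hev1 : a₁.eval r = 1 := by
      rw [ha₁, hlin, he]
      simp [inv_mul_cancel₀ hgr]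
    have hcr : ∀ q : F[X], q.eval r ≠ 0 → IsCoprime (X - C r) q := by
      intro q hq
      rw [(irreducible_X_sub_C r).coprime_iff_not_dvd, dvd_iff_isRoot]
      exact hq
    have hcop1 : IsCoprime (up f F) a₁ := by
      rw [hg]
      refine IsCoprime.mul_left (hcr _ (by rw [hev1]; exact one_ne_zero)) ?_
      have h1 : IsCoprime g (-(C w) * (X - C r)) := IsCoprime.mul_right hgC hcop.symm
      rw [ha₁, hlin, he]
      exact IsCoprime.add_mul_right_right h1 _
    set κ : F := Algebra.norm F (AdjoinRoot.mk (up f F) a₁) with hκ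
    have hκ0 : κ ≠ 0 := norm_ne_zero_of_coprime _ _ hcop1
    set u : F := ((D * f.leadingCoeff : ℤ) : F) * κ with hu
    have hu0 : u ≠ 0 := by
      rw [hu]
      push_cast
      exact mul_ne_zero (mul_ne_zero hD' hlc) hκ0
    set b : F[X] := 1 + C (u - 1) * e with hb
    have hevb : b.eval r = u := by
      rw [hb, he]
      simp [inv_mul_cancel₀ hgr]
    have hcopb : IsCoprime (up f F) b := by
      rw [hg]
      refine IsCoprime.mul_left (hcr _ (by rw [hevb]; exact hu0)) ?_
      rw [hb, he, ← mul_assoc]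
      exact IsCoprime.add_mul_right_right isCoprime_one_right _
    have hnb : Algebra.norm F (AdjoinRoot.mk (up f F) b) = u := by
      rw [hg, hb, he]
      exact norm_one_add g r u hgr
    refine ⟨a₁ * b, hcop1.mul_right hcopb, ?_, ?_⟩
    · have h1 : a₁ * b - (C x - C w * X) = g * (C (g.eval r)⁻¹ * (b + C (u - 1) *
          (C x - C w * X))) := by
        rw [ha₁, hb, he]
        ring
      rw [h1, hlin, hg]
      exact ⟨-C w * (C (g.eval r)⁻¹ * (b + C (u - 1) * (-C w * (X - C r)))), by ring⟩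
    · rw [map_mul, map_mul, hnb, ← hκ, ← mul_assoc, ← hu]
      exact ⟨u, rfl⟩

/-- values are unique up to squares -/
theorem isVal_unique {f : ℤ[X]} (hf : f ≠ 0) (hsep : (up f F).Separable) {D : ℤ} (hD : D ≠ 0)
    (x w : F) (hxw : x ≠ 0 ∨ w ≠ 0) (a a' : F[X]) (h : IsVal f D x w a) (h' : IsVal f D x w a') :
    ∃ c : F[X], IsCoprime (up f F) c ∧ up f F ∣ a' - a * c ^ 2 := by
  have hlc : (f.leadingCoeff : F) ≠ 0 := by
    exact_mod_cast leadingCoeff_ne_zero.2 hf
  have hD' : (D : F) ≠ 0 := by exact_mod_cast hD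
  obtain ⟨h1, h2, h3⟩ := h
  obtain ⟨h1', h2', h3'⟩ := h'
  by_cases hc : IsCoprime (up f F) (C x - C w * X)
  · refine ⟨1, isCoprime_one_right, ?_⟩
    have h4 := hc.dvd_of_dvd_mul_left h2
    have h4' := hc.dvd_of_dvd_mul_left h2'
    have e : a' - a * 1 ^ 2 = (a' - (C x - C w * X)) - (a - (C x - C w * X)) := by ring
    rw [e]
    exact dvd_sub h4' h4
  · have hw : w ≠ 0 := by
      rintro rfl
      apply hc
      have hx : x ≠ 0 := by simpa using hxw
      rw [C_0, zero_mul, sub_zero]
      exact ⟨0, C x⁻¹, by rw [zero_mul, zero_add, ← C_mul, inv_mul_cancel₀ hx, C_1]⟩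
    set r : F := x / w with hr
    have hlin : (C x - C w * X : F[X]) = -(C w) * (X - C r) := by
      have : (C x : F[X]) = C w * C r := by
        rw [← C_mul, hr, mul_div_cancel₀ _ hw]
      rw [this]
      ring
    have hdvd : X - C r ∣ up f F := by
      by_contra hnd
      apply hc
      have h1 : IsCoprime (X - C r) (up f F) :=
        (irreducible_X_sub_C r).coprime_iff_not_dvd.2 hnd
      rw [hlin]
      refine IsCoprime.mul_right ?_ h1.symm
      exact ⟨0, -C w⁻¹, by
        rw [zero_mul, zero_add, neg_mul_neg, ← C_mul, inv_mul_cancel₀ hw, C_1]⟩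
    obtain ⟨g, hg⟩ := hdvd
    have hcop : IsCoprime (X - C r) g := by
      rw [hg] at hsep
      exact hsep.isCoprime
    have hgr : g.eval r ≠ 0 := by
      intro h0
      have h1 : X - C r ∣ g := dvd_iff_isRoot.2 h0
      exact ((irreducible_X_sub_C r).coprime_iff_not_dvd.1 hcop) h1
    set e : F[X] := C (g.eval r)⁻¹ * g with he
    have hXf : X - C r ∣ up f F := ⟨g, hg⟩
    have hne : ∀ b : F[X], IsCoprime (up f F) b → b.eval r ≠ 0 := by
      intro b hb h0
      have h5 : X - C r ∣ b := dvd_iff_isRoot.2 h0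
      have h6 := hb.isUnit_of_dvd' hXf h5
      exact (irreducible_X_sub_C r).not_isUnit h6
    have ha0 := hne a h1
    have ha0' := hne a' h1'
    have hgq : IsCoprime g (C x - C w * X) := by
      rw [hlin]
      apply IsCoprime.mul_right _ hcop.symm
      exact ⟨0, -C w⁻¹, by
        rw [zero_mul, zero_add, neg_mul_neg, ← C_mul, inv_mul_cancel₀ hw, C_1]⟩
    have hgf : g ∣ up f F := ⟨X - C r, by rw [hg]; ring⟩
    have h4 : g ∣ a - (C x - C w * X) := hgq.dvd_of_dvd_mul_left (hgf.trans h2)
    have h4' : g ∣ a' - (C x - C w * X) := hgq.dvd_of_dvd_mul_left (hgf.trans h2')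
    have h5 : g ∣ a' - a := by
      have e : a' - a = (a' - (C x - C w * X)) - (a - (C x - C w * X)) := by ring
      rw [e]; exact dvd_sub h4' h4
    set u : F := a'.eval r / a.eval r with hu
    have hu0 : u ≠ 0 := div_ne_zero ha0' ha0
    have hge : g ∣ e := ⟨C (g.eval r)⁻¹, by rw [he]; ring⟩
    have hee : e.eval r = 1 := by rw [he, eval_mul, eval_C, inv_mul_cancel₀ hgr]
    have hmod : ∀ b : F[X], g ∣ b → b.eval r = 0 → up f F ∣ b := by
      intro b hb1 hb2
      rw [hg]
      exact hcop.mul_dvd (dvd_iff_isRoot.2 hb2) hb1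
    have h6 : up f F ∣ a' - a * (1 + C (u - 1) * e) := by
      apply hmod
      · have e1 : a' - a * (1 + C (u - 1) * e) = (a' - a) - e * (a * C (u - 1)) := by ring
        rw [e1]
        exact dvd_sub h5 (Dvd.dvd.mul_right hge _)
      · simp only [eval_sub, eval_mul, eval_add, eval_one, eval_C, hee, hu]
        field_simp
        ring
    have hN : Algebra.norm F (AdjoinRoot.mk (up f F) a') =
        Algebra.norm F (AdjoinRoot.mk (up f F) a) * u := by
      rw [AdjoinRoot.mk_eq_mk.2 h6, map_mul, map_mul]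
      congr 1
      rw [hg, he]
      exact norm_one_add g r u hgr
    have husq : IsSquare u := by
      obtain ⟨s, hs⟩ := h3
      obtain ⟨s', hs'⟩ := h3'
      have hNa : Algebra.norm F (AdjoinRoot.mk (up f F) a) ≠ 0 := norm_ne_zero_of_coprime _ _ h1
      have hs0 : s ≠ 0 := by
        rintro rfl
        rw [mul_zero] at hs
        push_cast at hs
        exact mul_ne_zero (mul_ne_zero hD' hlc) hNa hs
      refine ⟨s' / s, ?_⟩
      rw [hN, ← mul_assoc, hs] at hs'
      field_simp
      linear_combination hs'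
    obtain ⟨t, ht⟩ := husq
    have ht0 : t ≠ 0 := by rintro rfl; exact hu0 (by rw [ht]; ring)
    refine ⟨1 + C (t - 1) * e, ?_, ?_⟩
    · rw [hg]
      refine IsCoprime.mul_left ?_ ?_
      · rw [(irreducible_X_sub_C r).coprime_iff_not_dvd, dvd_iff_isRoot, IsRoot]
        simp only [eval_mul, eval_add, eval_one, eval_C, hee]
        intro h0
        apply ht0
        linear_combination h0
      · rw [he, ← mul_assoc]
        exact IsCoprime.add_mul_right_right isCoprime_one_right _
    · apply hmod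
      · have e1 : a' - a * (1 + C (t - 1) * e) ^ 2 =
            (a' - a) - e * (a * (2 * C (t - 1) + C (t - 1) ^ 2 * e)) := by ring
        rw [e1]
        exact dvd_sub h5 (Dvd.dvd.mul_right hge _)
      · simp only [eval_sub, eval_mul, eval_add, eval_one, eval_C, eval_pow, hee]
        have h7 : a'.eval r = a.eval r * (t * t) := by rw [← ht, hu]; field_simp
        rw [h7]; ring

end

/-- the local invariant does not depend on the choice of the value -/
theorem cor_isVal {f : ℤ[X]} (hf : Irreducible (f.map (Int.castRingHom ℚ))) (h2 : 2 ≤ f.natDegree)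
    {F : Type} [Field F] [CharZero F] [Infinite F] (hF : Hil F) {D : ℤ} (hD : D ≠ 0) (x w : F)
    (hxw : x ≠ 0 ∨ w ≠ 0) (a a' : F[X]) (h : IsVal f D x w a) (h' : IsVal f D x w a') (ε : F[X])
    (hε : IsCoprime (up f F) ε) : cor (up f F) a ε = cor (up f F) a' ε := by
  have hf0 : f ≠ 0 := by
    rintro rfl
    simp at h2
  obtain ⟨-, -, -, hsep, hdeg⟩ := Q247.EB.bc f hf F 1
  obtain ⟨c, hc, hd⟩ := isVal_unique hf0 hsep hD x w hxw a a' h h'
  obtain ⟨c1, c2, -⟩ := t_corp F hF (up f F) hsep (by rw [hdeg]; omega)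
  rw [c1 a' (a * c ^ 2) ε (ε * 1 ^ 2) hd (by simp), c2 a ε c 1 h.1 hε hc isCoprime_one_right]

end Pool.Agent.Q51.EB
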