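import Pool.Agent.Q51.EB.Up
import Pool.Agent.Q51.EB.Inv
import Pool.Agent.Q241.EB.WeilM
import Pool.Agent.Q68.EB.Solvm
import Pool.Agent.Q68.EB.Cntlm
import Pool.Agent.Q26.EB.Lowm

/-! # Project EB, part 2: the lower bound for the superelliptic twists -/

set_option autoImplicit false

namespace Pool.Agent.Q51.EB

open Pool.Agent

theorem t_solvm : S_SOLVM := Q68.EB.solvm Q241.EB.weilm
theorem t_lowm : S_LOWM := Q26.EB.lowm t_solvm Q154.EL.ch1 Q68.EB.cntlm

end Pool.Agent.Q51.EB
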