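import Pool.Agent.Q51.EB.Stm
import Pool.Agent.Q51.EL.Main

/-! # Project EB: assembly, part 1 (local lemmas) -/

set_option autoImplicit false

namespace Pool.Agent.Q51.EB

open Polynomial NumberField IsDedekindDomain Finset Pool.Agent.Q51.EL

/-- the invariant of `A_ε` at the adelic point, as a function on the places -/
noncomputable def iA {f : ℤ[X]} {D : ℤ} (P : AVal f D) (ε : ℚ[X]) : Option Nat.Primes → ℤˣ
  | none => cor (up f ℝ) P.re (ε.map (Rat.castHom ℝ))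
  | some p => cor (up f ℚ_[(p : ℕ)]) (P.pa p) (ε.map (Rat.castHom ℚ_[(p : ℕ)]))

/-- the invariant of `Cor (β, ε)`, as a function on the places -/
noncomputable def iG (f : ℤ[X]) (β ε : ℚ[X]) : Option Nat.Primes → ℤˣ
  | none => cor (up f ℝ) (β.map (Rat.castHom ℝ)) (ε.map (Rat.castHom ℝ))
  | some p => cor (up f ℚ_[(p : ℕ)]) (β.map (Rat.castHom ℚ_[(p : ℕ)]))
      (ε.map (Rat.castHom ℚ_[(p : ℕ)]))

lemma ramA_eq {f : ℤ[X]} {D : ℤ} (P : AVal f D) (ε : ℚ[X]) : ramA P ε = {v | iA P ε v = -1} := by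
  ext v; cases v <;> rfl

lemma ramG_eq (f : ℤ[X]) (β ε : ℚ[X]) : ramG f β ε = {v | iG f β ε v = -1} := by
  ext v; cases v <;> rfl

lemma prod_one {ι : Type} (φ : ι → ℤˣ) (hf : {v | φ v = -1}.Finite)
    (he : Even {v | φ v = -1}.ncard) (W : Finset ι) (hW : ∀ v, φ v = -1 → v ∈ W) :
    ∏ v ∈ W, φ v = 1 := by
  classical
  have h1 : ∏ v ∈ W, φ v = ∏ v ∈ W.filter (fun v => φ v = -1), φ v := by
    symm
    apply Finset.prod_filter_of_ne
    intro v _ hv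
    rcases Int.units_eq_one_or (φ v) with h | h
    · exact absurd h hv
    · exact h
  have h2 : ∏ v ∈ W.filter (fun v => φ v = -1), φ v = (-1) ^ (W.filter (fun v => φ v = -1)).card := by
    rw [← Finset.prod_const]
    exact Finset.prod_congr rfl (fun v hv => (Finset.mem_filter.mp hv).2)
  have h3 : (W.filter (fun v => φ v = -1)).card = {v | φ v = -1}.ncard := by
    rw [← Set.ncard_coe_finset]
    congr 1
    ext v
    simp only [Finset.coe_filter, Set.mem_ofPred_eq]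
    exact ⟨fun h => h.2, fun h => ⟨hW v h, h⟩⟩
  rw [h1, h2, h3]
  exact he.neg_one_pow

/-- the four functions agree with each other outside one place -/
lemma four {ι : Type} (a b a' b' : ι → ℤˣ) (ha : {v | a v = -1}.Finite ∧ Even {v | a v = -1}.ncard)
    (hb : {v | b v = -1}.Finite ∧ Even {v | b v = -1}.ncard)
    (ha' : {v | a' v = -1}.Finite ∧ Even {v | a' v = -1}.ncard)
    (hb' : {v | b' v = -1}.Finite ∧ Even {v | b' v = -1}.ncard) (q : ι)
    (h : ∀ v, v ≠ q → (a v = a' v ∧ b v = b' v) ∨ (a v = b v ∧ a' v = b' v)) :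
    a q * b q = a' q * b' q := by
  classical
  set W : Finset ι := insert q (ha.1.toFinset ∪ hb.1.toFinset ∪ ha'.1.toFinset ∪ hb'.1.toFinset)
    with hW
  have h1 := prod_one a ha.1 ha.2 W (fun v hv => by
    simp only [hW, mem_insert, Finset.mem_union, Set.Finite.mem_toFinset, Set.mem_ofPred_eq]; tauto)
  have h2 := prod_one b hb.1 hb.2 W (fun v hv => by
    simp only [hW, mem_insert, Finset.mem_union, Set.Finite.mem_toFinset, Set.mem_ofPred_eq]; tauto)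
  have h3 := prod_one a' ha'.1 ha'.2 W (fun v hv => by
    simp only [hW, mem_insert, Finset.mem_union, Set.Finite.mem_toFinset, Set.mem_ofPred_eq]; tauto)
  have h4 := prod_one b' hb'.1 hb'.2 W (fun v hv => by
    simp only [hW, mem_insert, Finset.mem_union, Set.Finite.mem_toFinset, Set.mem_ofPred_eq]; tauto)
  have hq : q ∈ W := by simp [hW]
  have h5 : ∏ v ∈ W, (a v * b v * (a' v * b' v)) = 1 := by
    rw [Finset.prod_mul_distrib, Finset.prod_mul_distrib, Finset.prod_mul_distrib, h1, h2, h3, h4]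
    simp
  have h6 : ∏ v ∈ W, (a v * b v * (a' v * b' v)) = a q * b q * (a' q * b' q) := by
    apply Finset.prod_eq_single_of_mem q hq
    intro v _ hv
    rcases h v hv with ⟨e1, e2⟩ | ⟨e1, e2⟩
    · rw [e1, e2]; exact Int.units_mul_self _
    · rw [e1, e2, Int.units_mul_self, Int.units_mul_self]; simp
  rw [h6] at h5
  have h7 : (a' q * b' q) * (a' q * b' q) = 1 := Int.units_mul_self _
  calc a q * b q = a q * b q * ((a' q * b' q) * (a' q * b' q)) := by rw [h7, mul_one]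
    _ = (a q * b q * (a' q * b' q)) * (a' q * b' q) := by simp only [mul_assoc]
    _ = a' q * b' q := by rw [h5, one_mul]

/-- `a` and `a'` have the same class modulo squares -/
def Same (f : ℤ[X]) (F : Type) [Field F] (a a' : F[X]) : Prop :=
  ∃ ρ c c' : F[X], IsCoprime (up f F) ρ ∧ IsCoprime (up f F) c ∧ IsCoprime (up f F) c' ∧
    up f F ∣ a - ρ * c ^ 2 ∧ up f F ∣ a' - ρ * c' ^ 2

lemma Same.cor_eq (hcorp : S_CORP) {f : ℤ[X]} {F : Type} [Field F] [Infinite F] (hF : Hil F)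
    (hs : (up f F).Separable) (hn : 1 ≤ (up f F).natDegree) {a a' : F[X]} (h : Same f F a a')
    {ε : F[X]} (hε : IsCoprime (up f F) ε) : cor (up f F) a ε = cor (up f F) a' ε := by
  obtain ⟨h1, h2, -, -⟩ := hcorp F hF (up f F) hs hn
  obtain ⟨ρ, c, c', hρ, hc, hc', hd, hd'⟩ := h
  have e1 : cor (up f F) a ε = cor (up f F) ρ ε := by
    rw [h1 a (ρ * c ^ 2) ε (ε * 1 ^ 2) hd (by simp),
      h2 ρ ε c 1 hρ hε hc isCoprime_one_right]
  have e2 : cor (up f F) a' ε = cor (up f F) ρ ε := by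
    rw [h1 a' (ρ * c' ^ 2) ε (ε * 1 ^ 2) hd' (by simp),
      h2 ρ ε c' 1 hρ hε hc' isCoprime_one_right]
  rw [e1, e2]

/-- a class function with finitely many values -/
lemma cls {f : ℤ[X]} {F : Type} [Field F] (h : ∃ R : Finset F[X], (∀ ρ ∈ R, IsCoprime (up f F) ρ) ∧
    ∀ a : F[X], IsCoprime (up f F) a → ∃ ρ ∈ R, ∃ c : F[X], IsCoprime (up f F) c ∧
      up f F ∣ a - ρ * c ^ 2) :
    ∃ (n : ℕ) (k : F[X] → Fin (n + 1)), ∀ a a' : F[X], IsCoprime (up f F) a →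
      IsCoprime (up f F) a' → k a = k a' → Same f F a a' := by
  classical
  obtain ⟨R, hR, hR'⟩ := h
  let e := R.equivFin
  refine ⟨R.card, fun a => if ha : IsCoprime (up f F) a then
    (Fin.castSucc (e ⟨_, (Classical.choose_spec (hR' a ha)).1⟩)) else Fin.last _, ?_⟩
  intro a a' ha ha' hk
  simp only [ha, ha', dif_pos] at hk
  have h1 := Fin.castSucc_injective _ hk
  have h2 := e.injective h1
  have h3 : Classical.choose (hR' a ha) = Classical.choose (hR' a' ha') := by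
    simpa using congrArg Subtype.val h2
  obtain ⟨m1, c, hc, hd⟩ := Classical.choose_spec (hR' a ha)
  obtain ⟨m2, c', hc', hd'⟩ := Classical.choose_spec (hR' a' ha')
  rw [← h3] at hd'
  exact ⟨_, c, c', hR _ m1, hc, hc', hd, hd'⟩

section L

variable {L : Type} [Field L] [NumberField L]

/-- no prime lies above two different prime numbers -/
lemma abv_unique {v : HeightOneSpectrum (𝓞 L)} {p q : ℕ} (hp : p.Prime) (hq : q.Prime)
    (h : Abv v p) (h' : Abv v q) : p = q := by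
  by_contra hne
  have hc : p.Coprime q := (Nat.coprime_primes hp hq).mpr hne
  have h1 : IsCoprime (p : ℤ) (q : ℤ) := Nat.isCoprime_iff_coprime.mpr hc
  obtain ⟨a, b, hab⟩ := h1
  apply v.isPrime.ne_top
  rw [Ideal.eq_top_iff_one]
  have h2 : ((a : 𝓞 L) * (p : 𝓞 L) + (b : 𝓞 L) * (q : 𝓞 L)) = 1 := by exact_mod_cast congrArg (Int.cast : ℤ → 𝓞 L) hab
  rw [← h2]
  exact Ideal.add_mem _ (Ideal.mul_mem_left _ _ h) (Ideal.mul_mem_left _ _ h')

lemma abv_not {v : HeightOneSpectrum (𝓞 L)} {p B : ℕ} (hp : p.Prime) (hB : ¬ p ∣ B)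
    (h : Abv v p) : (B : 𝓞 L) ∉ v.asIdeal := by
  intro h'
  have hc : p.Coprime B := (Nat.Prime.coprime_iff_not_dvd hp).mpr hB
  obtain ⟨a, b, hab⟩ := Nat.isCoprime_iff_coprime.mpr hc
  apply v.isPrime.ne_top
  rw [Ideal.eq_top_iff_one]
  have h2 : ((a : 𝓞 L) * (p : 𝓞 L) + (b : 𝓞 L) * (B : 𝓞 L)) = 1 := by exact_mod_cast congrArg (Int.cast : ℤ → 𝓞 L) hab
  rw [← h2]
  exact Ideal.add_mem _ (Ideal.mul_mem_left _ _ h) (Ideal.mul_mem_left _ _ h')

/-- `L = ℚ(θ)` -/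
structure Dat (f : ℤ[X]) (L : Type) [Field L] [NumberField L] (θ : L) : Prop where
  set : Setup f L θ
  norm : ∀ d : ℚ[X], Algebra.norm ℚ (aeval θ d) = Algebra.norm ℚ (AdjoinRoot.mk (up f ℚ) d)
  surj : ∀ x : L, ∃ d : ℚ[X], aeval θ d = x
  zero : ∀ d : ℚ[X], IsCoprime (up f ℚ) d ↔ aeval θ d ≠ 0

/-- the local data of the values at a good prime -/
def LocS (f : ℤ[X]) (θ : L) (D : ℤ) (l : ℕ) [Fact l.Prime] (a : ℚ_[l][X])
    (S : Set (HeightOneSpectrum (𝓞 L))) : Prop :=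
  Pat f θ l a (S.indicator (fun _ => (1 : ℤ))) ∧
    ((¬ (l : ℤ) ∣ D ∧ S = ∅) ∨
      ((l : ℤ) ∣ D ∧ ∃ v0, Abv v0 l ∧ Ideal.absNorm v0.asIdeal = l ∧ S = {v0}))

lemma loc (hapx : S_APX) (hvc : S_VC) {f : ℤ[X]} {θ : L} (hd : Dat f L θ) (l : ℕ) [Fact l.Prime]
    (hscl : ∀ (d : ℚ[X]) (D : ℤ), aeval θ d ≠ 0 → Squarefree D →
      IsSquare (((D * f.leadingCoeff : ℤ) : ℚ_[l]) *
        ((Algebra.norm ℚ (aeval θ d) : ℚ) : ℚ_[l])) → CovPt f d ℚ_[l] → ∃ e : ℤ,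
      (¬ (l : ℤ) ∣ D ∧ ∀ v : HeightOneSpectrum (𝓞 L), Abv v l → Par v (aeval θ d) e) ∨
      ((l : ℤ) ∣ D ∧ ∃ v0 : HeightOneSpectrum (𝓞 L), Abv v0 l ∧ Ideal.absNorm v0.asIdeal = l ∧
        Par v0 (aeval θ d) (e + 1) ∧
        ∀ v : HeightOneSpectrum (𝓞 L), Abv v l → v ≠ v0 → Par v (aeval θ d) e))
    (D : ℤ) (hD : Squarefree D) (a : ℚ_[l][X]) (ha : Val f D ℚ_[l] a) :
    ∃ S : Set (HeightOneSpectrum (𝓞 L)), LocS f θ D l a S := by
  have hcop : IsCoprime (up f ℚ_[l]) a := by obtain ⟨x, w, y, -, -, h, -⟩ := ha; exact h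
  obtain ⟨α, c, hα, hc, hdvd⟩ := (hapx f hd.set.irr l).1 a hcop
  obtain ⟨hcov, hsq⟩ := hvc f hd.set.irr D ℚ_[l] a c α ha hc hdvd
  obtain ⟨e, he⟩ := hscl α D ((hd.zero α).mp hα) hD (by rw [hd.norm]; exact hsq) hcov
  rcases he with ⟨h1, h2⟩ | ⟨h1, v0, h2, h3, h4, h5⟩
  · refine ⟨∅, ⟨α, c, e, hα, hc, hdvd, fun v hv => ?_⟩, Or.inl ⟨h1, rfl⟩⟩
    simpa using h2 v hv
  · refine ⟨{v0}, ⟨α, c, e, hα, hc, hdvd, fun v hv => ?_⟩, Or.inr ⟨h1, v0, h2, h3, rfl⟩⟩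
    by_cases hvv : v = v0
    · subst hvv; simpa using h4
    · rw [Set.indicator_of_notMem (by simpa using hvv), add_zero]
      exact h5 v hv hvv

/-- the representative `β` of the values at the good primes -/
def Rep (f : ℤ[X]) (θ : L) (B : ℕ) (D : ℤ) (P : AVal f D) (β : 𝓞 L) : Prop :=
  β ≠ 0 ∧ ∀ p : Nat.Primes, ¬ (p : ℕ) ∣ B → ∃ S : Set (HeightOneSpectrum (𝓞 L)),
    LocS f θ D (p : ℕ) (P.pa p) S ∧ ∀ v : HeightOneSpectrum (𝓞 L), Abv v (p : ℕ) →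
      (v ∈ S → v.valuation L (β : L) = WithZero.exp (-1 : ℤ)) ∧
      (v ∉ S → v.valuation L (β : L) = 1)

/-- existence of the representative, in a box -/
lemma exists_rep {f : ℤ[X]} {θ : L} (B : ℕ) (C : ℝ)
    (hidl : ∀ S : Finset (HeightOneSpectrum (𝓞 L)), (∀ v ∈ S, (B : 𝓞 L) ∉ v.asIdeal) →
      ∃ α : 𝓞 L, α ≠ 0 ∧
        (∀ v : HeightOneSpectrum (𝓞 L), (B : 𝓞 L) ∉ v.asIdeal →
          (v ∈ S → v.valuation L (α : L) = WithZero.exp (-1 : ℤ)) ∧
          (v ∉ S → v.valuation L (α : L) = 1)) ∧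
        ∀ σ : L →+* ℂ, ‖σ (α : L)‖ ≤
          C * ((∏ v ∈ S, Ideal.absNorm v.asIdeal : ℕ) : ℝ) ^ ((1 : ℝ) / Module.finrank ℚ L))
    (hC : 0 < C) (D : ℤ) (hD : Squarefree D) (P : AVal f D)
    (hloc : ∀ p : Nat.Primes, ¬ (p : ℕ) ∣ B → ∃ S : Set (HeightOneSpectrum (𝓞 L)),
      LocS f θ D (p : ℕ) (P.pa p) S) :
    ∃ β : 𝓞 L, Rep f θ B D P β ∧ ∀ σ : L →+* ℂ, ‖σ (β : L)‖ ≤
      C * (D.natAbs : ℝ) ^ ((1 : ℝ) / Module.finrank ℚ L) := by
  classical
  choose! Sf hSf using hloc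
  have hv0 : ∀ p : Nat.Primes, ¬ (p : ℕ) ∣ B → ((p : ℕ) : ℤ) ∣ D →
      ∃ v0 : HeightOneSpectrum (𝓞 L), Abv v0 (p : ℕ) ∧ Ideal.absNorm v0.asIdeal = (p : ℕ) ∧
        Sf p = {v0} := by
    intro p hp hpD
    rcases (hSf p hp).2 with h | h
    · exact absurd hpD h.1
    · exact h.2
  let Q : Finset ℕ := D.natAbs.primeFactors.filter (fun q => ¬ q ∣ B)
  have hQp : ∀ q ∈ Q, q.Prime := fun q hq => Nat.prime_of_mem_primeFactors (mem_filter.mp hq).1
  have hQD : ∀ q ∈ Q, (q : ℤ) ∣ D := fun q hq =>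
    Int.natCast_dvd.mpr (Nat.dvd_of_mem_primeFactors (mem_filter.mp hq).1)
  have hQB : ∀ q ∈ Q, ¬ q ∣ B := fun q hq => (mem_filter.mp hq).2
  have hv : ∀ q : {q // q ∈ Q}, ∃ v0 : HeightOneSpectrum (𝓞 L), Abv v0 (q : ℕ) ∧
      Ideal.absNorm v0.asIdeal = (q : ℕ) ∧ Sf ⟨q, hQp q q.2⟩ = {v0} :=
    fun q => hv0 ⟨q, hQp q q.2⟩ (hQB q q.2) (hQD q q.2)
  choose v0 hv1 hv2 hv3 using hv
  have hinj : Function.Injective v0 := by
    intro q q' h
    apply Subtype.ext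
    rw [← hv2 q, ← hv2 q', h]
  let S : Finset (HeightOneSpectrum (𝓞 L)) := Q.attach.image v0
  have hprod : ∏ v ∈ S, Ideal.absNorm v.asIdeal ≤ D.natAbs := by
    have h1 : ∏ v ∈ S, Ideal.absNorm v.asIdeal = ∏ q ∈ Q.attach, (q : ℕ) := by
      rw [Finset.prod_image (fun a _ b _ h => hinj h)]
      exact Finset.prod_congr rfl (fun q _ => hv2 q)
    have h2 : ∏ q ∈ Q.attach, (q : ℕ) = ∏ q ∈ Q, q := Finset.prod_attach Q (fun q => q)
    rw [h1, h2]
    apply Nat.le_of_dvd (Int.natAbs_pos.mpr hD.ne_zero)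
    exact (Finset.prod_dvd_prod_of_subset _ _ _ (Finset.filter_subset _ _)).trans
      (Nat.prod_primeFactors_dvd _)
  obtain ⟨β, hβ0, hβv, hβσ⟩ := hidl S (by
    intro v hvS
    obtain ⟨q, -, rfl⟩ := Finset.mem_image.mp hvS
    exact abv_not (hQp q q.2) (hQB q q.2) (hv1 q))
  refine ⟨β, ⟨hβ0, fun p hp => ⟨Sf p, hSf p hp, fun v hvp => ?_⟩⟩, fun σ => (hβσ σ).trans ?_⟩
  · have hS : v ∈ S ↔ v ∈ Sf p := by
      constructor
      · intro h
        obtain ⟨q, -, rfl⟩ := Finset.mem_image.mp h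
        have hqp : (q : ℕ) = p := abv_unique (hQp q q.2) p.2 (hv1 q) hvp
        have : (⟨q, hQp q q.2⟩ : Nat.Primes) = p := Subtype.ext hqp
        rw [← this, hv3 q]; rfl
      · intro h
        rcases (hSf p hp).2 with h' | h'
        · rw [h'.2] at h; exact absurd h (Set.notMem_empty _)
        · have hpQ : (p : ℕ) ∈ Q := by
            simp only [Q, mem_filter, Nat.mem_primeFactors]
            exact ⟨⟨p.2, Int.natCast_dvd.mp h'.1, by simpa using hD.ne_zero⟩, hp⟩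
          have h3 := hv3 ⟨p, hpQ⟩
          have h4 : Sf p = {v0 ⟨p, hpQ⟩} := h3
          rw [h4, Set.mem_singleton_iff] at h
          rw [h]
          exact Finset.mem_image.mpr ⟨_, Finset.mem_attach _ _, rfl⟩
    have h1 := hβv v (abv_not p.2 hp hvp)
    rw [hS] at h1
    exact h1
  · gcongr

end L

end Pool.Agent.Q51.EB
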