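import Pool.Agent.Q51.EL.Def
import Pool.Agent.W313.BMX.Stm

/-!
# Project EB (helper51): the Brauer-Manin set of the everywhere locally soluble twists, definitions

`f ∈ ℤ[X]` is irreducible over `ℚ`, of even degree, `L = ℚ[X]/(f) = ℚ(θ)`, `C_D : D y² = F(x, w)`.  For
`ε ∈ L^*` with `N(ε)` a square the class `A_ε = Cor_{L/ℚ} (x - θ w, ε)` lies in `Br(C_D)`.  Its local
invariant at a point is computed from the Hasse-Witt invariants of trace forms (Serre):
for `a, b` in an etale algebra `A` over a local field `F` and `q_u(z) = Tr (u z²)`,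
`inv Cor_{A/F} (a, b) = s(q_{ab}) s(q_a) s(q_b) s(q_1) (N a, N b)`.
-/

set_option autoImplicit false

namespace Pool.Agent.Q51.EB

open Polynomial NumberField IsDedekindDomain Finset Pool.Agent.Q51.EL
open Pool.Agent.W313.BMX (Splits)

section local_

variable {F : Type} [Field F]

open Classical in
/-- the Hilbert symbol: `1` if `z² = a x² + b y²` has a nonzero solution, otherwise `-1` -/
noncomputable def hs (a b : F) : ℤˣ := if Splits a b then 1 else -1

/-- `s` is the Hasse-Witt invariant `∏_{i < j} (a i, a j)` of the symmetric matrix `M`, computed with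
some orthogonal basis -/
def HW {n : ℕ} (M : Matrix (Fin n) (Fin n) F) (s : ℤˣ) : Prop :=
  ∃ (P : Matrix (Fin n) (Fin n) F) (a : Fin n → F), P.det ≠ 0 ∧ (∀ i, a i ≠ 0) ∧
    P.transpose * M * P = Matrix.diagonal a ∧ s = ∏ i, ∏ j ∈ Ioi i, hs (a i) (a j)

open Classical in
/-- the Hasse-Witt invariant -/
noncomputable def hw {n : ℕ} (M : Matrix (Fin n) (Fin n) F) : ℤˣ :=
  if h : ∃ s, HW M s then Classical.choose h else 1

/-- the matrix of the quadratic form `Tr (u z²)` on `F[X]/(f)` in the basis `1, X, .., X^(n-1)` -/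
noncomputable def gram (f u : F[X]) : Matrix (Fin f.natDegree) (Fin f.natDegree) F :=
  fun i j => Algebra.trace F (AdjoinRoot f) (AdjoinRoot.mk f (u * X ^ ((i : ℕ) + j)))

/-- the local invariant of the corestriction of the class of the quaternion algebra `(a, b)` -/
noncomputable def cor (f a b : F[X]) : ℤˣ :=
  hw (gram f (a * b)) * hw (gram f a) * hw (gram f b) * hw (gram f 1) *
    hs (Algebra.norm F (AdjoinRoot.mk f a)) (Algebra.norm F (AdjoinRoot.mk f b))

end local_

/-- `f` as a polynomial over `F` -/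
noncomputable abbrev up (f : ℤ[X]) (F : Type) [Field F] : F[X] := f.map (Int.castRingHom F)

/-- the element `a(θ)` of `F[X]/(f)` is the value of `x - θ w` at a point of `C_D` over `F`; at the
branch points, where `x - θ w` vanishes in one component, this component is determined up to squares
by the condition that `D * lc * N(a(θ))` is a square -/
def Val (f : ℤ[X]) (D : ℤ) (F : Type) [Field F] (a : F[X]) : Prop :=
  ∃ x w y : F, (x ≠ 0 ∨ w ≠ 0) ∧ (D : F) * y ^ 2 = hom f x w ∧ IsCoprime (up f F) a ∧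
    up f F ∣ (C x - C w * X) * (a - (C x - C w * X)) ∧
    IsSquare (((D * f.leadingCoeff : ℤ) : F) * Algebra.norm F (AdjoinRoot.mk (up f F) a))

/-- the values of `x - θ w` at an adelic point of `C_D` -/
structure AVal (f : ℤ[X]) (D : ℤ) where
  re : ℝ[X]
  hre : Val f D ℝ re
  pa : ∀ p : Nat.Primes, ℚ_[(p : ℕ)][X]
  hpa : ∀ p : Nat.Primes, Val f D ℚ_[(p : ℕ)] (pa p)

/-- the places of `ℚ` (`none` is the real one) where the invariant of `A_ε` at the adelic point is
`-1` -/
def ramA {f : ℤ[X]} {D : ℤ} (P : AVal f D) (ε : ℚ[X]) : Set (Option Nat.Primes) :=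
  {v | match v with
    | none => cor (up f ℝ) P.re (ε.map (Rat.castHom ℝ)) = -1
    | some p => cor (up f ℚ_[(p : ℕ)]) (P.pa p) (ε.map (Rat.castHom ℚ_[(p : ℕ)])) = -1}

/-- `ε(θ)` is invertible and has square norm -/
def SqN (f : ℤ[X]) (ε : ℚ[X]) : Prop :=
  IsCoprime (up f ℚ) ε ∧ IsSquare (Algebra.norm ℚ (AdjoinRoot.mk (up f ℚ) ε))

/-- the adelic point is orthogonal to all classes `A_ε` -/
def Orth {f : ℤ[X]} {D : ℤ} (P : AVal f D) : Prop :=
  ∀ ε : ℚ[X], SqN f ε → (ramA P ε).Finite ∧ Even (ramA P ε).ncard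

end Pool.Agent.Q51.EB
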