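import Pool.Agent.Q51.EB.All

/-! # Project EB: the pairing is well defined -/

set_option autoImplicit false

namespace Pool.Agent.Q51.EB

open Polynomial NumberField IsDedekindDomain Finset Pool.Agent.Q51.EL Pool.Agent.Q239.EL Pool.Agent

/-- almost all local invariants of `A_ε` at an adelic point are trivial -/
theorem fin_ramA (f : ℤ[X]) (hf : Irreducible (f.map (Int.castRingHom ℚ))) (hev2 : Even f.natDegree)
    (h2 : 2 ≤ f.natDegree) (D : ℤ) (hD : Squarefree D) (P : AVal f D) (ε : ℚ[X]) (hε : SqN f ε) :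
    (ramA P ε).Finite := by
  classical
  have : Fact (Irreducible (f.map (Int.castRingHom ℚ))) := ⟨hf⟩
  set L := AdjoinRoot (f.map (Int.castRingHom ℚ)) with hL
  have hfd : FiniteDimensional ℚ L := PowerBasis.finite (AdjoinRoot.powerBasis hf.ne_zero)
  have : CharZero L := algebraRat.charZero L
  have : NumberField L := { to_charZero := inferInstance, to_finiteDimensional := hfd }
  set θ : L := AdjoinRoot.root (f.map (Int.castRingHom ℚ)) with hθ
  have hnd : (f.map (Int.castRingHom ℚ)).natDegree = f.natDegree :=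
    natDegree_map_eq_of_injective (Int.castRingHom ℚ).injective_int f
  have hset : Setup f L θ := by
    refine ⟨hf, ?_, ?_⟩
    · have h1 := AdjoinRoot.eval₂_root (f.map (Int.castRingHom ℚ))
      rw [eval₂_map] at h1
      rw [aeval_def, ← h1]
      congr 1
    · rw [(AdjoinRoot.powerBasis hf.ne_zero).finrank, AdjoinRoot.powerBasis_dim, hnd]
  have hdat : Dat f L θ := ⟨hset, norm_up hset, surj_up hset, zero_up hset⟩
  obtain ⟨B1, hB1, hscl⟩ := scl f L θ hset hev2
  obtain ⟨B2, hB2, hgd⟩ := t_gd f L θ hset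
  have hε0 : aeval θ ε ≠ 0 := (zero_up hset ε).mp hε.1
  obtain ⟨x, y, hy0, hxy⟩ := exists_ratio (aeval θ ε)
  have hx0 : x ≠ 0 := by
    rintro rfl
    exact mul_ne_zero hε0 (coe_ne hy0) (by rw [hxy]; simp)
  set N : ℕ := Ideal.absNorm (Ideal.span {x}) * Ideal.absNorm (Ideal.span {y}) with hN
  have hN0 : N ≠ 0 := by
    apply mul_ne_zero
    · rw [Ne, Ideal.absNorm_eq_zero_iff]; exact span_ne hx0
    · rw [Ne, Ideal.absNorm_eq_zero_iff]; exact span_ne hy0
  set M : ℕ := B1 * B2 * D.natAbs * N with hM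
  have hM0 : M ≠ 0 := by
    have := Int.natAbs_ne_zero.mpr hD.ne_zero
    positivity
  have hfin : ({none} ∪ (some '' {p : Nat.Primes | (p : ℕ) ∣ M}) : Set (Option Nat.Primes)).Finite := by
    apply (Set.finite_singleton _).union
    apply Set.Finite.image
    apply Set.Finite.of_finite_image (f := fun p : Nat.Primes => (p : ℕ))
    · apply (Set.finite_Iic M).subset
      rintro _ ⟨p, hp, rfl⟩
      exact Nat.le_of_dvd (Nat.pos_of_ne_zero hM0) hp
    · intro p _ q _ h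
      exact Subtype.ext h
  apply hfin.subset
  intro v hv
  match v with
  | none => left; rfl
  | some p =>
    right
    refine ⟨p, ?_, rfl⟩
    by_contra hpM
    have hpM' : ¬ (p : ℕ) ∣ M := hpM
    have hp1 : ¬ (p : ℕ) ∣ B1 := fun h => hpM' (h.trans ⟨B2 * D.natAbs * N, by rw [hM]; ring⟩)
    have hp2 : ¬ (p : ℕ) ∣ B2 := fun h => hpM' (h.trans ⟨B1 * D.natAbs * N, by rw [hM]; ring⟩)
    have hp3 : ¬ ((p : ℕ) : ℤ) ∣ D := fun h =>
      hpM' ((Int.natCast_dvd.mp h).trans ⟨B1 * B2 * N, by rw [hM]; ring⟩)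
    have hp4 : ¬ (p : ℕ) ∣ N := fun h => hpM' (h.trans ⟨B1 * B2 * D.natAbs, by rw [hM]; ring⟩)
    obtain ⟨S, hS⟩ := loc t_apx t_vc hdat (p : ℕ) (hscl (p : ℕ) hp1) D hD _ (P.hpa p)
    have hS0 : S = ∅ := by
      rcases hS.2 with h | h
      · exact h.2
      · exact absurd h.1 hp3
    have hpat := hS.1
    rw [hS0] at hpat
    have hcop : IsCoprime (up f ℚ_[(p : ℕ)]) (P.pa p) := by
      obtain ⟨x, w, y, -, -, h, -⟩ := P.hpa p; exact h
    have hunit : ∀ (v : HeightOneSpectrum (𝓞 L)) (z : 𝓞 L), Abv v (p : ℕ) →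
        ¬ (p : ℕ) ∣ Ideal.absNorm (Ideal.span {z}) → v.valuation L (z : L) = 1 := by
      intro v z hvp hz
      have h1 : v.valuation L (z : L) ≤ 1 := v.valuation_le_one z
      refine le_antisymm h1 (not_lt.mp (fun h => hz ?_))
      have h2 : z ∈ v.asIdeal := (v.valuation_lt_one_iff_mem z).mp h
      have h3 : ((Ideal.absNorm (Ideal.span {z}) : ℕ) : 𝓞 L) ∈ v.asIdeal :=
        ((Ideal.span_singleton_le_iff_mem _).mpr h2) (Ideal.absNorm_mem _)
      have h4 := (int_mem_iff p.2 hvp ((Ideal.absNorm (Ideal.span {z}) : ℕ) : ℤ)).mp (by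
        exact_mod_cast h3)
      exact_mod_cast h4
    have hε1 : ∀ v : HeightOneSpectrum (𝓞 L), Abv v (p : ℕ) → v.valuation L (aeval θ ε) = 1 := by
      intro v hvp
      have h1 := hunit v x hvp (fun h => hp4 (h.trans ⟨_, rfl⟩))
      have h2 := hunit v y hvp (fun h => hp4 (h.trans ⟨_, by rw [hN, mul_comm]⟩))
      have h3 := congrArg (v.valuation L) hxy
      rw [map_mul, h2, mul_one] at h3
      rw [h3]; exact h1
    have h1 := hgd (p : ℕ) hp2 (P.pa p) 1 ε _ hpat hcop (by simp) hε (fun v hvp => ⟨by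
      rw [Set.indicator_of_notMem (Set.notMem_empty v)]
      exact ⟨0, by simp⟩, ⟨0, by rw [hε1 v hvp]; simp⟩⟩)
    obtain ⟨-, -, -, hsep, hdeg⟩ := Q247.EB.bc f hf ℚ_[(p : ℕ)] ε
    have h3 := (t_corp ℚ_[(p : ℕ)] (Q247.EB.bil.2 (p : ℕ)) (up f ℚ_[(p : ℕ)]) hsep
      (by rw [hdeg]; omega)).2.2.2 _ (cop_map (F := ℚ_[(p : ℕ)]) hε.1)
    rw [Polynomial.map_one, h3] at h1
    have h4 : cor (up f ℚ_[(p : ℕ)]) (P.pa p) (ε.map (Rat.castHom ℚ_[(p : ℕ)])) = -1 := hv
    rw [h1] at h4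
    exact absurd h4 (by decide)

end Pool.Agent.Q51.EB
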