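import Pool.Agent.Q51.EB.Def

/-!
# Project EB (helper51): the Brauer-Manin sets of 100% of the everywhere locally soluble twists are empty

GOAL (`S_EBMAIN`).  `f ∈ ℤ[X]` irreducible over `ℚ`, of even degree `n ≥ 6`.  For all but a proportion
`O((log X) ^ (-δ))` of the squarefree `D`, `|D| ≤ X`, for which `C_D : D y² = F(x, w)` is everywhere locally
soluble, no adelic point of `C_D` is orthogonal to the classes `A_ε = Cor_{L/ℚ} (x - θ w, ε)`,
`ε ∈ L^*`, `N(ε)` a square.

PROOF.  Let `(a_v)` be the values of `x - θ w` at an orthogonal adelic point of `C_D`.  For a good prime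
`l ∣ D` the element `a_l` has odd valuation at exactly one prime `v0(l)` above `l`, of degree one.  Let
`β = β_D ∈ 𝓞 L` have the ideal `∏_{l ∣ D} v0(l)` up to a bounded factor, and small conjugates (`S_IDL`).  Let
`q ∣ D` be good and `T` a set of primes above `q`, `v0(q) ∉ T`, of even total degree, and let `ε` have odd
valuations exactly at `T` outside a finite set of primes, and square norm (`S_EPS`).  Compare the
orthogonality of `(a_v)` and `A_ε` with the product formula for `β` and `ε` (`S_PFC`): at the good primes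
`l ≠ q` both invariants are equal (`S_GD`), at the bad places they depend only on the classes of `a_v` and
`β` modulo squares, finite data `b` (`S_FIN`), and the quotient at `q` is given by the tame formula
(`S_CT`, `S_QD`).  So for two `D`, `D'` with the same data `b` and a common `v0(q)` we get
`∏_{v ∈ T} (β β' / v) = 1` for all `T`, and by `S_CHR` `β β'` is a square up to an integer modulo all primes
`v ≠ v0(q)` above `q`: the set of the `β_D` with data `b` satisfies the hypotheses of the large sieve bound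
`S_CORE` of project EL (proved).
-/

set_option autoImplicit false

namespace Pool.Agent.Q51.EB

open Polynomial NumberField IsDedekindDomain Finset Pool.Agent.Q51.EL
open Pool.Agent.W313.BMX (Splits)

/-! ## Part A: Hilbert symbols and Hasse-Witt invariants -/

/-- the properties of the Hilbert symbol of a local field -/
structure Hil (F : Type) [Field F] : Prop where
  two : (2 : F) ≠ 0
  bil : ∀ a b c : F, a ≠ 0 → b ≠ 0 → c ≠ 0 → hs a (b * c) = hs a b * hs a c

/-- JOB BIL. Bilinearity of the Hilbert symbols over `ℝ` and `ℚ_p`.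
Proof.  `Pool.Agent.W215.HB.bilo_` (`S_BILO`, odd `p`) and `Pool.Agent.W864.HB.bilt_` (`S_BILT`, `p = 2`) for
integers; every element of `ℚ_p^*` is an integer times a square (`S_ODD4` of `W313.BMX`, proved in
`W335.BMX.Odd`), and `Splits` depends only on the classes modulo squares (`W928.BMX.splits_sq`,
`splits_comm`).  `Splits a (b c) ↔ (Splits a b ↔ Splits a c)` is the multiplicativity of `hs`.  Real case:
`Splits a b ↔ 0 < a ∨ 0 < b` for `a, b ≠ 0`. -/
def S_BIL : Prop := Hil ℝ ∧ ∀ (p : ℕ) [Fact p.Prime], Hil ℚ_[p]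

/-- JOB WD. The Hasse-Witt invariant is well defined.
Proof (Serre, Cours d'arithmetique, IV, Theoreme 5).  Rules: `hs a b = hs b a`, `hs (a c²) b = hs a b`,
`hs a (-a) = 1`, bilinearity.  It suffices to show for two orthogonal bases `e`, `e'` of a nondegenerate
quadratic space `(V, Q)` of dimension `n` over `F` that `s(e) = s(e')`, `s(e) = ∏_{i<j} (Q(e_i), Q(e_j))`.
`s(e)` does not change under permutations of `e`.  `n ≤ 1` trivial.  `n = 2`: `s(e) = 1` iff
`z² = a_1 x² + a_2 y²` has a nonzero solution iff the form represents `1` (if it has a solution with `z = 0`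
the form is isotropic and nondegenerate, so it represents everything), and this does not depend on `e`.
`n ≥ 3`: contiguous bases (with a common vector; permute it to the first place):
`s(e) = (Q(e_1), ∏_{j≥2} Q(e_j)) * ∏_{2≤i<j} (Q(e_i), Q(e_j))`; the first factor depends only on the
discriminant, the second one is the invariant of the orthogonal complement of `e_1`, induction.  Any two
orthogonal bases are connected by a chain of contiguous ones (Serre IV.1.4, Theoreme 2): if the plane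
`⟨e_1, e'_1⟩` is nondegenerate, take `ε_2, ε'_2` in it with `⟨e_1, ε_2⟩`, `⟨e'_1, ε'_2⟩` orthogonal bases of
it, and an orthogonal basis `h` of its orthogonal complement: `e ~ (e_1, ε_2, h) ~ (e'_1, ε'_2, h) ~ e'`
(`h ≠ ∅` as `n ≥ 3`); similarly for `e'_2`; if both planes `⟨e_1, e'_1⟩`, `⟨e_1, e'_2⟩` are degenerate, i.e.
`Q(e_1) Q(e'_i) = (e_1 . e'_i)²`, `i = 1, 2`, then for `x ≠ 0`, `x² ≠ ...` suitable (`F` is infinite)
`e_x = e'_1 + x e'_2` is anisotropic and spans a nondegenerate plane with `e_1`, and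
`e' ~ (e_x, e''_2, e'_3, ..)` (as `n ≥ 3` there is a common vector) reduces to the first case.
(Any other proof is fine: e.g. induction through Witt cancellation.) `F` has characteristic `≠ 2`
(`Hil.two`) and is infinite. -/
def S_WD : Prop := ∀ (F : Type) [Field F] [Infinite F], Hil F → ∀ (n : ℕ)
  (M : Matrix (Fin n) (Fin n) F) (s s' : ℤˣ), HW M s → HW M s' → s = s'

/-- JOB DIAG. Orthogonal bases exist (Mathlib: `LinearMap.BilinForm.exists_orthogonal_basis` or
`Matrix.toBilin'`; or by hand). -/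
def S_DIAG : Prop := ∀ (F : Type) [Field F], (2 : F) ≠ 0 → ∀ (n : ℕ) (M : Matrix (Fin n) (Fin n) F),
  M.IsSymm → M.det ≠ 0 → ∃ (P : Matrix (Fin n) (Fin n) F) (a : Fin n → F), P.det ≠ 0 ∧
    (∀ i, a i ≠ 0) ∧ P.transpose * M * P = Matrix.diagonal a

/-- JOB HWP. Properties of the Hasse-Witt invariant.
Proof (from `S_WD`, `S_DIAG`).  (1) `HW M s → hw M = s` by `S_WD`.  (2) congruent matrices have the same
orthogonal bases.  (3) If `Pᵀ M P = diag(a)` then `Pᵀ (l M) P = diag(l a)`, and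
`∏_{i<j} (l a_i, l a_j) = ∏_{i<j} (l, l) (l, a_i a_j) (a_i, a_j)`, every `a_i` occurs `n - 1` times and
`∏ a_i = det M * (det P)²`. -/
def S_HWP : Prop := ∀ (F : Type) [Field F] [Infinite F], Hil F → ∀ (n : ℕ)
  (M : Matrix (Fin n) (Fin n) F), M.IsSymm → M.det ≠ 0 →
  (∀ s, HW M s → hw M = s) ∧ HW M (hw M) ∧
  (∀ Q : Matrix (Fin n) (Fin n) F, Q.det ≠ 0 → hw (Q.transpose * M * Q) = hw M) ∧
  ∀ l : F, l ≠ 0 → hw (l • M) = hs l l ^ (n * (n - 1) / 2) * hs l M.det ^ (n - 1) * hw M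

/-- JOB GRAM. The matrices of the trace forms.
Proof.  `gram f u i j = Tr(u θ^i θ^j)`.  `(gram f (u c))_{ij} = ∑_k Tr(u θ^i θ^k) (M_c)_{kj}`, `M_c` the matrix of
the multiplication by `c` in the basis `θ^j` (`AdjoinRoot.powerBasis`), so `gram f (u c) = gram f u * M_c`,
and `gram f (u c²) = M_cᵀ * gram f u * M_c`; `det M_c` is the norm.  `det (gram f 1)` is the discriminant of the
power basis, nonzero since `f` is separable (`Algebra.discr`; or: the trace form of a separable algebra is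
nondegenerate; `f` may be reducible, so be careful which lemma of Mathlib is used; the matrix is
`VᵀV` for the Vandermonde matrix `V` of the roots in a splitting field).  The last point: `a` is coprime to
`f` iff its class is invertible iff the multiplication is bijective. -/
def S_GRAM : Prop := ∀ (F : Type) [Field F] (f : F[X]), f.Separable → 1 ≤ f.natDegree →
  (∀ u, (gram f u).IsSymm) ∧ (gram f 1).det ≠ 0 ∧
  (∀ u, (gram f u).det = Algebra.norm F (AdjoinRoot.mk f u) * (gram f 1).det) ∧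
  (∀ u c, ∃ Q : Matrix (Fin f.natDegree) (Fin f.natDegree) F,
    Q.det = Algebra.norm F (AdjoinRoot.mk f c) ∧
    gram f (u * c ^ 2) = Q.transpose * gram f u * Q) ∧
  (∀ (l : F) (u), gram f (C l * u) = l • gram f u) ∧
  (∀ u u', f ∣ u - u' → gram f u = gram f u') ∧
  ∀ a, IsCoprime f a ↔ Algebra.norm F (AdjoinRoot.mk f a) ≠ 0

/-- JOB BC. Base change of the trace forms and norms from `ℚ` to `F`.
Proof: the matrix of the multiplication by `ε(θ)` in the basis `1, .., θ^(n-1)` over `F` is the image of the one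
over `ℚ` (`AdjoinRoot.powerBasis'`, remainder modulo the monic polynomial `f / a`; or
`Algebra.trace_baseChange`, `Algebra.norm_baseChange` and `F ⊗ AdjoinRoot ≅ AdjoinRoot`; compare the lemmas
`norm_prod` and `hom_prod` in `Pool/Agent/Q198/EL/S2E.lean`: both sides are symmetric functions of the roots
of `f` in an algebraic closure of `F`). -/
def S_BC : Prop := ∀ f : ℤ[X], Irreducible (f.map (Int.castRingHom ℚ)) →
  ∀ (F : Type) [Field F] [CharZero F] (ε : ℚ[X]),
  Algebra.norm F (AdjoinRoot.mk (up f F) (ε.map (Rat.castHom F))) =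
    ((Algebra.norm ℚ (AdjoinRoot.mk (up f ℚ) ε) : ℚ) : F) ∧
  Algebra.trace F (AdjoinRoot (up f F)) (AdjoinRoot.mk (up f F) (ε.map (Rat.castHom F))) =
    ((Algebra.trace ℚ (AdjoinRoot (up f ℚ)) (AdjoinRoot.mk (up f ℚ) ε) : ℚ) : F) ∧
  (IsCoprime (up f ℚ) ε → IsCoprime (up f F) (ε.map (Rat.castHom F))) ∧ (up f F).Separable ∧
  (up f F).natDegree = f.natDegree

/-- JOB CORP. Properties of the local invariants.
Proof (from `S_HWP`, `S_GRAM`).  (1), (2): immediate from `S_GRAM` (`hw` of congruent matrices; norms change by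
squares).  (3): `gram f (C l * a) = l • gram f a`, `gram f (C l * a * b) = l • gram f (a * b)`; by the last part
of `S_HWP` the two factors `hs l l ^ ..` cancel, and
`det gram f (a b) = N(b) det gram f a` with `N(b)` a square, so the two factors `hs l (det) ^ (n-1)` are equal;
`hs x (N b) = 1` as `N b` is a square.  (4): `hw (gram b) hw (gram 1) hw (gram b) hw (gram 1) hs 1 (N b) = 1`. -/
def S_CORP : Prop := ∀ (F : Type) [Field F] [Infinite F], Hil F → ∀ f : F[X], f.Separable →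
  1 ≤ f.natDegree →
  (∀ a a' b b', f ∣ a - a' → f ∣ b - b' → cor f a b = cor f a' b') ∧
  (∀ a b c d, IsCoprime f a → IsCoprime f b → IsCoprime f c → IsCoprime f d →
    cor f (a * c ^ 2) (b * d ^ 2) = cor f a b) ∧
  (∀ a b, ∀ l : F, l ≠ 0 → IsCoprime f a → IsCoprime f b →
    IsSquare (Algebra.norm F (AdjoinRoot.mk f b)) → cor f (C l * a) b = cor f a b) ∧
  ∀ b, IsCoprime f b → cor f 1 b = 1

/-- the places where the invariant of `Cor (β, ε)` is `-1` -/
def ramG (f : ℤ[X]) (β ε : ℚ[X]) : Set (Option Nat.Primes) :=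
  {v | match v with
    | none => cor (up f ℝ) (β.map (Rat.castHom ℝ)) (ε.map (Rat.castHom ℝ)) = -1
    | some p => cor (up f ℚ_[(p : ℕ)]) (β.map (Rat.castHom ℚ_[(p : ℕ)]))
        (ε.map (Rat.castHom ℚ_[(p : ℕ)])) = -1}

/-- JOB PFC. The product formula for `Cor (β, ε)`.
Proof (from `S_BIL`, `S_HWP`, `S_DIAG`, `S_GRAM`, `S_BC`).  For a symmetric invertible matrix `M` over `ℚ` let
`Pᵀ M P = diag(a)` with rational `P, a`; then over every completion `hw M = ∏_{i<j} (a_i, a_j)_v`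
(`S_HWP` (1)).  For rational numbers `a, b ≠ 0` the set of the places with `(a, b)_v = -1` is finite and has an
even number of elements: `Pool.Agent.W351.HB.PF.ev_all` with `bilo_`, `bilt_` for integers; multiply by squares
of the denominators.  The product of finitely many functions `ℤˣ`-valued on the places with this property has
this property (symmetric difference, `symm_even` in `W351/HB/PF.lean`).  The matrices `gram (up f ℚ_p) (ε.map ..)`
are the images of `gram (up f ℚ) ε` by `S_BC` (the index types `Fin (natDegree)` are equal by a cast). -/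
def S_PFC : Prop := ∀ f : ℤ[X], Irreducible (f.map (Int.castRingHom ℚ)) → ∀ β ε : ℚ[X],
  IsCoprime (up f ℚ) β → IsCoprime (up f ℚ) ε → (ramG f β ε).Finite ∧ Even (ramG f β ε).ncard

/-! ## Part B: the tame formula -/

open Classical in
/-- quadratic character of `ZMod l` (`1` at squares) -/
noncomputable def qc {l : ℕ} (x : ZMod l) : ℤˣ := if IsSquare x then 1 else -1

/-- JOB JC. Hasse-Witt invariants over `ℤ_l`, relative form.
Proof.  Notation: bar = reduction modulo `l`, `χ = qc`.  Since `l ≠ 2`, a symmetric matrix over `ℤ_l` can be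
diagonalised over `ℤ_l`: `Uᵀ M U = diag(a)`, `U ∈ GL_n(ℤ_l)` (induction: choose an entry of minimal valuation;
if it is a diagonal entry split it off; if it is `M_ij`, `i ≠ j`, and smaller than the diagonal ones, replace
`e_i` by `e_i + e_j`).  The number of `a_i` divisible by `l` is `dim K = m`, and the product of the `a_i` has
valuation `m`, so these `a_i` are `l` times units: after a permutation `a = (u_1, .., u_(n-m), l u'_1, .., l u'_m)`.
With `(u, u') = 1`, `(u, l) = χ(u)`, `(l, l) = (l, -1) = χ(-1)` for units (`W313.BMX` S_ODD2, S_ODD3, proved in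
`W335.BMX.Odd`; integers are dense, or represent units by integers) and `d = ∏ u_i`, `d' = ∏ u'_j`:
`hw M = χ(d)^m * χ(-1)^(m(m-1)/2) * χ(d')^(m-1)`, and `det M = d d' l^m` up to the square of a unit.
`M C` is symmetric, `K` is the kernel of its reduction as well (`bar(MC) = bar M bar C = bar Cᵀ bar M`, so
`bar C K ⊆ K`), and its determinant is `det M * det C`; let `d_C, d'_C` belong to it.  `χ(d)` is the class of the
discriminant of the nondegenerate form induced by `bar M` on `F_l^n / K`, so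
`χ(d_C) = χ(d) χ(det (bar C on F_l^n/K)) = χ(d) χ(det bar C) χ(det g)`, and
`χ(d_C d'_C) = χ(d d') χ(det bar C)`, so `χ(d'_C) = χ(d') χ(det g)`.  So
`hw (MC) hw M = (χ(det bar C) χ(det g))^m χ(det g)^(m-1) = χ(det bar C)^m χ(det g)` (for `m = 0`: `det g = 1`). -/
def S_JC : Prop := ∀ (l : ℕ) [Fact l.Prime], l ≠ 2 → ∀ (n m : ℕ) (M N : Matrix (Fin n) (Fin n) ℤ_[l]),
  M.IsSymm → (M * N).IsSymm → IsUnit N.det → (∃ u : ℤ_[l], IsUnit u ∧ M.det = (l : ℤ_[l]) ^ m * u) →
  ∀ K : Submodule (ZMod l) (Fin n → ZMod l), Module.finrank (ZMod l) K = m →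
  (∀ x, x ∈ K ↔ (M.map PadicInt.toZMod).mulVec x = 0) →
  ∀ g : K →ₗ[ZMod l] K, (∀ x : K, ((g x : K) : Fin n → ZMod l) = (N.map PadicInt.toZMod).mulVec x) →
  hw ((M * N).map (algebraMap ℤ_[l] ℚ_[l])) * hw (M.map (algebraMap ℤ_[l] ℚ_[l])) =
    qc (PadicInt.toZMod N.det) ^ m * qc (LinearMap.det g)

section L

variable {L : Type} [Field L] [NumberField L]

open Classical in
/-- `1` if `x` is a square modulo `v`, otherwise `-1` (for `v`-units `x`) -/
noncomputable def sg (v : HeightOneSpectrum (𝓞 L)) (x : L) : ℤˣ :=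
  if ∃ g : 𝓞 L, v.valuation L (x - (g : L) ^ 2) < 1 then 1 else -1

end L

/-- JOB TR. The relative tame formula for the trace forms.
Proof (from `S_JC`, `S_GRAM`, `S_BC`).  `B` is even and divisible by the leading coefficient, the discriminant of
`f`, and the ramified primes.  For `l ∤ B` let `R = ℤ_(l)`; `R[θ]` is the integral closure of `R` in `L`, with
basis `1, θ, .., θ^(n-1)`, and the primes `v` above `l` correspond to the irreducible factors `f_v` of the
separable polynomial `bar f = f mod l` (of degree `n`), `k_v = F_l[X]/(f_v)` (Kummer-Dedekind).  Replace `b`, `g`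
by their remainders modulo `f` (`S_GRAM` (6)); they have coefficients in `R`, since `b(θ), g(θ)` are integral
above `l`.  `M = gram f b` has entries in `R`, `det M = N(b(θ)) * disc`, `disc` a unit, and
`|N(b(θ))|` has valuation `m` at `l`, where `l^m = ∏_{v ∈ T} N v`.  `N` = matrix of the multiplication by `g(θ)`
(entries in `R`, unit determinant `N(g(θ))`), `gram f (b g) = M N`.  The kernel of `bar M`: the trace form of
`F_l[X]/(bar f)` is nondegenerate, so `K = {x : bar b x = 0}`, which is the ideal generated by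
`∏_{v ∉ T} f_v` (`bar b` is divisible by `f_v` iff `v ∈ T`), isomorphic to `F_l[X]/(∏_{v ∈ T} f_v)`, of dimension
`∑_{v ∈ T} deg f_v = m`; the determinant of the multiplication by `bar g` on it is `∏_{v ∈ T} N_{k_v/F_l}(bar g)`,
and `χ(N_{k_v/F_l}(z)) = 1` iff `z` is a square in `k_v` (`z ≠ 0`; the norm is `z^((|k_v|-1)/(l-1))`).  Apply
`S_JC`. -/
def S_TR : Prop := ∀ (f : ℤ[X]) (L : Type) [Field L] [NumberField L] (θ : L), Setup f L θ →
  ∃ B : ℕ, B ≠ 0 ∧ ∀ (l : ℕ) [Fact l.Prime], ¬ l ∣ B → ∀ (b g : ℚ[X]) (m : ℕ)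
  (T : Finset (HeightOneSpectrum (𝓞 L))), (∀ v ∈ T, Abv v l) →
  (∀ v : HeightOneSpectrum (𝓞 L), Abv v l →
    (v ∈ T → v.valuation L (aeval θ b) = WithZero.exp (-1 : ℤ)) ∧
    (v ∉ T → v.valuation L (aeval θ b) = 1) ∧ v.valuation L (aeval θ g) = 1) →
  ∏ v ∈ T, Ideal.absNorm v.asIdeal = l ^ m →
  hw (gram (up f ℚ_[l]) ((b * g).map (Rat.castHom ℚ_[l]))) *
    hw (gram (up f ℚ_[l]) (b.map (Rat.castHom ℚ_[l]))) =
  (hs (((Algebra.norm ℚ (aeval θ g) : ℚ) : ℚ_[l])) (l : ℚ_[l])) ^ m * ∏ v ∈ T, sg v (aeval θ g)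

/-- JOB NRM. Normalisation of the valuations above `l` by a square.
Proof: weak approximation (Chinese remainder theorem): there is an `η` with given valuations at the finitely
many primes above `l`; multiply it by an integer prime to `l` to make `x η²` integral at the other primes. -/
def S_NRM : Prop := ∀ (L : Type) [Field L] [NumberField L] (l : ℕ), l.Prime → ∀ x : L, x ≠ 0 →
  ∀ e : HeightOneSpectrum (𝓞 L) → ℕ, (∀ v, Abv v l → Par v x (e v)) →
  ∃ (η : L) (α : 𝓞 L), η ≠ 0 ∧ (α : L) = x * η ^ 2 ∧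
    ∀ v : HeightOneSpectrum (𝓞 L), Abv v l → v.valuation L (α : L) = WithZero.exp (-(e v : ℤ))

/-- JOB CT. The relative tame formula for the invariants.
Proof (from `S_TR`, `S_NRM`, `S_CORP`, `S_HWP`, `S_GRAM`, `S_BC`, `S_BIL`, `S_RAM` of project EL).  `N(ε)` is a
square, so `hs x (N ε) = 1`, and the product of the two invariants is
`hw(βγε) hw(βε) hw(βγ) hw(β)` (gram matrices over `ℚ_l`).  Let `T1`, `T2` be the sets of the primes above `l` with odd
valuation of `β(θ)`, `β(θ) ε(θ)`; `T = T1 ∆ T2`.  By `S_NRM` `β(θ) η² = b(θ)` has valuations `exp (-1)` at `T1` and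
`1` elsewhere above `l`; `hw(βγ) hw(β) = hw(bγ) hw(b) = h^m1 * ∏_{T1} sg v γ` by `S_TR` (congruent matrices,
`S_GRAM` (4), (6)), and similarly `hw(βεγ) hw(βε) = h^m2 * ∏_{T2} sg v γ`, with the same `h`.  Since `N(ε)` is a
square, its valuation at `l` is even, so `∑_{v ∈ T} f_v` is even, `m1 + m2` is even; and
`∏_{T1} ∏_{T2} = ∏_T` (squares cancel).  (`∏_{v ∈ T1} N v` is a power of `l`.) -/
def S_CT : Prop := ∀ (f : ℤ[X]) (L : Type) [Field L] [NumberField L] (θ : L), Setup f L θ →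
  ∃ B : ℕ, B ≠ 0 ∧ ∀ (l : ℕ) [Fact l.Prime], ¬ l ∣ B → ∀ (β γ ε : ℚ[X])
  (T : Finset (HeightOneSpectrum (𝓞 L))), aeval θ β ≠ 0 → SqN f ε → (∀ v ∈ T, Abv v l) →
  (∀ v : HeightOneSpectrum (𝓞 L), Abv v l → v.valuation L (aeval θ γ) = 1 ∧
    (v ∈ T → Par v (aeval θ ε) 1) ∧ (v ∉ T → Par v (aeval θ ε) 0)) →
  cor (up f ℚ_[l]) ((β * γ).map (Rat.castHom ℚ_[l])) (ε.map (Rat.castHom ℚ_[l])) *
    cor (up f ℚ_[l]) (β.map (Rat.castHom ℚ_[l])) (ε.map (Rat.castHom ℚ_[l])) =
  ∏ v ∈ T, sg v (aeval θ γ)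

/-! ## Part C: the test classes -/

/-- JOB EPS. Elements with odd valuations exactly at `T`, and square norm.
Proof.  Let `𝔠_1, .., 𝔠_h` be nonzero ideals, one in each ideal class, `B0` divisible by their norms and by the
ramified primes.  Call `(q, T)` admissible if `q ∤ B0` is a prime and `T` a set of primes above `q` such that
`∏_{v ∈ T} N v` is a square.  For an admissible pair there are `i` and `ε0 ≠ 0` with
`(ε0) = 𝔠_i ∏_{v ∈ T} v`, and `N(ε0) = ± N(𝔠_i) * square` lies in one of the finitely many classes modulo squares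
generated by `-1` and the primes dividing `B0`.  For every one of these classes that occurs choose one
admissible pair `(q_t, T_t)` and the element `γ_t = ε0`; let `B = B0 * ∏ q_t`.  Let `(q, T)` be admissible with
`q ∤ B`, `ε0` as above, with norm in the class `t`: `ε = ε0 γ_t` has square norm, and outside `B` it has odd
valuation exactly at `T`. -/
def S_EPS : Prop := ∀ (f : ℤ[X]) (L : Type) [Field L] [NumberField L] (θ : L), Setup f L θ →
  ∃ B : ℕ, B ≠ 0 ∧ ∀ q : ℕ, q.Prime → ¬ q ∣ B → ∀ T : Finset (HeightOneSpectrum (𝓞 L)),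
  (∀ v ∈ T, Abv v q) → IsSquare (∏ v ∈ T, Ideal.absNorm v.asIdeal) →
  ∃ ε : ℚ[X], SqN f ε ∧ ∀ v : HeightOneSpectrum (𝓞 L), (B : 𝓞 L) ∉ v.asIdeal →
    (v ∈ T → Par v (aeval θ ε) 1) ∧ (v ∉ T → Par v (aeval θ ε) 0)

/-- JOB IDL. An integer with given prime ideals, in a box.
Proof.  `𝔠_1, .., 𝔠_h` nonzero ideals, one in each ideal class, `B` divisible by their norms; some
`𝔠_i ∏_{v ∈ S} v` is principal, `= (α0)`, `|N α0| = N 𝔠_i ∏ N v`; then `α = α0 u²` with the unit `u` of
`Pool.Agent.Q239.EL.un` (`S_UN` of project EL).  (Project SX of helper161 has a similar lemma.) -/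
def S_IDL : Prop := ∀ (L : Type) [Field L] [NumberField L], ∃ (B : ℕ) (C : ℝ), B ≠ 0 ∧ 0 < C ∧
  ∀ S : Finset (HeightOneSpectrum (𝓞 L)), (∀ v ∈ S, (B : 𝓞 L) ∉ v.asIdeal) →
  ∃ α : 𝓞 L, α ≠ 0 ∧
    (∀ v : HeightOneSpectrum (𝓞 L), (B : 𝓞 L) ∉ v.asIdeal →
      (v ∈ S → v.valuation L (α : L) = WithZero.exp (-1 : ℤ)) ∧
      (v ∉ S → v.valuation L (α : L) = 1)) ∧
    ∀ σ : L →+* ℂ, ‖σ (α : L)‖ ≤
      C * ((∏ v ∈ S, Ideal.absNorm v.asIdeal : ℕ) : ℝ) ^ ((1 : ℝ) / Module.finrank ℚ L)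

/-- JOB CHR. From characters to squares.
Proof.  `l` odd.  If `v ≠ v0` has even degree (`N v` a square), `T = {v}` shows that `γ` is a square modulo `v`; if
`v, v' ≠ v0` have odd degree, `T = {v, v'}` shows `sg v γ = sg v' γ`.  If this common value is `1` let `c = 1`,
otherwise let `c` be an integer which is not a square modulo `l`; it is a square modulo `v` iff the degree of `v`
is even (`c^((N v - 1)/2) = 1` in `k_v`), and products of two non-squares in the finite field `k_v` are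
squares.  (`γ - g² ` has valuation `< 1` at `v` iff it lies in `v`.) -/
def S_CHR : Prop := ∀ (L : Type) [Field L] [NumberField L] (l : ℕ), l.Prime → l ≠ 2 →
  ∀ (v0 : HeightOneSpectrum (𝓞 L)) (γ : 𝓞 L),
  (∀ v : HeightOneSpectrum (𝓞 L), Abv v l → v ≠ v0 → γ ∉ v.asIdeal) →
  (∀ T : Finset (HeightOneSpectrum (𝓞 L)), (∀ v ∈ T, Abv v l) → v0 ∉ T →
    IsSquare (∏ v ∈ T, Ideal.absNorm v.asIdeal) → ∏ v ∈ T, sg v (γ : L) = 1) →
  ∃ c : ℤ, ¬ (l : ℤ) ∣ c ∧ ∀ v : HeightOneSpectrum (𝓞 L), Abv v l → v ≠ v0 →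
    ∃ g : 𝓞 L, (c : 𝓞 L) * γ - g ^ 2 ∈ v.asIdeal

/-! ## Part D: approximation and finiteness -/

/-- JOB APX. Elements of `ℚ_p[X]/(f)` are rational up to squares, and there are finitely many classes.
Proof.  Let `a0` be the leading coefficient, `n` the degree, `G(Y) = a0^(n-1) f(Y / a0) ∈ ℤ[Y]` monic,
`Λ = ℤ_p[Y]/(G)`, free of rank `n` over `ℤ_p`, `Λ[1/p] = ℚ_p[X]/(f)` (`Y = a0 X`).  `Λ` is `p`-adically complete, so
for every `z ∈ Λ` the equation `T² + T = p z` has a solution in `Λ` (Hensel, derivative `2 T + 1 ≡ 1`), and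
`1 + 4 p z = (1 + 2 T)²` is a square in `Λ`.  (a) Let `a ∈ ℚ_p[X]` be coprime to `f`, `a' a ≡ 1 mod f`.  Choose
`α ∈ ℚ[X]` of degree `< n` with coefficients close to the ones of `a mod f`, so that
`a' α ≡ 1 + 4 p z`, `z ∈ Λ`, is a square `c'²`, and `a ≡ α (1/c')²`; `α` is coprime to `f`.
(b) Finiteness: it suffices to show that the `α ∈ ℚ[X]`, coprime to `f`, lie in finitely many classes.  Let `L`
be the number field `ℚ[X]/(f)`.  Multiplying by squares of `L` we may assume (`S_NRM`) that `α(θ)` is integral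
and has valuations `0` or `1` at the primes above `p`.  Let `N` be so large that `p^N 𝓞_L ⊆ 4 p² (Λ ∩ L)`, where
`Λ ∩ L ⊇ ℤ[a0 θ]`.  If two such `α, α'` have the same valuations above `p` and the same class modulo `p^N 𝓞_L`
then `α' - α ∈ p^N 𝓞_L`, `α'/α = 1 + (α' - α)/α`, `p/α` is integral at `p`, so
`(α' - α)/α ∈ 4 p Λ` (as an element of `ℚ_p[X]/(f)`; `𝓞_L ⊗ ℤ_(p)`), and `α'/α` is a square in `ℚ_p[X]/(f)`. -/
def S_APX : Prop := ∀ f : ℤ[X], Irreducible (f.map (Int.castRingHom ℚ)) → ∀ (p : ℕ) [Fact p.Prime],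
  (∀ a : ℚ_[p][X], IsCoprime (up f ℚ_[p]) a → ∃ (α : ℚ[X]) (c : ℚ_[p][X]),
    IsCoprime (up f ℚ) α ∧ IsCoprime (up f ℚ_[p]) c ∧
    up f ℚ_[p] ∣ a - α.map (Rat.castHom ℚ_[p]) * c ^ 2) ∧
  ∃ R : Finset ℚ_[p][X], (∀ ρ ∈ R, IsCoprime (up f ℚ_[p]) ρ) ∧
    ∀ a : ℚ_[p][X], IsCoprime (up f ℚ_[p]) a → ∃ ρ ∈ R, ∃ c : ℚ_[p][X],
      IsCoprime (up f ℚ_[p]) c ∧ up f ℚ_[p] ∣ a - ρ * c ^ 2

/-- JOB APXR. The same finiteness over `ℝ`.
Proof.  `ℝ[X]/(f) ≅ ℝ^r × ℂ^s` (`f` is separable); the class of `a` modulo squares is determined by the signs of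
`a` at the real zeros of `f`.  In elementary terms: if `a` and `ρ` have the same signs at all real zeros of
`f` there is a `c` with `f ∣ a - ρ c²`: interpolate a square root of `a/ρ` at all complex zeros, choosing
conjugate square roots at conjugate zeros; the interpolation polynomial is real.  (Or: factor `f` into linear
and quadratic factors, Chinese remainder theorem, `AdjoinRoot` of an irreducible quadratic polynomial is
algebraically closed.)  Representatives: one for each sign vector that occurs. -/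
def S_APXR : Prop := ∀ f : ℤ[X], Irreducible (f.map (Int.castRingHom ℚ)) →
  ∃ R : Finset ℝ[X], (∀ ρ ∈ R, IsCoprime (up f ℝ) ρ) ∧
    ∀ a : ℝ[X], IsCoprime (up f ℝ) a → ∃ ρ ∈ R, ∃ c : ℝ[X],
      IsCoprime (up f ℝ) c ∧ up f ℝ ∣ a - ρ * c ^ 2

/-! ## Part E: the values at local points -/

/-- JOB VC. Values give points of coverings.
Proof.  `f` is separable over `F`.  Let `f1 = gcd(f, x - w X)`, `f = f1 f2`, `f1, f2` coprime, and `x - w X` is
coprime to `f2`; so `f2 ∣ a - (x - w X)`.  Chinese remainder theorem: `g ≡ 0 mod f1`, `g ≡ c mod f2`; then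
`x - w X - α g² ≡ 0` modulo `f1` and modulo `f2`.  Norms: `f ∣ a - α c²` gives `N(a) = N(α) N(c)²`, and
`N(α)` over `F` is the one over `ℚ` (`S_BC`). -/
def S_VC : Prop := ∀ f : ℤ[X], Irreducible (f.map (Int.castRingHom ℚ)) → ∀ D : ℤ,
  ∀ (F : Type) [Field F] [CharZero F] (a c : F[X]) (α : ℚ[X]), Val f D F a → IsCoprime (up f F) c →
  up f F ∣ a - α.map (Rat.castHom F) * c ^ 2 →
  CovPt f α F ∧ IsSquare (((D * f.leadingCoeff : ℤ) : F) *
    ((Algebra.norm ℚ (AdjoinRoot.mk (up f ℚ) α) : ℚ) : F))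

/-- JOB SCL. Parities of the valuations, local version of `S_SC` of project EL.
Proof: exactly the proof of `Pool.Agent.Q239.EL.sc` (from `S_AP`, `S_ROOT`, `S_NV`, `S_RAM`, all proved), which
uses only that the valuation at `l` of `D * a * N(δ)` is even; here `D * a * N(δ)` is a square in `ℚ_l`. -/
def S_SCL : Prop := ∀ (f : ℤ[X]) (L : Type) [Field L] [NumberField L] (θ : L), Setup f L θ →
  Even f.natDegree → ∃ B : ℕ, B ≠ 0 ∧ ∀ (l : ℕ) [Fact l.Prime], ¬ l ∣ B → ∀ (d : ℚ[X]) (D : ℤ),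
  aeval θ d ≠ 0 → Squarefree D →
  IsSquare (((D * f.leadingCoeff : ℤ) : ℚ_[l]) * ((Algebra.norm ℚ (aeval θ d) : ℚ) : ℚ_[l])) →
  CovPt f d ℚ_[l] → ∃ e : ℤ,
    (¬ (l : ℤ) ∣ D ∧ ∀ v : HeightOneSpectrum (𝓞 L), Abv v l → Par v (aeval θ d) e) ∨
    ((l : ℤ) ∣ D ∧ ∃ v0 : HeightOneSpectrum (𝓞 L), Abv v0 l ∧ Ideal.absNorm v0.asIdeal = l ∧
      Par v0 (aeval θ d) (e + 1) ∧
      ∀ v : HeightOneSpectrum (𝓞 L), Abv v l → v ≠ v0 → Par v (aeval θ d) e)

section L2

variable {L : Type} [Field L] [NumberField L]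

/-- `a` is, up to squares, the element `α(θ)`, whose valuations above `l` have the parity of `e + s v` -/
def Pat (f : ℤ[X]) (θ : L) (l : ℕ) [Fact l.Prime] (a : ℚ_[l][X])
    (s : HeightOneSpectrum (𝓞 L) → ℤ) : Prop :=
  ∃ (α : ℚ[X]) (c : ℚ_[l][X]) (e : ℤ), IsCoprime (up f ℚ) α ∧ IsCoprime (up f ℚ_[l]) c ∧
    up f ℚ_[l] ∣ a - α.map (Rat.castHom ℚ_[l]) * c ^ 2 ∧
    ∀ v : HeightOneSpectrum (𝓞 L), Abv v l → Par v (aeval θ α) (e + s v)

end L2

/-- JOB GD. Comparison of the invariants at a good place where `ε` has even valuations.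
Proof (from `S_CT`, `S_NRM`, `S_CORP`, `S_BIL`, `S_BC`, `S_RAM`).  `α(θ) β(θ) l^e` has even valuations at all `v`
above `l` (`l` is unramified), so by `S_NRM` `α(θ) β(θ) l^e = γ(θ) η²` with a polynomial `γ`, `γ(θ)` a unit at all
`v` above `l`; so `α(θ) = l^(-e) β(θ) γ(θ) (η/β(θ))²`.  By `S_CORP` (1), (2), (3) (`N(ε)` is a square):
`cor(a, ε) = cor(α, ε) = cor(l^(-e) βγ, ε) = cor(βγ, ε)`, and `S_CT` with `T = ∅` gives
`cor(βγ, ε) = cor(β, ε)`.  (Polynomials with the same value at `θ` are congruent modulo `f`, over `ℚ` and hence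
over `ℚ_l`.) -/
def S_GD : Prop := ∀ (f : ℤ[X]) (L : Type) [Field L] [NumberField L] (θ : L), Setup f L θ →
  ∃ B : ℕ, B ≠ 0 ∧ ∀ (l : ℕ) [Fact l.Prime], ¬ l ∣ B → ∀ (a : ℚ_[l][X]) (β ε : ℚ[X])
  (s : HeightOneSpectrum (𝓞 L) → ℤ), Pat f θ l a s → IsCoprime (up f ℚ_[l]) a → aeval θ β ≠ 0 →
  SqN f ε →
  (∀ v : HeightOneSpectrum (𝓞 L), Abv v l → Par v (aeval θ β) (s v) ∧ Par v (aeval θ ε) 0) →
  cor (up f ℚ_[l]) a (ε.map (Rat.castHom ℚ_[l])) =
    cor (up f ℚ_[l]) (β.map (Rat.castHom ℚ_[l])) (ε.map (Rat.castHom ℚ_[l]))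

/-- JOB QD. The comparison at `q`.
Proof (from `S_CT`, `S_NRM`, `S_CORP`, `S_BIL`, `S_BC`, `S_RAM`, `S_VC`, `S_SD`, `S_CH` of project EL).  Put
`s v = 1` if `v = v0`, else `0`.  By `Pat` and `S_NRM` there is an integral `α1 = l^e α(θ) η²` with
`v0(α1) = exp (-1)`, `v(α1) = 1` for the other `v` above `l`; `α1 = d(θ)`.  As in `S_GD`
`cor(a, ε) = cor(d, ε)`; with `γ = α1/β(θ)`, a unit above `l`, `S_CT` gives
`cor(a, ε) cor(β, ε) = ∏_{v ∈ T} sg v (α1 / β) = ∏_{v ∈ T} sg v (α1 β)` (`v ≠ v0` for `v ∈ T`, so `α1` and `β` are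
units at `v`).  Similarly for `a', β', α1'`.  So `∏_{v ∈ T} sg v (α1 α1' β β') = 1` (`sg v` is multiplicative on
units, the residue field is finite of odd order).  By `S_VC` `a` gives a point of the covering of `α`, and by
`S_CH` one of the covering of `d` over `ℚ_l`; so by `S_SD` there are `c, r` with `t - r ∈ v0`, `l ∤ c`, and
`c α1 (r - t)` a square modulo `v` for all `v ≠ v0` above `l`; similarly `c', r'`, `r' ≡ r mod l`.  So
`sg v (α1 α1') = sg v (c c')` for `v ∈ T`, and `∏_{v ∈ T} sg v (c c') = 1`, because `c c'` is a square modulo all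
`v` of even degree, and modulo all or none of the `v` of odd degree, whose number in `T` is even.  So
`∏_{v ∈ T} sg v (β β') = 1`. -/
def S_QD : Prop := ∀ (f : ℤ[X]) (L : Type) [Field L] [NumberField L] (θ : L), Setup f L θ →
  Even f.natDegree → 3 ≤ f.natDegree → ∃ B : ℕ, B ≠ 0 ∧ ∀ (l : ℕ) [Fact l.Prime], ¬ l ∣ B →
  ∀ (D D' : ℤ) (a a' : ℚ_[l][X]) (b b' ε : ℚ[X]) (β β' : 𝓞 L) (v0 : HeightOneSpectrum (𝓞 L))
  (T : Finset (HeightOneSpectrum (𝓞 L))), Val f D ℚ_[l] a → Val f D' ℚ_[l] a' →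
  aeval θ b = (β : L) → aeval θ b' = (β' : L) → Abv v0 l → Ideal.absNorm v0.asIdeal = l → v0 ∉ T →
  (∀ v ∈ T, Abv v l) → IsSquare (∏ v ∈ T, Ideal.absNorm v.asIdeal) → SqN f ε →
  (∃ s : HeightOneSpectrum (𝓞 L) → ℤ, s v0 = 1 ∧ (∀ v, v ≠ v0 → s v = 0) ∧ Pat f θ l a s ∧
    Pat f θ l a' s) →
  (∀ v : HeightOneSpectrum (𝓞 L), Abv v l →
    (v = v0 → v.valuation L (β : L) = WithZero.exp (-1 : ℤ) ∧
      v.valuation L (β' : L) = WithZero.exp (-1 : ℤ)) ∧
    (v ≠ v0 → v.valuation L (β : L) = 1 ∧ v.valuation L (β' : L) = 1) ∧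
    (v ∈ T → Par v (aeval θ ε) 1) ∧ (v ∉ T → Par v (aeval θ ε) 0)) →
  cor (up f ℚ_[l]) a (ε.map (Rat.castHom ℚ_[l])) *
      cor (up f ℚ_[l]) (b.map (Rat.castHom ℚ_[l])) (ε.map (Rat.castHom ℚ_[l])) =
    cor (up f ℚ_[l]) a' (ε.map (Rat.castHom ℚ_[l])) *
      cor (up f ℚ_[l]) (b'.map (Rat.castHom ℚ_[l])) (ε.map (Rat.castHom ℚ_[l])) →
  ∏ v ∈ T, sg v ((β * β' : 𝓞 L) : L) = 1

/-- JOB EV. Adelic values exist if and only if the curve has points everywhere locally.
Proof.  Let `(x, w, y)` be a point of `C_D` over `F`.  If `x - w X` is coprime to `f` (over `F`), `a = x - w X`: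
`D lc N(a) = D F(x, w) = (D y)²` (`hom_prod`, `norm_prod` in `Pool/Agent/Q198/EL/S2E.lean`, or `norm_lin` in
`Pool/Agent/Q241/EL/Lift.lean`).  Otherwise `w ≠ 0`, `r = x/w` is a simple zero of `f`, `f = (X - r) f2`;
choose `a ≡ x - w X mod f2`, `a(r) = u` with `u ≠ 0` such that `D lc N(a)` is a square: `N(a) = u * N_2`,
`N_2 ≠ 0` the norm of `x - w X` modulo `f2`; `u = D lc N_2`. -/
def S_EV : Prop := ∀ f : ℤ[X], Irreducible (f.map (Int.castRingHom ℚ)) → 2 ≤ f.natDegree →
  ∀ D : ℤ, D ≠ 0 → (ELS f D ↔ Nonempty (AVal f D))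

/-- JOB RP. Rational points are orthogonal.
Proof (from `S_PFC`, `S_BC`).  `f` has no rational zero, so `a = x - w X` is coprime to `f`, and it is a value at
all places (as in `S_EV`, first case); `ramA P ε = ramG f a ε`. -/
def S_RP : Prop := ∀ f : ℤ[X], Irreducible (f.map (Int.castRingHom ℚ)) → 2 ≤ f.natDegree →
  ∀ D : ℤ, D ≠ 0 → CurvePt f D ℚ → ∃ P : AVal f D, Orth P

/-- GOAL. -/
def S_EBMAIN : Prop := ∀ f : ℤ[X], Irreducible (f.map (Int.castRingHom ℚ)) → Even f.natDegree →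
  6 ≤ f.natDegree → ∃ δ C : ℝ, 0 < δ ∧ ∀ X : ℝ, 3 ≤ X →
    (({D : ℤ | (D.natAbs : ℝ) ≤ X ∧ Squarefree D ∧ ∃ P : AVal f D, Orth P}.ncard : ℕ) : ℝ) ≤
    C * Real.log X ^ (-δ) *
      (({D : ℤ | (D.natAbs : ℝ) ≤ X ∧ Squarefree D ∧ ELS f D}.ncard : ℕ) : ℝ)

end Pool.Agent.Q51.EB
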