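import Pool.Agent.Q51.EB.Stm

/-!
# Project EB, part 2 (helper51): superelliptic twists `D y ^ m = f(x)`, `m` even

The curve `D y ^ m = F(x, w)` is mapped to `C_D` by `(x, w, y) ↦ (x, w, y ^ (m/2))`.  What is needed is the
lower bound for the number of the everywhere locally soluble superelliptic twists.
-/

set_option autoImplicit false

namespace Pool.Agent.Q51.EB

open Polynomial NumberField IsDedekindDomain Finset Pool.Agent.Q51.EL

/-- the curve `D * y ^ m = F(x, w)` has a point over the field `F` -/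
def CurvePtM (f : ℤ[X]) (m : ℕ) (D : ℤ) (F : Type) [Field F] : Prop :=
  ∃ x w y : F, (x ≠ 0 ∨ w ≠ 0) ∧ (D : F) * y ^ m = hom f x w

/-- the curve `D * y ^ m = F(x, w)` is everywhere locally soluble -/
def ELSM (f : ℤ[X]) (m : ℕ) (D : ℤ) : Prop :=
  CurvePtM f m D ℝ ∧ ∀ (p : ℕ) [Fact p.Prime], CurvePtM f m D ℚ_[p]

/-- JOB WEIL. Local solubility modulo large primes.
Proof.  Weil's bound for character sums: `Pool.Agent.Y287.SZ.W.weil` (`Pool/Agent/Y287/SZ/Weil.lean`) with
`R = 1`, or `Pool.Agent.H435R3.Weil.weil`.  `n = deg g`.  Let `k = gcd(m, p - 1)`; the `m`-th powers in `F_p^*`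
are the `k`-th powers.  If `k = 1` everything is an `m`-th power, take `x` with `g(x) ≠ 0`.  For `k ≥ 2`:
`∑_{χ^k = 1} χ(z) = k` if `z` is a `k`-th power, `z ≠ 0`, and `0` otherwise.  The number of the `x` such that
`g(x)/u` is a nonzero `k`-th power is `≥ (1/k) (p - n - (k - 1) n √p) > 0` for `p > (m n + n + 1)² `.
(`g` = leading coefficient times a monic squarefree polynomial `P`, every root of which in an algebraically
closed field has multiplicity one; for `χ ≠ 1`, `χ^k = 1`, `‖∑ χ(P(x))‖ ≤ n √p`.) -/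
def S_WEIL : Prop := ∀ (p : ℕ) [Fact p.Prime] (g : (ZMod p)[X]) (m : ℕ) (u : ZMod p), 0 < m → u ≠ 0 →
  Squarefree g → 1 ≤ g.natDegree → (m * g.natDegree + g.natDegree + 1) ^ 2 < p →
  ∃ x y : ZMod p, y ≠ 0 ∧ u * y ^ m = g.eval x

/-- JOB SOLVM. Superelliptic twists which are everywhere locally soluble (compare `S_SOLV` of project EL,
proved in `Pool/Agent/Q52/EL/Solv.lean`).
Proof (from `S_WEIL`).  `W` is divisible by `D0`, `m ^ 3` (or a sufficiently high power), `8`, the leading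
coefficient of `f`, a nonzero integer of the form `U f + V f'`, `U, V ∈ ℤ[X]`, and by all primes
`≤ (m n + n + 1)²`.  Let `k` be as in the statement, `D = D0 k`.  Over `ℝ`: `k > 0` is an `m`-th power.  Over
`ℚ_p`, `p ∣ W`: `k ≡ 1 mod p^(2 v_p(m) + 1)` is an `m`-th power in `ℤ_p` (Hensel), so `C_{D0 k}` and `C_{D0}` are
isomorphic.  Over `ℚ_q`, `q ∣ k`: `f` has a simple zero modulo `q`, so it has a zero `ρ ∈ ℤ_q`, and
`(ρ, 1, 0)` is a point.  Other `p`: `D` is a unit at `p`, `f mod p` has degree `n` and is squarefree; by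
`S_WEIL` there are `x, y` with `D y^m ≡ f(x)`, `y` a unit modulo `p`; `p ∤ m`, so `f(x)/D` is an `m`-th power in
`ℤ_p` (Hensel). -/
def S_SOLVM : Prop := ∀ f : ℤ[X], Irreducible (f.map (Int.castRingHom ℚ)) → ∀ m : ℕ, 0 < m →
  ∀ D0 : ℤ, D0 ≠ 0 → ELSM f m D0 → ∃ W : ℕ, W ≠ 0 ∧ D0 ∣ (W : ℤ) ∧ ∀ k : ℕ, 0 < k → k.Coprime W →
    k % W = 1 % W → (∀ q : ℕ, q.Prime → q ∣ k → ∃ r : ℤ, (q : ℤ) ∣ f.eval r) → ELSM f m (D0 * k)

open Classical in
/-- JOB CNTLM. Lower bound for the number of integers `≡ 1 mod W` composed of the primes of a set `P`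
(compare `S_CNTL` of project EL, proved in `Pool/Agent/Q91/EL/Cntl.lean` with squares modulo `W` in place of
`1 mod W`).
Proof.  `G = (ℤ/W)^*`.  Remove from `P` the primes dividing `W` and the finitely many primes whose class in `G`
contains only finitely many elements of `P`; every class of the remaining set `P1` contains infinitely many
elements of `P1`.  Let `H ⊆ G` be the subgroup generated by the classes of `P1`; since `G` is finite, every
element of `H` is a product of classes of elements of `P1`, and we can take these elements distinct (there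
are infinitely many in each class).  So for `κ ∈ H` there is a squarefree product `m_κ` of elements of `P1` of
class `κ⁻¹`.  Let `E` be the product of `W` and of all `m_κ` and of the removed primes.  For large `X` put
`Q = ⌊X^(1/4)⌋₊`; for every squarefree `m' ≤ Q` composed of primes of `P1` not dividing `E`, of class `κ`,
let `p ∈ S` with `Q < p ≤ X / (m' m_κ)` (`p ≡ 1 mod W`): `m = m' m_κ p ≤ X` is squarefree, `≡ 1 mod W`.
The rest is as for `S_CNTL`. -/
def S_CNTLM : Prop := ∀ (W : ℕ) (P S : Set ℕ), W ≠ 0 → S ⊆ P → (∀ p ∈ P, p.Prime) →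
  (∀ p ∈ S, p % W = 1 % W) → (∃ c0 Y0 : ℝ, 0 < c0 ∧ ∀ Y : ℝ, Y0 ≤ Y →
    c0 * Y / Real.log Y ≤ (((pr Y).filter (fun p => p ∈ S)).card : ℝ)) →
  ∃ c X0 : ℝ, 0 < c ∧ ∀ X : ℝ, X0 ≤ X →
    c * X / Real.log X * Real.exp (∑ q ∈ (pr X).filter (fun q => q ∈ P), (1 : ℝ) / q) ≤
    (((Icc 1 ⌊X⌋₊).filter (fun k : ℕ => Squarefree k ∧ k.Coprime W ∧
      (∀ q : ℕ, q.Prime → q ∣ k → q ∈ P) ∧ k % W = 1 % W)).card : ℝ)

/-- JOB LOWM. Lower bound for the number of everywhere locally soluble superelliptic twists.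
Proof (from `S_SOLVM`, `S_CH1` of project EL (`Pool.Agent.Q154.EL.ch1`), `S_CNTLM`): exactly as
`Pool.Agent.Q198.EL.low` (`Pool/Agent/Q198/EL/Low.lean`), with the given `D0`. -/
def S_LOWM : Prop := ∀ f : ℤ[X], Irreducible (f.map (Int.castRingHom ℚ)) → ∀ m : ℕ, 0 < m →
  ∀ D0 : ℤ, Squarefree D0 → ELSM f m D0 → ∃ c X0 : ℝ, 0 < c ∧
  ∀ X : ℝ, X0 ≤ X → c * X / Real.log X * Real.exp (Gf f X) ≤
    (({D : ℤ | (D.natAbs : ℝ) ≤ X ∧ Squarefree D ∧ ELSM f m D}.ncard : ℕ) : ℝ)

end Pool.Agent.Q51.EB
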