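import Pool.Agent.Q51.EB.Asm

/-! # Project EB: assembly, part 2 (the conditions of the sieve) -/

set_option autoImplicit false

namespace Pool.Agent.Q51.EB

open Polynomial NumberField IsDedekindDomain Finset Pool.Agent.Q51.EL

section L

variable {L : Type} [Field L] [NumberField L]

lemma mem_lt (v : HeightOneSpectrum (𝓞 L)) (β : 𝓞 L) :
    β ∈ v.asIdeal ↔ v.valuation L (β : L) < 1 := (v.valuation_lt_one_iff_mem β).symm

lemma not_mem_of (v : HeightOneSpectrum (𝓞 L)) (β : 𝓞 L) (h : v.valuation L (β : L) = 1) :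
    β ∉ v.asIdeal := by
  rw [mem_lt, h]; exact lt_irrefl _

lemma mem_of (v : HeightOneSpectrum (𝓞 L)) (β : 𝓞 L)
    (h : v.valuation L (β : L) = WithZero.exp (-1 : ℤ)) : β ∈ v.asIdeal := by
  rw [mem_lt, h, ← WithZero.exp_zero, WithZero.exp_lt_exp]; norm_num

lemma par_one {v : HeightOneSpectrum (𝓞 L)} {x : L}
    (h : v.valuation L x = WithZero.exp (-1 : ℤ)) : Par v x 1 := ⟨-1, by rw [h]; norm_num⟩

lemma par_zero {v : HeightOneSpectrum (𝓞 L)} {x : L}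
    (h : v.valuation L x = 1) : Par v x 0 := ⟨0, by rw [h]; simp⟩

lemma rep_val {f : ℤ[X]} {θ : L} {B : ℕ} {D : ℤ} {P : AVal f D} {β : 𝓞 L}
    (h : Rep f θ B D P β) (p : Nat.Primes) (hp : ¬ (p : ℕ) ∣ B) (v0 : HeightOneSpectrum (𝓞 L))
    (hv0 : Abv v0 (p : ℕ)) (hβ : β ∈ v0.asIdeal) :
    Ideal.absNorm v0.asIdeal = (p : ℕ) ∧
    Pat f θ (p : ℕ) (P.pa p) (({v0} : Set _).indicator (fun _ => (1 : ℤ))) ∧
    v0.valuation L (β : L) = WithZero.exp (-1 : ℤ) ∧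
    ∀ v : HeightOneSpectrum (𝓞 L), Abv v (p : ℕ) → v ≠ v0 → v.valuation L (β : L) = 1 := by
  obtain ⟨S, hS, hSv⟩ := h.2 p hp
  have hmem : v0 ∈ S := by
    by_contra hn
    exact not_mem_of v0 β ((hSv v0 hv0).2 hn) hβ
  rcases hS.2 with ⟨-, h1⟩ | ⟨-, w, h1, h2, h3⟩
  · rw [h1] at hmem; exact absurd hmem (Set.notMem_empty _)
  · rw [h3, Set.mem_singleton_iff] at hmem
    subst hmem
    subst h3
    refine ⟨h2, hS.1, (hSv v0 hv0).1 rfl, fun v hv hne => (hSv v hv).2 ?_⟩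
    simpa using hne

lemma ty1 {f : ℤ[X]} {θ : L} {B : ℕ} (l : ℕ) (hl : l.Prime) (hlB : ¬ l ∣ B) (T : Set (𝓞 L))
    (hT : ∀ β ∈ T, ∃ (D : ℤ) (P : AVal f D), Rep f θ B D P β) : Ty1 l T := by
  intro β hβ
  obtain ⟨D, P, hR⟩ := hT β hβ
  obtain ⟨S, hS, hSv⟩ := hR.2 ⟨l, hl⟩ hlB
  rcases hS.2 with ⟨-, h1⟩ | ⟨-, w, h1, h2, h3⟩
  · left
    intro v hv
    exact not_mem_of v β ((hSv v hv).2 (by rw [h1]; exact Set.notMem_empty _))
  · right
    subst h3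
    refine ⟨w, h1, h2, mem_of w β ((hSv w h1).1 rfl), fun v hv hne => not_mem_of v β ?_⟩
    exact (hSv v hv).2 (by simpa using hne)

lemma coprime_map {f : ℤ[X]} {F : Type} [Field F] [CharZero F] {ε : ℚ[X]}
    (h : IsCoprime (up f ℚ) ε) : IsCoprime (up f F) (ε.map (Rat.castHom F)) := by
  have h1 := h.map (Polynomial.mapRingHom (Rat.castHom F))
  have h2 : (Polynomial.mapRingHom (Rat.castHom F)) (up f ℚ) = up f F := by
    simp only [coe_mapRingHom, up, Polynomial.map_map]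
    congr 1
    exact RingHom.ext_int _ _
  rw [h2] at h1
  exact h1

lemma ty2 (hpfc : S_PFC) (hchr : S_CHR) (hcorp : S_CORP) (hbil : S_BIL) (hbc : S_BC)
    {f : ℤ[X]} (hn : 1 ≤ f.natDegree) {θ : L} (hd : Dat f L θ) (B : ℕ) (h2B : 2 ∣ B)
    (hGD : ∀ (l : ℕ) [Fact l.Prime], ¬ l ∣ B → ∀ (a : ℚ_[l][X]) (β ε : ℚ[X])
      (s : HeightOneSpectrum (𝓞 L) → ℤ), Pat f θ l a s → IsCoprime (up f ℚ_[l]) a →
      aeval θ β ≠ 0 → SqN f ε →
      (∀ v : HeightOneSpectrum (𝓞 L), Abv v l → Par v (aeval θ β) (s v) ∧ Par v (aeval θ ε) 0) →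
      cor (up f ℚ_[l]) a (ε.map (Rat.castHom ℚ_[l])) =
        cor (up f ℚ_[l]) (β.map (Rat.castHom ℚ_[l])) (ε.map (Rat.castHom ℚ_[l])))
    (hQD : ∀ (l : ℕ) [Fact l.Prime], ¬ l ∣ B →
      ∀ (D D' : ℤ) (a a' : ℚ_[l][X]) (b b' ε : ℚ[X]) (β β' : 𝓞 L) (v0 : HeightOneSpectrum (𝓞 L))
      (T : Finset (HeightOneSpectrum (𝓞 L))), Val f D ℚ_[l] a → Val f D' ℚ_[l] a' →
      aeval θ b = (β : L) → aeval θ b' = (β' : L) → Abv v0 l → Ideal.absNorm v0.asIdeal = l →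
      v0 ∉ T → (∀ v ∈ T, Abv v l) → IsSquare (∏ v ∈ T, Ideal.absNorm v.asIdeal) → SqN f ε →
      (∃ s : HeightOneSpectrum (𝓞 L) → ℤ, s v0 = 1 ∧ (∀ v, v ≠ v0 → s v = 0) ∧ Pat f θ l a s ∧
        Pat f θ l a' s) →
      (∀ v : HeightOneSpectrum (𝓞 L), Abv v l →
        (v = v0 → v.valuation L (β : L) = WithZero.exp (-1 : ℤ) ∧
          v.valuation L (β' : L) = WithZero.exp (-1 : ℤ)) ∧
        (v ≠ v0 → v.valuation L (β : L) = 1 ∧ v.valuation L (β' : L) = 1) ∧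
        (v ∈ T → Par v (aeval θ ε) 1) ∧ (v ∉ T → Par v (aeval θ ε) 0)) →
      cor (up f ℚ_[l]) a (ε.map (Rat.castHom ℚ_[l])) *
          cor (up f ℚ_[l]) (b.map (Rat.castHom ℚ_[l])) (ε.map (Rat.castHom ℚ_[l])) =
        cor (up f ℚ_[l]) a' (ε.map (Rat.castHom ℚ_[l])) *
          cor (up f ℚ_[l]) (b'.map (Rat.castHom ℚ_[l])) (ε.map (Rat.castHom ℚ_[l])) →
      ∏ v ∈ T, sg v ((β * β' : 𝓞 L) : L) = 1)
    (hEPS : ∀ q : ℕ, q.Prime → ¬ q ∣ B → ∀ T : Finset (HeightOneSpectrum (𝓞 L)),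
      (∀ v ∈ T, Abv v q) → IsSquare (∏ v ∈ T, Ideal.absNorm v.asIdeal) →
      ∃ ε : ℚ[X], SqN f ε ∧ ∀ v : HeightOneSpectrum (𝓞 L), (B : 𝓞 L) ∉ v.asIdeal →
        (v ∈ T → Par v (aeval θ ε) 1) ∧ (v ∉ T → Par v (aeval θ ε) 0))
    (D D' : ℤ) (P : AVal f D) (P' : AVal f D') (β β' : 𝓞 L) (b b' : ℚ[X])
    (hb : aeval θ b = (β : L)) (hb' : aeval θ b' = (β' : L))
    (hR : Rep f θ B D P β) (hR' : Rep f θ B D' P' β') (hO : Orth P) (hO' : Orth P')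
    (hre : Same f ℝ P.re P'.re ∧ Same f ℝ (b.map (Rat.castHom ℝ)) (b'.map (Rat.castHom ℝ)))
    (hpa : ∀ p : Nat.Primes, (p : ℕ) ∣ B → Same f ℚ_[(p : ℕ)] (P.pa p) (P'.pa p) ∧
      Same f ℚ_[(p : ℕ)] (b.map (Rat.castHom ℚ_[(p : ℕ)])) (b'.map (Rat.castHom ℚ_[(p : ℕ)])))
    (l : ℕ) (hl : l.Prime) (hlB : ¬ l ∣ B) (v0 : HeightOneSpectrum (𝓞 L)) (hv0 : Abv v0 l)
    (hβ : β ∈ v0.asIdeal) (hβ' : β' ∈ v0.asIdeal) :
    ∃ c : ℤ, ¬ (l : ℤ) ∣ c ∧ ∀ v : HeightOneSpectrum (𝓞 L), Abv v l → v ≠ v0 →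
      ∃ g : 𝓞 L, (c : 𝓞 L) * β * β' - g ^ 2 ∈ v.asIdeal := by
  haveI : Fact l.Prime := ⟨hl⟩
  obtain ⟨hN, hPat, hβ1, hβ2⟩ := rep_val hR ⟨l, hl⟩ hlB v0 hv0 hβ
  obtain ⟨-, hPat', hβ1', hβ2'⟩ := rep_val hR' ⟨l, hl⟩ hlB v0 hv0 hβ'
  have hl2 : l ≠ 2 := by rintro rfl; exact hlB h2B
  have key := hchr L l hl hl2 v0 (β * β') (by
    intro v hv hne h
    rcases v.isPrime.mem_or_mem h with h | h
    · exact not_mem_of v β (hβ2 v hv hne) h
    · exact not_mem_of v β' (hβ2' v hv hne) h) (by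
    intro T hT hv0T hsq
    obtain ⟨ε, hε, hεv⟩ := hEPS l hl hlB T hT hsq
    have hbne : aeval θ b ≠ 0 := by rw [hb]; exact_mod_cast hR.1
    have hbne' : aeval θ b' ≠ 0 := by rw [hb']; exact_mod_cast hR'.1
    have hbc0 := (hd.zero b).mpr hbne
    have hbc0' := (hd.zero b').mpr hbne'
    have f1 := hO ε hε
    have f2 := hpfc f hd.set.irr b ε hbc0 hε.1
    have f3 := hO' ε hε
    have f4 := hpfc f hd.set.irr b' ε hbc0' hε.1
    rw [ramA_eq] at f1 f3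
    rw [ramG_eq] at f2 f4
    have hk := four (iA P ε) (iG f b ε) (iA P' ε) (iG f b' ε) f1 f2 f3 f4 (some ⟨l, hl⟩) (by
      intro v hv
      match v with
      | none =>
        left
        obtain ⟨-, -, -, hs, hdeg⟩ := hbc f hd.set.irr ℝ ε
        have hc := coprime_map (F := ℝ) hε.1
        exact ⟨hre.1.cor_eq hcorp hbil.1 hs (by rw [hdeg]; exact hn) hc,
          hre.2.cor_eq hcorp hbil.1 hs (by rw [hdeg]; exact hn) hc⟩
      | some q =>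
        by_cases hqB : (q : ℕ) ∣ B
        · left
          obtain ⟨-, -, -, hs, hdeg⟩ := hbc f hd.set.irr ℚ_[(q : ℕ)] ε
          have hc := coprime_map (F := ℚ_[(q : ℕ)]) hε.1
          exact ⟨(hpa q hqB).1.cor_eq hcorp (hbil.2 q) hs (by rw [hdeg]; exact hn) hc,
            (hpa q hqB).2.cor_eq hcorp (hbil.2 q) hs (by rw [hdeg]; exact hn) hc⟩
        · right
          have hql : (q : ℕ) ≠ l := by
            intro h
            apply hv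
            congr 1
            exact Subtype.ext h
          have hε0 : ∀ v : HeightOneSpectrum (𝓞 L), Abv v (q : ℕ) → Par v (aeval θ ε) 0 := by
            intro v hvq
            apply (hεv v (abv_not q.2 hqB hvq)).2
            intro hvT
            exact hql (abv_unique q.2 hl hvq (hT v hvT))
          have hgen : ∀ (D : ℤ) (P : AVal f D) (β : 𝓞 L) (b : ℚ[X]), aeval θ b = (β : L) →
              Rep f θ B D P β → aeval θ b ≠ 0 → iA P ε (some q) = iG f b ε (some q) := by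
            intro D P β b hb hR hbne
            obtain ⟨S, hS, hSv⟩ := hR.2 q hqB
            have hcop : IsCoprime (up f ℚ_[(q : ℕ)]) (P.pa q) := by
              obtain ⟨x, w, y, -, -, h, -⟩ := P.hpa q; exact h
            refine hGD (q : ℕ) hqB (P.pa q) b ε _ hS.1 hcop hbne hε (fun v hv => ⟨?_, hε0 v hv⟩)
            rw [hb]
            by_cases hvS : v ∈ S
            · rw [Set.indicator_of_mem hvS]
              exact par_one ((hSv v hv).1 hvS)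
            · rw [Set.indicator_of_notMem hvS]
              exact par_zero ((hSv v hv).2 hvS)
          exact ⟨hgen D P β b hb hR hbne, hgen D' P' β' b' hb' hR' hbne'⟩)
    refine hQD l hlB D D' (P.pa ⟨l, hl⟩) (P'.pa ⟨l, hl⟩) b b' ε β β' v0 T (P.hpa ⟨l, hl⟩)
      (P'.hpa ⟨l, hl⟩) hb hb' hv0 hN hv0T hT hsq hε ⟨_, ?_, ?_, hPat, hPat'⟩ ?_ hk
    · simp
    · intro v hv
      rw [Set.indicator_of_notMem (by simpa using hv)]
    · intro v hv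
      refine ⟨?_, fun hne => ⟨hβ2 v hv hne, hβ2' v hv hne⟩, ?_⟩
      · rintro rfl; exact ⟨hβ1, hβ1'⟩
      · exact hεv v (abv_not hl hlB hv))
  obtain ⟨c, hc, hcv⟩ := key
  refine ⟨c, hc, fun v hv hne => ?_⟩
  obtain ⟨g, hg⟩ := hcv v hv hne
  exact ⟨g, by rw [mul_assoc]; exact hg⟩

end L

end Pool.Agent.Q51.EB
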