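import Pool.Agent.Q51.EB.All

/-! # Project EB: the upper bound, without reference to the everywhere locally soluble twists -/

set_option autoImplicit false

namespace Pool.Agent.Q51.EB

open Polynomial NumberField IsDedekindDomain Finset Pool.Agent.Q51.EL Pool.Agent

/-- the upper bound for the number of the twists with an orthogonal adelic point -/
def S_UP : Prop := ∀ f : ℤ[X], Irreducible (f.map (Int.castRingHom ℚ)) → Even f.natDegree →
  6 ≤ f.natDegree → ∃ K C2 C3 c : ℝ, 1 ≤ K ∧ 0 ≤ C2 ∧ 0 < c ∧ ∀ X : ℝ, 3 ≤ X →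
    (({D : ℤ | (D.natAbs : ℝ) ≤ X ∧ Squarefree D ∧ ∃ P : AVal f D, Orth P}.ncard : ℕ) : ℝ) ≤
      C2 * (K * X ^ ((1 : ℝ) / f.natDegree)) ^ f.natDegree *
      Real.exp (Gf f (K * X ^ ((1 : ℝ) / f.natDegree)) + C3) *
      Real.log (K * X ^ ((1 : ℝ) / f.natDegree)) ^ (-(1 + c))

/-- the proof is the first part of the proof of `ebmain_of` -/
theorem upper_of (hbil : S_BIL) (hcorp : S_CORP) (hbc : S_BC) (hpfc : S_PFC) (heps : S_EPS)
    (hidl : S_IDL) (hchr : S_CHR) (hapx : S_APX) (hapxr : S_APXR) (hvc : S_VC) (hscl : S_SCL)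
    (hgd : S_GD) (hqd : S_QD) (hcore : S_CORE) (hgg : S_GG) : S_UP := by
  classical
  intro f hf hev2 h6
  have : Fact (Irreducible (f.map (Int.castRingHom ℚ))) := ⟨hf⟩
  set L := AdjoinRoot (f.map (Int.castRingHom ℚ)) with hL
  have hfd : FiniteDimensional ℚ L := PowerBasis.finite (AdjoinRoot.powerBasis hf.ne_zero)
  have : CharZero L := algebraRat.charZero L
  have : NumberField L := { to_charZero := inferInstance, to_finiteDimensional := hfd }
  set θ : L := AdjoinRoot.root (f.map (Int.castRingHom ℚ)) with hθ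
  have hnd : (f.map (Int.castRingHom ℚ)).natDegree = f.natDegree :=
    natDegree_map_eq_of_injective (Int.castRingHom ℚ).injective_int f
  have hset : Setup f L θ := by
    refine ⟨hf, ?_, ?_⟩
    · have h1 := AdjoinRoot.eval₂_root (f.map (Int.castRingHom ℚ))
      rw [eval₂_map] at h1
      rw [aeval_def, ← h1]
      congr 1
    · rw [(AdjoinRoot.powerBasis hf.ne_zero).finrank, AdjoinRoot.powerBasis_dim, hnd]
  have haev : ∀ d : ℚ[X], aeval θ d = AdjoinRoot.mk (f.map (Int.castRingHom ℚ)) d := by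
    intro d; rw [hθ]; exact AdjoinRoot.aeval_eq d
  have hdat : Dat f L θ := by
    refine ⟨hset, fun d => by rw [haev]; rfl, fun x => ?_, fun d => ?_⟩
    · obtain ⟨d, hd⟩ := AdjoinRoot.mk_surjective x
      exact ⟨d, by rw [haev, hd]⟩
    · rw [haev, Ne, AdjoinRoot.mk_eq_zero]
      exact (hf.coprime_iff_not_dvd)
  obtain ⟨B1, hB1, hscl⟩ := hscl f L θ hset hev2
  obtain ⟨B2, hB2, hgd⟩ := hgd f L θ hset
  obtain ⟨B3, hB3, hqd⟩ := hqd f L θ hset hev2 (by omega)
  obtain ⟨B4, hB4, heps⟩ := heps f L θ hset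
  obtain ⟨B5, C1, hB5, hC1, hidl⟩ := hidl L
  obtain ⟨B, hB, d2, d1, d2', d3, d4, d5⟩ : ∃ B : ℕ, B ≠ 0 ∧ 2 ∣ B ∧ B1 ∣ B ∧ B2 ∣ B ∧ B3 ∣ B ∧
      B4 ∣ B ∧ B5 ∣ B := by
    refine ⟨2 * B1 * B2 * B3 * B4 * B5, by positivity, ?_, ?_, ?_, ?_, ?_, ?_⟩
    · exact ⟨B1 * B2 * B3 * B4 * B5, by ring⟩
    · exact ⟨2 * B2 * B3 * B4 * B5, by ring⟩
    · exact ⟨2 * B1 * B3 * B4 * B5, by ring⟩
    · exact ⟨2 * B1 * B2 * B4 * B5, by ring⟩
    · exact ⟨2 * B1 * B2 * B3 * B5, by ring⟩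
    · exact ⟨2 * B1 * B2 * B3 * B4, by ring⟩
  have hnin : ∀ {b : ℕ}, b ∣ B → ∀ v : HeightOneSpectrum (𝓞 L), (B : 𝓞 L) ∉ v.asIdeal →
      (b : 𝓞 L) ∉ v.asIdeal := by
    rintro b ⟨k, rfl⟩ v hv h
    apply hv
    push_cast
    exact Ideal.mul_mem_right _ _ h
  -- the set of the twists
  let I : Type := {D : ℤ // Squarefree D ∧ ∃ P : AVal f D, Orth P}
  choose P hP using fun D : I => D.2.2
  have hloc : ∀ (D : I) (p : Nat.Primes), ¬ (p : ℕ) ∣ B →
      ∃ S : Set (HeightOneSpectrum (𝓞 L)), LocS f θ D.1 (p : ℕ) ((P D).pa p) S := by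
    intro D p hp
    exact loc hapx hvc hdat (p : ℕ) (hscl (p : ℕ) (fun h => hp (h.trans d1))) D.1 D.2.1 _
      ((P D).hpa p)
  have hrep : ∀ D : I, ∃ β : 𝓞 L, Rep f θ B D.1 (P D) β ∧ ∀ σ : L →+* ℂ, ‖σ (β : L)‖ ≤
      C1 * (D.1.natAbs : ℝ) ^ ((1 : ℝ) / Module.finrank ℚ L) := by
    intro D
    apply exists_rep B C1 _ hC1 D.1 D.2.1 (P D) (hloc D)
    intro S hS
    obtain ⟨α, h1, h2, h3⟩ := hidl S (fun v hv => hnin d5 v (hS v hv))
    exact ⟨α, h1, fun v hv => h2 v (hnin d5 v hv), h3⟩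
  choose β hβR hβσ using hrep
  choose pol hpol using hdat.surj
  -- the finite data
  obtain ⟨nR, kR, hkR⟩ := cls (hapxr f hf)
  choose nP kP hkP using fun p : Nat.Primes => cls (hapx f hf (p : ℕ)).2
  let BP : Type := {p : Nat.Primes // (p : ℕ) ∣ B}
  have : Finite BP := by
    apply Finite.of_injective (β := Fin (B + 1)) (fun p => ⟨((p.1 : Nat.Primes) : ℕ),
      Nat.lt_succ_of_le (Nat.le_of_dvd (Nat.pos_of_ne_zero hB) p.2)⟩)
    intro p q h
    apply Subtype.ext
    apply Subtype.ext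
    simpa using congrArg Fin.val h
  let J : Type := (Fin (nR + 1) × Fin (nR + 1)) ×
    ((p : BP) → Fin (nP p.1 + 1) × Fin (nP p.1 + 1)) × Set BP × Bool
  have : Finite (Set BP) := inferInstance
  have : Finite ((p : BP) → Fin (nP p.1 + 1) × Fin (nP p.1 + 1)) := inferInstance
  have : Finite J := inferInstance
  have hfJ : Fintype J := Fintype.ofFinite J
  let dat : I → J := fun D =>
    ((kR (P D).re, kR ((pol (β D : L)).map (Rat.castHom ℝ))),
      (fun p => (kP p.1 ((P D).pa p.1),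
        kP p.1 ((pol (β D : L)).map (Rat.castHom ℚ_[((p.1 : Nat.Primes) : ℕ)])))),
      {p | (((p.1 : Nat.Primes) : ℕ) : ℤ) ∣ D.1}, decide (0 < D.1))
  have hinj : ∀ D D' : I, dat D = dat D' → β D = β D' → D = D' := by
    intro D D' h hβ
    have h3 : ({p : BP | (((p.1 : Nat.Primes) : ℕ) : ℤ) ∣ D.1} : Set BP) =
        {p | (((p.1 : Nat.Primes) : ℕ) : ℤ) ∣ D'.1} := congrArg (fun x => x.2.2.1) h
    have h4 : decide (0 < D.1) = decide (0 < D'.1) := congrArg (fun x => x.2.2.2) h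
    have h5 : ∀ p : Nat.Primes, ((p : ℕ) : ℤ) ∣ D.1 ↔ ((p : ℕ) : ℤ) ∣ D'.1 := by
      intro p
      by_cases hp : (p : ℕ) ∣ B
      · have := Set.ext_iff.mp h3 ⟨p, hp⟩
        simpa using this
      · rw [rep_dvd (hβR D) p hp, rep_dvd (hβR D') p hp, hβ]
    have h6 : D.1.natAbs.primeFactors = D'.1.natAbs.primeFactors := by
      ext p
      simp only [Nat.mem_primeFactors, ne_eq, Int.natAbs_eq_zero, D.2.1.ne_zero,
        D'.2.1.ne_zero, not_false_eq_true, and_true]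
      constructor
      · rintro ⟨hp, hpD⟩
        exact ⟨hp, Int.natCast_dvd.mp ((h5 ⟨p, hp⟩).mp (Int.natCast_dvd.mpr hpD))⟩
      · rintro ⟨hp, hpD⟩
        exact ⟨hp, Int.natCast_dvd.mp ((h5 ⟨p, hp⟩).mpr (Int.natCast_dvd.mpr hpD))⟩
    have h7 : D.1.natAbs = D'.1.natAbs := by
      rw [← Nat.prod_primeFactors_of_squarefree (Int.squarefree_natAbs.mpr D.2.1),
        ← Nat.prod_primeFactors_of_squarefree (Int.squarefree_natAbs.mpr D'.2.1), h6]
    apply Subtype.ext
    have h8 := D.2.1.ne_zero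
    have h9 := D'.2.1.ne_zero
    have h10 : (0 < D.1 ↔ 0 < D'.1) := by simpa using h4
    rcases Int.natAbs_eq_natAbs_iff.mp h7 with h | h
    · exact h
    · omega
  -- the conditions of the sieve
  let T : J → Set (𝓞 L) := fun b => {x | ∃ D : I, dat D = b ∧ β D = x}
  have hT : ∀ b : J, ∀ l : ℕ, l.Prime → ¬ l ∣ B → Ty1 l (T b) ∧ Ty2 l (T b) := by
    intro b l hl hlB
    constructor
    · apply ty1 l hl hlB
      rintro _ ⟨D, -, rfl⟩
      exact ⟨D.1, P D, hβR D⟩
    · rintro _ ⟨D, hD, rfl⟩ _ ⟨D', hD', rfl⟩ v0 hv0 h h'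
      have hDD : dat D = dat D' := hD.trans hD'.symm
      have hnz : ∀ D : I, aeval θ (pol (β D : L)) ≠ 0 := by
        intro D; rw [hpol]; exact_mod_cast (hβR D).1
      have hcopR : ∀ D : I, IsCoprime (up f ℝ) (P D).re := by
        intro D; obtain ⟨x, w, y, -, -, h, -⟩ := (P D).hre; exact h
      have hcopP : ∀ (D : I) (p : Nat.Primes), IsCoprime (up f ℚ_[(p : ℕ)]) ((P D).pa p) := by
        intro D p; obtain ⟨x, w, y, -, -, h, -⟩ := (P D).hpa p; exact h
      have e1 : kR (P D).re = kR (P D').re := congrArg (fun x => x.1.1) hDD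
      have e2 : kR ((pol (β D : L)).map (Rat.castHom ℝ)) =
          kR ((pol (β D' : L)).map (Rat.castHom ℝ)) := congrArg (fun x => x.1.2) hDD
      have e3 : ∀ p : BP, (kP p.1 ((P D).pa p.1),
          kP p.1 ((pol (β D : L)).map (Rat.castHom ℚ_[((p.1 : Nat.Primes) : ℕ)]))) =
          (kP p.1 ((P D').pa p.1),
          kP p.1 ((pol (β D' : L)).map (Rat.castHom ℚ_[((p.1 : Nat.Primes) : ℕ)]))) :=
        fun p => congrFun (congrArg (fun x => x.2.1) hDD) p
      refine ty2 hpfc hchr hcorp hbil hbc (by omega) hdat B d2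
        (fun l _ hlB => hgd l (fun h => hlB (h.trans d2')))
        (fun l _ hlB => hqd l (fun h => hlB (h.trans d3))) ?_ D.1 D'.1 (P D) (P D') (β D) (β D')
        (pol (β D : L)) (pol (β D' : L)) (hpol _) (hpol _) (hβR D) (hβR D') (hP D) (hP D')
        ⟨hkR _ _ (hcopR D) (hcopR D') e1,
          hkR _ _ (coprime_map ((hdat.zero _).mpr (hnz D)))
            (coprime_map ((hdat.zero _).mpr (hnz D'))) e2⟩
        (fun p hp => ⟨hkP p _ _ (hcopP D p) (hcopP D' p) (congrArg Prod.fst (e3 ⟨p, hp⟩)),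
          hkP p _ _ (coprime_map ((hdat.zero _).mpr (hnz D)))
            (coprime_map ((hdat.zero _).mpr (hnz D'))) (congrArg Prod.snd (e3 ⟨p, hp⟩))⟩)
        l hl hlB v0 hv0 h h'
      intro q hq hqB T hT hsq
      obtain ⟨ε, h1, h2⟩ := heps q hq (fun h => hqB (h.trans d4)) T hT hsq
      exact ⟨ε, h1, fun v hv => h2 v (hnin d4 v hv)⟩
  -- counting
  obtain ⟨c, C2, hc, hcore⟩ := hcore L (by rw [hset.deg]; omega) B hB
  obtain ⟨C3, hC3⟩ := hgg f L θ hset
  have hn0 : (0 : ℝ) < f.natDegree := by exact_mod_cast (by omega : 0 < f.natDegree)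
  set K : ℝ := max C1 3 with hK
  have hK3 : 3 ≤ K := le_max_right _ _
  have hS : ∀ X : ℝ, 3 ≤ X →
      ((({D : ℤ | (D.natAbs : ℝ) ≤ X ∧ Squarefree D ∧ ∃ P : AVal f D, Orth P}).ncard : ℕ) : ℝ) ≤
      (Fintype.card J * max C2 0) * (K * X ^ ((1 : ℝ) / f.natDegree)) ^ f.natDegree *
      Real.exp (Gf f (K * X ^ ((1 : ℝ) / f.natDegree)) + C3) *
      Real.log (K * X ^ ((1 : ℝ) / f.natDegree)) ^ (-(1 + c)) := by
    intro X hX
    set Y : ℝ := K * X ^ ((1 : ℝ) / f.natDegree) with hY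
    have hX1 : 1 ≤ X ^ ((1 : ℝ) / f.natDegree) :=
      Real.one_le_rpow (by linarith) (by positivity)
    have hY3 : 3 ≤ Y := by nlinarith
    have hlY : 0 < Real.log Y := Real.log_pos (by linarith)
    have hfinD : {D : ℤ | (D.natAbs : ℝ) ≤ X ∧ Squarefree D ∧ ∃ P : AVal f D, Orth P}.Finite :=
      fin_sq X _
    let E : Set I := {D : I | (D.1.natAbs : ℝ) ≤ X}
    have hEim : Subtype.val '' E =
        {D : ℤ | (D.natAbs : ℝ) ≤ X ∧ Squarefree D ∧ ∃ P : AVal f D, Orth P} := by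
      ext D
      constructor
      · rintro ⟨D, hD, rfl⟩
        exact ⟨hD, D.2⟩
      · rintro ⟨h1, h2⟩
        exact ⟨⟨D, h2⟩, h1, rfl⟩
    have hEfin : E.Finite := by
      apply Set.Finite.of_finite_image _ Subtype.val_injective.injOn
      rw [hEim]; exact hfinD
    have hEcard : ({D : ℤ | (D.natAbs : ℝ) ≤ X ∧ Squarefree D ∧ ∃ P : AVal f D, Orth P}).ncard =
        hEfin.toFinset.card := by
      rw [← hEim, Set.ncard_image_of_injective _ Subtype.val_injective,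
        Set.ncard_eq_toFinset_card _ hEfin]
    have hfib : hEfin.toFinset.card =
        ∑ b : J, (hEfin.toFinset.filter (fun D => dat D = b)).card :=
      Finset.card_eq_sum_card_fiberwise (fun x _ => Finset.mem_univ _)
    have hGN : GN L Y ≤ Gf f Y + C3 := hC3 Y
    have hb : ∀ b : J, (((hEfin.toFinset.filter (fun D => dat D = b)).card : ℕ) : ℝ) ≤
        (max C2 0) * Y ^ f.natDegree * Real.exp (Gf f Y + C3) * Real.log Y ^ (-(1 + c)) := by
      intro b
      obtain ⟨hfin, hcard⟩ := hcore (T b) (hT b) Y hY3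
      have h1 : (hEfin.toFinset.filter (fun D => dat D = b)).card ≤
          ({x ∈ T b | ∀ σ : L →+* ℂ, ‖σ (x : L)‖ ≤ Y}).ncard := by
        rw [Set.ncard_eq_toFinset_card _ hfin]
        apply Finset.card_le_card_of_injOn β
        · intro D hD
          simp only [Finset.coe_filter, Set.Finite.mem_toFinset] at hD
          obtain ⟨hD1, hD2⟩ := hD
          simp only [Set.Finite.coe_toFinset]
          refine ⟨⟨D, hD2, rfl⟩, fun σ => (hβσ D σ).trans ?_⟩
          rw [hY, hset.deg]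
          apply mul_le_mul (le_max_left _ _) _ (by positivity) (by positivity)
          exact Real.rpow_le_rpow (by positivity) hD1 (by positivity)
        · intro D hD D' hD' h
          simp only [Finset.coe_filter, Set.Finite.mem_toFinset] at hD hD'
          exact hinj D D' (hD.2.trans hD'.2.symm) h
      calc (((hEfin.toFinset.filter (fun D => dat D = b)).card : ℕ) : ℝ)
          ≤ (({x ∈ T b | ∀ σ : L →+* ℂ, ‖σ (x : L)‖ ≤ Y}).ncard : ℝ) := by exact_mod_cast h1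
        _ ≤ C2 * Y ^ Module.finrank ℚ L * Real.exp (GN L Y) * Real.log Y ^ (-(1 + c)) := hcard
        _ ≤ (max C2 0) * Y ^ f.natDegree * Real.exp (Gf f Y + C3) *
            Real.log Y ^ (-(1 + c)) := by
            rw [hset.deg]
            gcongr
            exact le_max_left _ _
    rw [hEcard, hfib]
    push_cast
    calc (∑ b : J, (((hEfin.toFinset.filter (fun D => dat D = b)).card : ℕ) : ℝ))
        ≤ ∑ _b : J, (max C2 0) * Y ^ f.natDegree * Real.exp (Gf f Y + C3) *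
          Real.log Y ^ (-(1 + c)) := Finset.sum_le_sum (fun b _ => hb b)
      _ = _ := by
          rw [Finset.sum_const, Finset.card_univ, nsmul_eq_mul]; ring
  exact ⟨K, Fintype.card J * max C2 0, C3, c, by linarith, by positivity, hc, hS⟩

theorem t_up : S_UP :=
  upper_of Q247.EB.bil t_corp Q247.EB.bc t_pfc eps idl chr_ t_apx Q58.EB.apxr t_vc scl t_gd t_qd
    Pool.Agent.Q51.EL.t_core Q91.EL.gg

end Pool.Agent.Q51.EB
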